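import Pool.Agent.FFG.PepoProd
import Pool.Agent.PepsY.Conn

/-!
# Every vector is a projected entangled pair state
-/

open Finset
open scoped InnerProductSpace

set_option autoImplicit false

namespace Pool.Agent.FFG.GP

open Pool.Agent.PEPS953 Pool.Agent.PepsY Pool.Agent.FFG

/-- The whole torus is a square. -/
lemma GP24_square {L : ℕ} [NeZero L] : square L 0 0 L = (univ : Finset (Site L)) := by
  ext v
  simp only [Finset.mem_univ, iff_true]
  refine mem_image.2 ⟨(v.1.val, v.2.val), ?_, ?_⟩
  · rw [mem_product, mem_range, mem_range]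
    exact ⟨ZMod.val_lt _, ZMod.val_lt _⟩
  · unfold tile
    simp only [zero_add, ZMod.natCast_val, ZMod.cast_id', id_eq]

/-- The whole torus is connected. -/
lemma GP24_conn {L : ℕ} [NeZero L] : Conn (univ : Finset (Site L)) := by
  rw [← GP24_square]
  exact conn_square 0 0 L

/-- Every vector is a PEPS. -/
theorem isPEPS_exact {d L : ℕ} [NeZero L] (hd : 0 < d) (x : Hil d L) :
    IsPEPS (d ^ (2 * L ^ 2)) x := by
  classical
  set s0 : Conf d L := fun _ => ⟨0, hd⟩ with hs0
  set O : Hil d L →L[ℂ] Hil d L := Matrix.toEuclideanCLM (𝕜 := ℂ) (n := Conf d L)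
    (fun s s' => if s' = s0 then x s else 0) with hO
  have hmat : mat O = fun s s' => if s' = s0 then x s else 0 := by
    unfold mat
    rw [hO, StarAlgEquiv.symm_apply_apply]
  have hcard : (univ : Finset (Site L)).card ≤ L ^ 2 := by
    rw [Finset.card_univ, Fintype.card_prod, ZMod.card, sq]
  have h1 := pepo_prod (d := d) (L := L) (ι := Unit) hd [()] (fun _ => univ)
    (List.pairwise_singleton _ _) (fun _ => univ_nonempty) (fun _ => GP24_conn) (L ^ 2)
    (fun _ => hcard) (fun _ => O) (fun _ u hu => absurd (Finset.mem_univ u) hu)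
  simp only [List.map_cons, List.map_nil, List.prod_cons, List.prod_nil, mul_one] at h1
  have h2 := h1.col s0
  have h3 : (WithLp.toLp 2 (fun s => mat O s s0) : Hil d L) = x := by
    ext s
    rw [hmat]
    simp
  rwa [h3] at h2

end Pool.Agent.FFG.GP
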