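import Pool.Agent.FFG.GP.Insert

/-!
# The last placed row before a given one, in the cyclic order
-/

open Finset

set_option autoImplicit false

namespace Pool.Agent.FFG.GPlain

/-- The number of the `i < L'` with `f i < m`. -/
def predCount (L' : ℕ) (f : ℕ → ℕ) (m : ℕ) : ℕ := ((range L').filter fun i => f i < m).card

theorem predCount_zero (L' : ℕ) (f : ℕ → ℕ) : predCount L' f 0 = 0 := by
  simp [predCount]

theorem predCount_apply {L' : ℕ} {f : ℕ → ℕ} (hf : StrictMono f) {i : ℕ} (hi : i < L') :
    predCount L' f (f i) = i := by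
  have h : (range L').filter (fun j => f j < f i) = range i := by
    ext j
    rw [mem_filter, mem_range, mem_range, hf.lt_iff_lt]
    omega
  rw [predCount, h, card_range]

theorem predCount_succ {L' : ℕ} {f : ℕ → ℕ} (hf : StrictMono f) {i : ℕ} (hi : i < L') :
    predCount L' f (f i + 1) = i + 1 := by
  have h : (range L').filter (fun j => f j < f i + 1) = range (i + 1) := by
    ext j
    rw [mem_filter, mem_range, mem_range, Nat.lt_succ_iff, hf.le_iff_le]
    omega
  rw [predCount, h, card_range]

theorem predCount_full {L' L : ℕ} {f : ℕ → ℕ} (hfL : ∀ i < L', f i < L) :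
    predCount L' f L = L' := by
  have h : (range L').filter (fun j => f j < L) = range L' := by
    refine filter_true_of_mem fun j hj => hfL j (mem_range.mp hj)
  rw [predCount, h, card_range]

theorem predCount_ne {L' : ℕ} {f : ℕ → ℕ} {m : ℕ} (hm : ∀ i < L', f i ≠ m) :
    predCount L' f (m + 1) = predCount L' f m := by
  unfold predCount
  congr 1
  refine filter_congr fun i hi => ?_
  have := hm i (mem_range.mp hi)
  omega

/-- GP22a: the last placed row before `x`, in the cyclic order. -/
theorem pred_exists {L' L : ℕ} [NeZero L'] [NeZero L] {f : ℕ → ℕ} (hf : StrictMono f)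
    (hfL : ∀ i < L', f i < L) : ∃ p : ZMod L → ZMod L', (∀ i : ZMod L', p (f i.val) = i) ∧
      (∀ x : ZMod L, (∀ i : ZMod L', (f i.val : ZMod L) ≠ x) → p x = p (x - 1)) ∧
      ∀ i : ZMod L', p ((f i.val : ZMod L) - 1) = i - 1 := by
  have hval : ∀ i : ZMod L', ((f i.val : ℕ) : ZMod L).val = f i.val := fun i =>
    ZMod.val_cast_of_lt (hfL _ (ZMod.val_lt i))
  -- the value at `x - 1`
  have key : ∀ x : ZMod L, ((predCount L' f ((x - 1).val + 1) : ℕ) : ZMod L') =
      ((predCount L' f x.val : ℕ) : ZMod L') := by
    intro x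
    have h1 : (((x - 1).val + 1 : ℕ) : ZMod L) = x := by
      push_cast
      rw [ZMod.natCast_zmod_val]
      ring
    have h2 : (x - 1).val < L := ZMod.val_lt _
    rcases Nat.lt_or_ge ((x - 1).val + 1) L with h3 | h3
    · have h4 : x.val = (x - 1).val + 1 := by
        conv_lhs => rw [← h1]
        exact ZMod.val_cast_of_lt h3
      rw [h4]
    · have h4 : (x - 1).val + 1 = L := by omega
      have h5 : x = 0 := by
        rw [← h1, h4]
        exact ZMod.natCast_self L
      rw [h4, predCount_full hfL, h5, ZMod.val_zero, predCount_zero, ZMod.natCast_self,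
        Nat.cast_zero]
  refine ⟨fun x => ((predCount L' f (x.val + 1) : ℕ) : ZMod L') - 1, ?_, ?_, ?_⟩
  · intro i
    change ((predCount L' f (((f i.val : ℕ) : ZMod L).val + 1) : ℕ) : ZMod L') - 1 = i
    rw [hval, predCount_succ hf (ZMod.val_lt i)]
    push_cast
    rw [ZMod.natCast_zmod_val]
    ring
  · intro x hx
    change ((predCount L' f (x.val + 1) : ℕ) : ZMod L') - 1 =
      ((predCount L' f ((x - 1).val + 1) : ℕ) : ZMod L') - 1
    rw [key, predCount_ne]
    intro i hi h
    apply hx (i : ZMod L')
    rw [ZMod.val_cast_of_lt hi, h, ZMod.natCast_zmod_val]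
  · intro i
    change ((predCount L' f ((((f i.val : ℕ) : ZMod L) - 1).val + 1) : ℕ) : ZMod L') - 1 = i - 1
    rw [key, hval, predCount_apply hf (ZMod.val_lt i), ZMod.natCast_zmod_val]

end Pool.Agent.FFG.GPlain
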