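import Pool.Agent.FFG.GP.Insert
import Pool.Agent.FFG.GP.InsertPred

/-!
# The norm of a vector with inserted sites
-/

open Finset

set_option autoImplicit false
set_option linter.unusedSectionVars false

namespace Pool.Agent.FFG.GPlain

open Pool.Agent.PEPS953.Plain

lemma gp23_place_inj {L' L : ℕ} [NeZero L'] [NeZero L] {f g : ℕ → ℕ}
    (hf : StrictMono f) (hg : StrictMono g) (hL : ∀ i < L', f i < L ∧ g i < L) :
    Function.Injective (place (L' := L') L f g) := by
  have key : ∀ {k : ℕ → ℕ}, StrictMono k → (∀ i < L', k i < L) → ∀ a b : ZMod L',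
      ((k a.val : ℕ) : ZMod L) = (k b.val : ℕ) → a = b := by
    intro k hk hkL a b hab
    have h1 := congrArg ZMod.val hab
    rw [ZMod.val_cast_of_lt (hkL _ (ZMod.val_lt a)), ZMod.val_cast_of_lt (hkL _ (ZMod.val_lt b))] at h1
    exact ZMod.val_injective L' (hk.injective h1)
  intro u v h
  unfold place at h
  rw [Prod.mk.injEq] at h
  exact Prod.ext (key hf (fun i hi => (hL i hi).1) _ _ h.1)
    (key hg (fun i hi => (hL i hi).2) _ _ h.2)

theorem insert_norm {d L' L : ℕ} [NeZero L'] [NeZero L] {f g : ℕ → ℕ}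
    (hf : StrictMono f) (hg : StrictMono g) (hL : ∀ i < L', f i < L ∧ g i < L)
    (φ : Site L → Fin d → ℂ) : ∃ P : ℝ, ∀ x : Vec d L', nrm (insertAt L f g φ x) = P * nrm x := by
  classical
  have hinj := gp23_place_inj hf hg hL
  set p : Site L → Prop := fun w => ∃ u : Site L', place L f g u = w with hp
  -- the sites of the small torus
  let e₀ : Site L' ≃ {w // p w} := Equiv.ofBijective (fun u => ⟨place L f g u, u, rfl⟩)
    ⟨fun u v h => hinj (congrArg Subtype.val h), fun ⟨w, u, hu⟩ => ⟨u, Subtype.ext hu⟩⟩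
  let E : (Site L → Fin d) ≃ (({w // p w} → Fin d) × ({w // ¬ p w} → Fin d)) :=
    Equiv.piEquivPiSubtypeProd p fun _ => Fin d
  refine ⟨Real.sqrt (∑ t : {w // ¬ p w} → Fin d, ‖∏ w, φ w.1 (t w)‖ ^ 2), fun x => ?_⟩
  unfold nrm
  rw [← Real.sqrt_mul (Finset.sum_nonneg fun _ _ => by positivity)]
  congr 1
  rw [← E.symm.sum_comp, Fintype.sum_prod_type_right]
  rw [Finset.sum_mul]
  refine Finset.sum_congr rfl fun t _ => ?_
  rw [Finset.mul_sum]
  rw [← (Equiv.arrowCongr e₀ (Equiv.refl (Fin d))).sum_comp]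
  refine Finset.sum_congr rfl fun σ _ => ?_
  have h1 : insertAt L f g φ x (E.symm (Equiv.arrowCongr e₀ (Equiv.refl (Fin d)) σ, t)) =
      x σ * ∏ w, φ w.1 (t w) := by
    unfold insertAt
    congr 1
    · congr 1
      funext u
      have hpu : p (place L f g u) := ⟨u, rfl⟩
      simp only [E, Equiv.piEquivPiSubtypeProd_symm_apply, dif_pos hpu]
      simp only [Equiv.arrowCongr_apply, Equiv.coe_refl, Function.comp_apply, id_eq]
      congr 1
      exact e₀.symm_apply_apply u
    · refine (Finset.prod_subtype (p := fun w => ¬ p w) (F := inferInstance) _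
        (fun w => by simp [hp]) _).trans ?_
      refine Finset.prod_congr (Finset.ext fun w => by simp) fun w _ => ?_
      congr 1
      simp only [E, Equiv.piEquivPiSubtypeProd_symm_apply, dif_neg w.2]
  rw [h1, norm_mul, mul_pow, mul_comm]

end Pool.Agent.FFG.GPlain
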