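import Pool.Agent.FFG.GP.InsertPred

/-!
# The insertion of rows and columns does not change the bond dimension
-/

open Finset

set_option autoImplicit false
set_option linter.unusedSectionVars false

namespace Pool.Agent.FFG.GPlain

open Pool.Agent.PEPS953.Plain

section Ins

variable {d L' L D : ℕ} [NeZero L'] [NeZero L]

/-- induction along the cycle, from one placed row to the next one -/
theorem ins_induct {f : ℕ → ℕ} (P : ZMod L → Prop) (h1 : ∀ i : ZMod L', P (f i.val : ZMod L))
    (h2 : ∀ x : ZMod L, (∀ i : ZMod L', (f i.val : ZMod L) ≠ x) → P (x - 1) → P x) :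
    ∀ x, P x := by
  have h3 : ∀ n : ℕ, P ((f (0 : ZMod L').val : ZMod L) + (n : ZMod L)) := by
    intro n
    induction n with
    | zero =>
      rw [Nat.cast_zero, add_zero]
      exact h1 0
    | succ n ih =>
      by_cases h : ∃ i : ZMod L',
          (f i.val : ZMod L) = (f (0 : ZMod L').val : ZMod L) + ((n + 1 : ℕ) : ZMod L)
      · obtain ⟨i, hi⟩ := h
        rw [← hi]
        exact h1 i
      · apply h2 _ (fun i hi => h ⟨i, hi⟩)
        have e : (f (0 : ZMod L').val : ZMod L) + ((n + 1 : ℕ) : ZMod L) - 1 =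
            (f (0 : ZMod L').val : ZMod L) + (n : ZMod L) := by
          push_cast
          ring
        rw [e]
        exact ih
  intro x
  have h := h3 ((x - (f (0 : ZMod L').val : ZMod L)).val)
  rw [ZMod.natCast_zmod_val, add_sub_cancel] at h
  exact h

/-- row `x` is placed -/
def Placed (L' : ℕ) {L : ℕ} (f : ℕ → ℕ) (x : ZMod L) : Prop :=
  ∃ i : ZMod L', (f i.val : ZMod L) = x

open scoped Classical in
/-- extension of the horizontal indices -/
noncomputable def liftA (g : ℕ → ℕ) (p q : ZMod L → ZMod L') (z : Fin D)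
    (a' : Site L' → Fin D) : Site L → Fin D := fun w =>
  if Placed L' g w.2 then a' (p w.1, q w.2) else z

open scoped Classical in
/-- extension of the vertical indices -/
noncomputable def liftB (f : ℕ → ℕ) (p q : ZMod L → ZMod L') (z : Fin D)
    (b' : Site L' → Fin D) : Site L → Fin D := fun w =>
  if Placed L' f w.1 then b' (p w.1, q w.2) else z

open scoped Classical in
/-- the new tensor -/
noncomputable def insT (f g : ℕ → ℕ) (p q : ZMod L → ZMod L') (z : Fin D)
    (φ : Site L → Fin d → ℂ)
    (A : Site L' → Fin d → Fin D → Fin D → Fin D → Fin D → ℂ) :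
    Site L → Fin d → Fin D → Fin D → Fin D → Fin D → ℂ := fun w σ a b a₀ b₀ =>
  if Placed L' f w.1 then
    (if Placed L' g w.2 then A (p w.1, q w.2) σ a b a₀ b₀ else
      φ w σ * ((if b = b₀ then 1 else 0) * (if a = z then 1 else 0)))
  else
    (if Placed L' g w.2 then φ w σ * ((if a = a₀ then 1 else 0) * (if b = z then 1 else 0)) else
      φ w σ * ((if a = z then 1 else 0) * (if b = z then 1 else 0)))

variable {f g : ℕ → ℕ} {p q : ZMod L → ZMod L'} {z : Fin D} {φ : Site L → Fin d → ℂ}
  {A : Site L' → Fin d → Fin D → Fin D → Fin D → Fin D → ℂ}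

theorem ins_place_inj (hp : ∀ i : ZMod L', p (f i.val) = i) (hq : ∀ i : ZMod L', q (g i.val) = i) :
    Function.Injective (place (L' := L') L f g) := by
  intro u v h
  have h1 : (f u.1.val : ZMod L) = f v.1.val := congrArg Prod.fst h
  have h2 : (g u.2.val : ZMod L) = g v.2.val := congrArg Prod.snd h
  exact Prod.ext (by rw [← hp u.1, h1, hp]) (by rw [← hq u.2, h2, hq])

theorem liftA_place (hp : ∀ i : ZMod L', p (f i.val) = i) (hq : ∀ i : ZMod L', q (g i.val) = i)
    (a' : Site L' → Fin D) (u : Site L') : liftA g p q z a' (place L f g u) = a' u := by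
  have h : Placed L' g (place L f g u).2 := ⟨u.2, rfl⟩
  rw [liftA, if_pos h]
  change a' (p (f u.1.val), q (g u.2.val)) = a' u
  rw [hp, hq]

theorem liftB_place (hp : ∀ i : ZMod L', p (f i.val) = i) (hq : ∀ i : ZMod L', q (g i.val) = i)
    (b' : Site L' → Fin D) (u : Site L') : liftB f p q z b' (place L f g u) = b' u := by
  have h : Placed L' f (place L f g u).1 := ⟨u.1, rfl⟩
  rw [liftB, if_pos h]
  change b' (p (f u.1.val), q (g u.2.val)) = b' u
  rw [hp, hq]

theorem liftA_inj (hp : ∀ i : ZMod L', p (f i.val) = i) (hq : ∀ i : ZMod L', q (g i.val) = i) :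
    Function.Injective (liftA (D := D) g p q z) := by
  intro a b h
  funext u
  rw [← liftA_place (z := z) hp hq a u, h, liftA_place hp hq]

theorem liftB_inj (hp : ∀ i : ZMod L', p (f i.val) = i) (hq : ∀ i : ZMod L', q (g i.val) = i) :
    Function.Injective (liftB (D := D) f p q z) := by
  intro a b h
  funext u
  rw [← liftB_place (z := z) hp hq a u, h, liftB_place hp hq]

theorem ins_rangeA (hp : ∀ i : ZMod L', p (f i.val) = i) (hq : ∀ i : ZMod L', q (g i.val) = i)
    (hp2 : ∀ x : ZMod L, (∀ i : ZMod L', (f i.val : ZMod L) ≠ x) → p x = p (x - 1))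
    (s : Conf d L) (a b : Site L → Fin D)
    (h : ∏ w, insT f g p q z φ A w (s w) (a w) (b w) (a (w.1 - 1, w.2)) (b (w.1, w.2 - 1)) ≠ 0) :
    a = liftA g p q z (fun u => a (place L f g u)) := by
  have hne := fun w => (Finset.prod_ne_zero_iff.1 h) w (mem_univ w)
  funext w
  rw [liftA]
  by_cases hy : Placed L' g w.2
  · rw [if_pos hy]
    obtain ⟨x, y⟩ := w
    obtain ⟨j, rfl⟩ := hy
    change a (x, (g j.val : ZMod L)) = a ((f (p x).val : ZMod L), (g (q (g j.val)).val : ZMod L))
    rw [hq]
    refine ins_induct (L' := L') (f := f) (fun x => a (x, (g j.val : ZMod L)) =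
      a ((f (p x).val : ZMod L), (g j.val : ZMod L))) ?_ ?_ x
    · intro i
      rw [hp]
    · intro x hx ih
      have h1 := hne (x, (g j.val : ZMod L))
      have hx' : ¬ Placed L' f x := fun ⟨i, hi⟩ => hx i hi
      have hy' : Placed L' g (g j.val : ZMod L) := ⟨j, rfl⟩
      rw [insT] at h1
      simp only [hx', hy', if_true, if_false] at h1
      have h2 : a (x, (g j.val : ZMod L)) = a (x - 1, (g j.val : ZMod L)) := by
        by_contra h3
        rw [if_neg h3, zero_mul, mul_zero] at h1
        exact h1 rfl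
      rw [h2, ih, hp2 x hx]
  · rw [if_neg hy]
    by_contra h3
    have h1 := hne w
    rw [insT] at h1
    by_cases hx : Placed L' f w.1
    · simp only [hx, hy, if_true, if_false, h3, mul_zero] at h1
      exact h1 rfl
    · simp only [hx, hy, if_false, h3, zero_mul, mul_zero] at h1
      exact h1 rfl

theorem ins_rangeB (hp : ∀ i : ZMod L', p (f i.val) = i) (hq : ∀ i : ZMod L', q (g i.val) = i)
    (hq2 : ∀ x : ZMod L, (∀ i : ZMod L', (g i.val : ZMod L) ≠ x) → q x = q (x - 1))
    (s : Conf d L) (a b : Site L → Fin D)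
    (h : ∏ w, insT f g p q z φ A w (s w) (a w) (b w) (a (w.1 - 1, w.2)) (b (w.1, w.2 - 1)) ≠ 0) :
    b = liftB f p q z (fun u => b (place L f g u)) := by
  have hne := fun w => (Finset.prod_ne_zero_iff.1 h) w (mem_univ w)
  funext w
  rw [liftB]
  by_cases hx : Placed L' f w.1
  · rw [if_pos hx]
    obtain ⟨x, y⟩ := w
    obtain ⟨i, rfl⟩ := hx
    change b ((f i.val : ZMod L), y) = b ((f (p (f i.val)).val : ZMod L), (g (q y).val : ZMod L))
    rw [hp]
    refine ins_induct (L' := L') (f := g) (fun y => b ((f i.val : ZMod L), y) =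
      b ((f i.val : ZMod L), (g (q y).val : ZMod L))) ?_ ?_ y
    · intro j
      rw [hq]
    · intro y hy ih
      have h1 := hne ((f i.val : ZMod L), y)
      have hy' : ¬ Placed L' g y := fun ⟨i, hi⟩ => hy i hi
      have hx' : Placed L' f (f i.val : ZMod L) := ⟨i, rfl⟩
      rw [insT] at h1
      simp only [hx', hy', if_true, if_false] at h1
      have h2 : b ((f i.val : ZMod L), y) = b ((f i.val : ZMod L), y - 1) := by
        by_contra h3
        rw [if_neg h3, zero_mul, mul_zero] at h1
        exact h1 rfl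
      rw [h2, ih, hq2 y hy]
  · rw [if_neg hx]
    by_contra h3
    have h1 := hne w
    rw [insT] at h1
    by_cases hy : Placed L' g w.2
    · simp only [hx, hy, if_true, if_false, h3, mul_zero] at h1
      exact h1 rfl
    · simp only [hx, hy, if_false, h3, mul_zero] at h1
      exact h1 rfl

/-- values of the new tensor on extended indices, at a placed site -/
theorem insT_place (hp : ∀ i : ZMod L', p (f i.val) = i) (hq : ∀ i : ZMod L', q (g i.val) = i)
    (hp3 : ∀ i : ZMod L', p ((f i.val : ZMod L) - 1) = i - 1)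
    (hq3 : ∀ i : ZMod L', q ((g i.val : ZMod L) - 1) = i - 1) (σ : Fin d)
    (a' b' : Site L' → Fin D) (u : Site L') :
    insT f g p q z φ A (place L f g u) σ (liftA g p q z a' (place L f g u))
      (liftB f p q z b' (place L f g u))
      (liftA g p q z a' ((place L f g u).1 - 1, (place L f g u).2))
      (liftB f p q z b' ((place L f g u).1, (place L f g u).2 - 1)) =
      A u σ (a' u) (b' u) (a' (u.1 - 1, u.2)) (b' (u.1, u.2 - 1)) := by
  have h1 : Placed L' f (place L f g u).1 := ⟨u.1, rfl⟩
  have h2 : Placed L' g (place L f g u).2 := ⟨u.2, rfl⟩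
  have e1 : p (place L f g u).1 = u.1 := hp u.1
  have e2 : q (place L f g u).2 = u.2 := hq u.2
  have e3 : p ((place L f g u).1 - 1) = u.1 - 1 := hp3 u.1
  have e4 : q ((place L f g u).2 - 1) = u.2 - 1 := hq3 u.2
  rw [insT, if_pos h1, if_pos h2, liftA_place hp hq, liftB_place hp hq, e1, e2]
  have e5 : liftA g p q z a' ((place L f g u).1 - 1, (place L f g u).2) = a' (u.1 - 1, u.2) := by
    rw [liftA, if_pos h2]
    change a' (p ((place L f g u).1 - 1), q (place L f g u).2) = _
    rw [e3, e2]
  have e6 : liftB f p q z b' ((place L f g u).1, (place L f g u).2 - 1) = b' (u.1, u.2 - 1) := by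
    rw [liftB, if_pos h1]
    change b' (p (place L f g u).1, q ((place L f g u).2 - 1)) = _
    rw [e1, e4]
  rw [e5, e6]

/-- values of the new tensor on extended indices, at another site -/
theorem insT_other
    (hp2 : ∀ x : ZMod L, (∀ i : ZMod L', (f i.val : ZMod L) ≠ x) → p x = p (x - 1))
    (hq2 : ∀ x : ZMod L, (∀ i : ZMod L', (g i.val : ZMod L) ≠ x) → q x = q (x - 1)) (σ : Fin d)
    (a' b' : Site L' → Fin D) (w : Site L) (hw : ∀ u : Site L', place L f g u ≠ w) :
    insT f g p q z φ A w σ (liftA g p q z a' w) (liftB f p q z b' w)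
      (liftA g p q z a' (w.1 - 1, w.2)) (liftB f p q z b' (w.1, w.2 - 1)) = φ w σ := by
  by_cases hx : Placed L' f w.1
  · by_cases hy : Placed L' g w.2
    · obtain ⟨i, hi⟩ := hx
      obtain ⟨j, hj⟩ := hy
      exact absurd (Prod.ext hi hj) (hw (i, j))
    · have e := hq2 w.2 (fun j hj => hy ⟨j, hj⟩)
      simp only [insT, liftA, liftB, hx, hy, if_true, if_false, e, mul_one]
  · by_cases hy : Placed L' g w.2
    · have e := hp2 w.1 (fun i hi => hx ⟨i, hi⟩)
      simp only [insT, liftA, liftB, hx, hy, if_true, if_false, e, mul_one]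
    · simp only [insT, liftA, liftB, hx, hy, if_true, if_false, mul_one]

open scoped Classical in
theorem ins_prod (hp : ∀ i : ZMod L', p (f i.val) = i) (hq : ∀ i : ZMod L', q (g i.val) = i)
    (hp2 : ∀ x : ZMod L, (∀ i : ZMod L', (f i.val : ZMod L) ≠ x) → p x = p (x - 1))
    (hq2 : ∀ x : ZMod L, (∀ i : ZMod L', (g i.val : ZMod L) ≠ x) → q x = q (x - 1))
    (hp3 : ∀ i : ZMod L', p ((f i.val : ZMod L) - 1) = i - 1)
    (hq3 : ∀ i : ZMod L', q ((g i.val : ZMod L) - 1) = i - 1) (s : Conf d L)
    (a' b' : Site L' → Fin D) :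
    ∏ w, insT f g p q z φ A w (s w) (liftA g p q z a' w) (liftB f p q z b' w)
      (liftA g p q z a' (w.1 - 1, w.2)) (liftB f p q z b' (w.1, w.2 - 1)) =
      (∏ u : Site L', A u (s (place L f g u)) (a' u) (b' u) (a' (u.1 - 1, u.2))
        (b' (u.1, u.2 - 1))) *
      ∏ w ∈ univ.filter (fun w => ∀ u : Site L', place L f g u ≠ w), φ w (s w) := by
  rw [← Finset.prod_filter_mul_prod_filter_not univ
    (fun w : Site L => ∀ u : Site L', place L f g u ≠ w), mul_comm]
  congr 1
  · have e : univ.filter (fun w : Site L => ¬ ∀ u : Site L', place L f g u ≠ w) =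
        univ.image (place (L' := L') L f g) := by
      ext w
      simp only [mem_filter, mem_univ, true_and, mem_image, not_forall, not_not]
    rw [e, Finset.prod_image (fun x _ y _ h => ins_place_inj hp hq h)]
    exact Finset.prod_congr rfl fun u _ => insT_place hp hq hp3 hq3 _ a' b' u
  · apply Finset.prod_congr rfl
    intro w hw
    exact insT_other hp2 hq2 _ a' b' w (mem_filter.1 hw).2

end Ins

/-- GP22b: the insertion of rows and columns does not change the bond dimension. -/
theorem insert_peps {d L' L D : ℕ} [NeZero L'] [NeZero L] (hD : 0 < D) {f g : ℕ → ℕ}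
    (hf : StrictMono f) (hg : StrictMono g) (hL : ∀ i < L', f i < L ∧ g i < L)
    (φ : Site L → Fin d → ℂ) {x : Vec d L'} (hx : IsPEPS D x) :
    IsPEPS D (insertAt L f g φ x) := by
  classical
  obtain ⟨A, hA⟩ := hx
  obtain ⟨p, hp, hp2, hp3⟩ := pred_exists (L' := L') (L := L) hf (fun i hi => (hL i hi).1)
  obtain ⟨q, hq, hq2, hq3⟩ := pred_exists (L' := L') (L := L) hg (fun i hi => (hL i hi).2)
  set z : Fin D := ⟨0, hD⟩ with hz
  refine ⟨insT f g p q z φ A, fun s => ?_⟩
  have h1 : insertAt L f g φ x s = (∑ a' : Site L' → Fin D, ∑ b' : Site L' → Fin D,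
      ∏ w, insT f g p q z φ A w (s w) (liftA g p q z a' w) (liftB f p q z b' w)
        (liftA g p q z a' (w.1 - 1, w.2)) (liftB f p q z b' (w.1, w.2 - 1))) := by
    rw [insertAt, hA, Finset.sum_mul]
    apply Finset.sum_congr rfl
    intro a' _
    rw [Finset.sum_mul]
    apply Finset.sum_congr rfl
    intro b' _
    rw [ins_prod hp hq hp2 hq2 hp3 hq3 s a' b']
    congr!
  rw [h1]
  apply Fintype.sum_of_injective (liftA g p q z) (liftA_inj (f := f) hp hq)
  · intro a ha
    apply Finset.sum_eq_zero
    intro b _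
    by_contra hne
    exact ha ⟨_, (ins_rangeA hp hq hp2 s a b hne).symm⟩
  · intro a'
    apply Fintype.sum_of_injective (liftB f p q z) (liftB_inj (g := g) hp hq)
    · intro b hb
      by_contra hne
      exact hb ⟨_, (ins_rangeB hp hq hq2 s _ b hne).symm⟩
    · intro b'
      rfl

end Pool.Agent.FFG.GPlain
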