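import Pool.Agent.PEPS953.Transfer

/-!
# The bond dimension of a PEPS may be increased
-/

open Finset

set_option autoImplicit false

namespace Pool.Agent.FFG.GPlain

open Pool.Agent.PEPS953.Plain

theorem isPEPS_mono {d L D D' : ℕ} [NeZero L] (h : D ≤ D') {x : Vec d L} (hx : IsPEPS D x) :
    IsPEPS D' x := by
  classical
  obtain ⟨A, hA⟩ := hx
  have hinj : Function.Injective (fun (a : Site L → Fin D) (u : Site L) => Fin.castLE h (a u)) := by
    intro a b hab
    funext u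
    exact Fin.castLE_injective h (congrFun hab u)
  refine ⟨fun u σ i j k l => if H : (i : ℕ) < D ∧ (j : ℕ) < D ∧ (k : ℕ) < D ∧ (l : ℕ) < D then
    A u σ ⟨i, H.1⟩ ⟨j, H.2.1⟩ ⟨k, H.2.2.1⟩ ⟨l, H.2.2.2⟩ else 0, fun s => ?_⟩
  rw [hA]
  refine Fintype.sum_of_injective _ hinj _ _ (fun a ha => ?_) (fun a => ?_)
  · refine Finset.sum_eq_zero fun b _ => ?_
    obtain ⟨u, hu⟩ : ∃ u, ¬ ((a u : ℕ) < D) := by
      by_contra hc
      push Not at hc
      exact ha ⟨fun u => ⟨a u, hc u⟩, by funext u; rfl⟩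
    exact Finset.prod_eq_zero (Finset.mem_univ u) (dif_neg fun H => hu H.1)
  · refine Fintype.sum_of_injective _ hinj _ _ (fun b hb => ?_) (fun b => ?_)
    · obtain ⟨u, hu⟩ : ∃ u, ¬ ((b u : ℕ) < D) := by
        by_contra hc
        push Not at hc
        exact hb ⟨fun u => ⟨b u, hc u⟩, by funext u; rfl⟩
      exact Finset.prod_eq_zero (Finset.mem_univ u) (dif_neg fun H => hu H.2.1)
    · refine Finset.prod_congr rfl fun u _ => ?_
      have H : ((Fin.castLE h (a u) : Fin D') : ℕ) < D ∧ ((Fin.castLE h (b u) : Fin D') : ℕ) < D ∧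
          ((Fin.castLE h (a (u.1 - 1, u.2)) : Fin D') : ℕ) < D ∧
          ((Fin.castLE h (b (u.1, u.2 - 1)) : Fin D') : ℕ) < D :=
        ⟨(a u).2, (b u).2, (a _).2, (b _).2⟩
      simp only
      rw [dif_pos H]
      rfl

end Pool.Agent.FFG.GPlain
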