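import Pool.Agent.FFG.GP.Plain
import Pool.Agent.FFG.GP.Mono
import Pool.Agent.FFG.GP.Path3
import Pool.Agent.FFG.GP.Exact
import Pool.Agent.FFG.GP.InsertPeps
import Pool.Agent.FFG.GP.InsertNorm

/-!
# The multi-scale induction
-/

open Finset
open scoped InnerProductSpace

set_option autoImplicit false

namespace Pool.Agent.FFG.GPlain

open Pool.Agent.PEPS953.Plain
open Pool.Agent.PEPS953 (up up_ofLp up_sub nrm_eq ip_eq up_smul up_ne_zero Hil locOp)

lemma insertAt_sub {d L' L : ℕ} [NeZero L] (f g : ℕ → ℕ) (φ : Site L → Fin d → ℂ)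
    (x y : Vec d L') : insertAt L f g φ x - insertAt L f g φ y = insertAt L f g φ (x - y) := by
  funext s
  simp only [insertAt, Pi.sub_apply, sub_mul]

lemma unit_left {d r L : ℕ} [NeZero L] {J Δ : ℝ} {x y : Vec d L} (H : GappedPath L r J Δ x y) :
    nrm x = 1 := by
  obtain ⟨h, h', E, Ψ, -, -, -, -, h5, h6, -⟩ := H
  rw [← h6]
  exact (h5 0 ⟨le_rfl, zero_le_one⟩).1

lemma unit_right {d r L : ℕ} [NeZero L] {J Δ : ℝ} {x y : Vec d L} (H : GappedPath L r J Δ x y) :
    nrm y = 1 := by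
  obtain ⟨h, h', E, Ψ, -, -, -, -, h5, -, h7⟩ := H
  rw [← h7]
  exact (h5 1 ⟨zero_le_one, le_rfl⟩).1

lemma gpath2_of {d r L : ℕ} [NeZero L] {J Δ : ℝ} {x y : Vec d L} (H : GappedPath L r J Δ x y) :
    GP.GPath2 L d r J Δ (up x) (up y) := by
  obtain ⟨h, h', E, Ψ, h1, h2, h3, h4, h5, h6, h7⟩ := H
  refine ⟨h, h', E, fun s => up (Ψ s), h1, ?_, ?_, ?_, ?_, ?_, ?_⟩
  · intro v s hs
    refine hasDerivWithinAt_pi.mpr fun a => ?_
    exact hasDerivWithinAt_pi.mpr fun b => h2 v s hs a b
  · intro v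
    exact continuousOn_pi.mpr fun a => continuousOn_pi.mpr fun b => h3 v a b
  · intro v s hs
    have hJ : 0 ≤ J := nonneg_of_opLe (h4 v s hs).1 (h5 s hs).1
    exact ⟨norm_le_of_opLe hJ (h4 v s hs).1, norm_le_of_opLe hJ (h4 v s hs).2⟩
  · exact fun s hs => isGapped_of (h5 s hs)
  · simp only [h6]
  · simp only [h7]

/-- The multi-scale induction. -/
theorem multi {e : ℕ} (he : 2 ≤ e) (a : ℕ) (C₀ : ℝ) (L₁ : ℕ) (Ξ : ∀ (L : ℕ) [NeZero L], Vec e L)
    (H : ∀ (L : ℕ) [NeZero L], L₁ ≤ L → ∃ x : Vec e L, Joined a C₀ L x (Ξ L) ∧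
      Simple a C₀ L Ξ x) : PolyAcc Ξ := by
  intro c hc
  obtain ⟨k, C, n₀, hC, hstep⟩ := GP.gapped_path3 he a |C₀| (c := c + 1) (by linarith)
  obtain ⟨M, hM⟩ : ∃ M : ℝ, M = Real.log e * (2 * (L₁ : ℝ) ^ 2) := ⟨_, rfl⟩
  have he0 : (0 : ℝ) < e := by
    have : 0 < e := by omega
    exact_mod_cast this
  have hloge : 0 ≤ Real.log e := Real.log_nonneg (by exact_mod_cast (by omega : 1 ≤ e))
  have hM0 : 0 ≤ M := by rw [hM]; positivity
  -- the multi-scale claim
  have key : ∀ n : ℕ, max n₀ 3 ≤ n → ∀ m : ℕ, m ≤ n → ∀ (L : ℕ) [NeZero L], L ≤ n → L < 2 ^ m →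
      ∃ (D : ℕ) (Φ : Vec e L), 0 < D ∧ IsPEPS D Φ ∧
        (D : ℝ) ≤ Real.exp (M + |C₀| * (Real.log n) ^ a + m * (C * (Real.log n) ^ k)) ∧
        nrm (Φ - Ξ L) ≤ m * (n : ℝ) ^ (-(c + 1)) := by
    intro n hn
    rw [max_le_iff] at hn
    have hn3 : (3 : ℝ) ≤ n := by exact_mod_cast hn.2
    have hℓ : 1 ≤ Real.log n := by
      rw [Real.le_log_iff_exp_le (by linarith)]
      have := Real.exp_one_lt_d9
      linarith
    have hℓ0 : 0 ≤ Real.log n := by linarith
    have hnc : 0 < (n : ℝ) ^ (-(c + 1)) := Real.rpow_pos_of_pos (by linarith) _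
    have hnc1 : (n : ℝ) * (n : ℝ) ^ (-(c + 1)) ≤ 1 := by
      have h1 : (n : ℝ) * (n : ℝ) ^ (-(c + 1)) = (n : ℝ) ^ (-c) := by
        nth_rewrite 1 [← Real.rpow_one (n : ℝ)]
        rw [← Real.rpow_add (by linarith)]
        congr 1
        ring
      rw [h1]
      exact Real.rpow_le_one_of_one_le_of_nonpos (by linarith) (by linarith)
    -- small tori
    have hsmall : ∀ (L : ℕ) [NeZero L] (x : Vec e L), L < L₁ →
        ∃ D : ℕ, 0 < D ∧ IsPEPS D x ∧ (D : ℝ) ≤ Real.exp M := by
      intro L _ x hL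
      refine ⟨e ^ (2 * L ^ 2), Nat.pow_pos (by omega), GP.isPEPS_exact (by omega) (up x), ?_⟩
      have h1 : ((e ^ (2 * L ^ 2) : ℕ) : ℝ) = Real.exp (Real.log e * (2 * (L : ℝ) ^ 2)) := by
        push_cast
        rw [Real.exp_mul, Real.exp_log he0]
        rw [← Real.rpow_natCast]
        push_cast
        rfl
      rw [h1, hM]
      have h2 : (L : ℝ) ≤ L₁ := by exact_mod_cast hL.le
      gcongr
    intro m
    induction m with
    | zero =>
      intro _ L _ _ hL
      rw [pow_zero] at hL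
      have := NeZero.pos L
      omega
    | succ m ih =>
      intro hmn L _ hLn hLm
      have hmn' : m ≤ n := by omega
      have hmR : (m : ℝ) ≤ n := by exact_mod_cast hmn'
      rcases lt_or_ge L L₁ with hLs | hLs
      · obtain ⟨D, hD0, hD1, hD2⟩ := hsmall L (Ξ L) hLs
        refine ⟨D, Ξ L, hD0, hD1, hD2.trans (Real.exp_le_exp.mpr ?_), ?_⟩
        · have : 0 ≤ |C₀| * (Real.log n) ^ a := by positivity
          have : 0 ≤ ((m + 1 : ℕ) : ℝ) * (C * (Real.log n) ^ k) := by positivity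
          linarith
        · rw [nrm_eq, up_sub, sub_self, norm_zero]
          positivity
      · obtain ⟨x, ⟨r, J, Δ, hr, hrC, hJC, hΔ, hΔC, hpath⟩, hx⟩ := H L hLs
        have hlogL : 0 ≤ Real.log L := Real.log_natCast_nonneg L
        have hL0 : (0 : ℝ) < L := by exact_mod_cast NeZero.pos L
        have hlogLn : Real.log L ≤ Real.log n := Real.log_le_log hL0 (by exact_mod_cast hLn)
        have hbd : C₀ * (Real.log L) ^ a ≤ |C₀| * (Real.log n) ^ a := by
          calc C₀ * (Real.log L) ^ a ≤ |C₀| * (Real.log L) ^ a := by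
                gcongr
                exact le_abs_self _
            _ ≤ _ := by gcongr
        have hx1 : nrm x = 1 := unit_left hpath
        -- a PEPS close to `x`
        obtain ⟨D, Φ, hD0, hD1, hD2, hD3⟩ : ∃ (D : ℕ) (Φ : Vec e L), 0 < D ∧ IsPEPS D Φ ∧
            (D : ℝ) ≤ Real.exp (M + |C₀| * (Real.log n) ^ a + m * (C * (Real.log n) ^ k)) ∧
            nrm (Φ - x) ≤ m * (n : ℝ) ^ (-(c + 1)) := by
          have p1 : 0 ≤ |C₀| * (Real.log n) ^ a := by positivity
          have p2 : 0 ≤ (m : ℝ) * (C * (Real.log n) ^ k) := by positivity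
          have p3 : nrm (x - x) ≤ m * (n : ℝ) ^ (-(c + 1)) := by
            rw [nrm_eq, up_sub, sub_self, norm_zero]
            positivity
          rcases hx with ⟨D, hD1, hD2⟩ | ⟨L', hL', hLL, f, g, φ, hf, hg, hfg, hins⟩
          · refine ⟨max D 1, x, by omega, isPEPS_mono (le_max_left _ _) hD1, ?_, p3⟩
            rw [Nat.cast_max, max_le_iff]
            constructor
            · refine hD2.trans (Real.exp_le_exp.mpr ?_)
              linarith
            · rw [Nat.cast_one]
              exact Real.one_le_exp (by linarith)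
          · rcases lt_or_ge L' L₁ with hs | hs
            · obtain ⟨D, hD0, hD1, hD2⟩ := hsmall L' (Ξ L') hs
              refine ⟨D, x, hD0, ?_, hD2.trans (Real.exp_le_exp.mpr (by linarith)), p3⟩
              rw [hins]
              exact insert_peps hD0 hf hg hfg φ hD1
            · have hL'm : L' < 2 ^ m := by
                rw [pow_succ] at hLm
                omega
              obtain ⟨D, Φ, hD0, hD1, hD2, hD3⟩ := ih hmn' L' (by omega) hL'm
              refine ⟨D, insertAt L f g φ Φ, hD0, insert_peps hD0 hf hg hfg φ hD1, hD2, ?_⟩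
              obtain ⟨P, hP⟩ := insert_norm hf hg hfg φ
              have hu : nrm (Ξ L') = 1 := by
                obtain ⟨x', ⟨_, _, _, -, -, -, -, -, hp⟩, -⟩ := H L' hs
                exact unit_right hp
              have hP1 : P = 1 := by
                have h1 := hP (Ξ L')
                rw [← hins, hx1, hu, mul_one] at h1
                exact h1.symm
              rw [hins, insertAt_sub, hP, hP1, one_mul]
              exact hD3
        have hD4 : ‖up Φ - up x‖ ≤ 1 := by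
          rw [← up_sub, ← nrm_eq]
          refine hD3.trans (le_trans ?_ hnc1)
          gcongr
        obtain ⟨D', Φ', h1, h2, h3, h4⟩ := hstep n hn.1 L hLn r J Δ hr (hrC.trans hbd)
          (hJC.trans hbd) hΔ (hΔC.trans hbd) (up x) (up (Ξ L)) (gpath2_of hpath) D (up Φ) hD0
          hD1 hD4
        refine ⟨D', Φ'.ofLp, h1, h2, h3.trans ?_, ?_⟩
        · calc (D : ℝ) * Real.exp (C * (Real.log n) ^ k) ≤
                Real.exp (M + |C₀| * (Real.log n) ^ a + m * (C * (Real.log n) ^ k)) *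
                  Real.exp (C * (Real.log n) ^ k) := by gcongr
            _ = _ := by
                rw [← Real.exp_add]
                congr 1
                push_cast
                ring
        · rw [nrm_eq, up_sub, up_ofLp]
          rw [nrm_eq, up_sub] at hD3
          refine h4.trans ((add_le_add_left hD3 _).trans (le_of_eq ?_))
          push_cast
          ring
  -- the conclusion
  refine ⟨a + k + 1, M + |C₀| + 3 * C, max n₀ 3, fun L _ hL => ?_⟩
  have hL3 : 3 ≤ L := (le_max_right _ _).trans hL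
  have hL3' : (3 : ℝ) ≤ L := by exact_mod_cast hL3
  have hℓ : 1 ≤ Real.log L := by
    rw [Real.le_log_iff_exp_le (by linarith)]
    have := Real.exp_one_lt_d9
    linarith
  have hm1 : Nat.log 2 L + 1 ≤ L := by
    have h1 : Nat.log 2 L < L := Nat.log_lt_self 2 (by omega)
    omega
  have hm2 : L < 2 ^ (Nat.log 2 L + 1) := Nat.lt_pow_succ_log_self (by norm_num) L
  have hm3 : ((Nat.log 2 L + 1 : ℕ) : ℝ) ≤ 3 * Real.log L := by
    have h1 : (2 : ℝ) ^ (Nat.log 2 L) ≤ L := by
      exact_mod_cast Nat.pow_log_le_self 2 (by omega : L ≠ 0)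
    have h2 : (Nat.log 2 L : ℝ) * Real.log 2 ≤ Real.log L := by
      rw [← Real.log_pow]
      exact Real.log_le_log (by positivity) h1
    have h3 : (0.5 : ℝ) ≤ Real.log 2 := by
      have := Real.log_two_gt_d9
      linarith
    have h4 : (0 : ℝ) ≤ (Nat.log 2 L : ℝ) := Nat.cast_nonneg _
    push_cast
    nlinarith
  obtain ⟨D, Φ, -, hD1, hD2, hD3⟩ := key L hL _ hm1 L le_rfl hm2
  refine ⟨D, Φ, hD1, hD2.trans (Real.exp_le_exp.mpr ?_), hD3.trans ?_⟩
  · have q1 : (Real.log L) ^ a ≤ (Real.log L) ^ (a + k + 1) :=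
      pow_le_pow_right₀ hℓ (by omega)
    have q2 : Real.log L * (Real.log L) ^ k ≤ (Real.log L) ^ (a + k + 1) := by
      rw [← pow_succ']
      exact pow_le_pow_right₀ hℓ (by omega)
    have q3 : 1 ≤ (Real.log L) ^ (a + k + 1) := one_le_pow₀ hℓ
    have q4 : ((Nat.log 2 L + 1 : ℕ) : ℝ) * (C * (Real.log L) ^ k) ≤
        3 * C * (Real.log L) ^ (a + k + 1) := by
      calc ((Nat.log 2 L + 1 : ℕ) : ℝ) * (C * (Real.log L) ^ k) ≤
            (3 * Real.log L) * (C * (Real.log L) ^ k) := by gcongr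
        _ = 3 * C * (Real.log L * (Real.log L) ^ k) := by ring
        _ ≤ _ := by gcongr
    have q5 : |C₀| * (Real.log L) ^ a ≤ |C₀| * (Real.log L) ^ (a + k + 1) := by gcongr
    have q6 : M ≤ M * (Real.log L) ^ (a + k + 1) := le_mul_of_one_le_right hM0 q3
    calc _ ≤ M * (Real.log L) ^ (a + k + 1) + |C₀| * (Real.log L) ^ (a + k + 1) +
          3 * C * (Real.log L) ^ (a + k + 1) := by linarith
      _ = _ := by ring
  · have hL0 : (0 : ℝ) < L := by linarith
    calc ((Nat.log 2 L + 1 : ℕ) : ℝ) * (L : ℝ) ^ (-(c + 1)) ≤ L * (L : ℝ) ^ (-(c + 1)) := by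
          gcongr
      _ = (L : ℝ) ^ (-c) := by
          nth_rewrite 1 [← Real.rpow_one (L : ℝ)]
          rw [← Real.rpow_add hL0]
          congr 1
          ring

end Pool.Agent.FFG.GPlain
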