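import Pool.Agent.FFG.GP.Unitary

/-!
# Comparison of a family of projections with the evolution
-/

open Finset
open scoped InnerProductSpace

set_option autoImplicit false
set_option linter.unusedSectionVars false
set_option linter.unusedVariables false

namespace Pool.Agent.FFG.GP

section Abstract

variable {E : Type} [NormedAddCommGroup E] [InnerProductSpace ℂ E] [CompleteSpace E]

lemma gp10_norm_le_one {V : E →L[ℂ] E} (h : star V * V = 1) : ‖V‖ ≤ 1 := by
  refine ContinuousLinearMap.opNorm_le_bound _ zero_le_one fun x => ?_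
  have h1 : ⟪V x, V x⟫_ℂ = ⟪x, x⟫_ℂ := by
    rw [← ContinuousLinearMap.adjoint_inner_left, ← ContinuousLinearMap.star_eq_adjoint]
    have h2 : star V (V x) = x := congrArg (fun T : E →L[ℂ] E => T x) h
    rw [h2]
  have h3 : ‖V x‖ ^ 2 = ‖x‖ ^ 2 := by
    have h4 := congrArg Complex.re h1
    rw [← RCLike.re_eq_complex_re] at h4
    rw [← @norm_sq_eq_re_inner ℂ, ← @norm_sq_eq_re_inner ℂ] at h4
    exact h4
  have h5 : ‖V x‖ = ‖x‖ := by
    have := (sq_eq_sq₀ (norm_nonneg (V x)) (norm_nonneg x)).mp h3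
    exact this
  rw [h5, one_mul]

/-- GP10 (comparison with the evolution). -/
theorem compare {P P' G U : ℝ → E →L[ℂ] E}
    (hP : ∀ s ∈ Set.Icc (0 : ℝ) 1, HasDerivWithinAt P (P' s) (Set.Icc 0 1) s) (hG : Continuous G)
    (hsa : ∀ t, IsSelfAdjoint (G t)) (hU : Propag G U) {ε : ℝ}
    (h : ∀ s ∈ Set.Icc (0 : ℝ) 1, ‖P' s - Complex.I • (G s * P s - P s * G s)‖ ≤ ε) :
    ‖P 1 - U 1 * P 0 * star (U 1)‖ ≤ ε := by
  have hun := Propag.unitary hG hsa hU
  have hstar : ∀ t, HasDerivAt (fun t => star (U t)) (-(Complex.I • (star (U t) * G t))) t := by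
    intro t
    have h1 := (hU.deriv t).star
    have h2 : star (Complex.I • (G t * U t)) = -(Complex.I • (star (U t) * G t)) := by
      rw [star_smul, star_mul, (hsa t).star_eq]
      have : star Complex.I = -Complex.I := Complex.conj_I
      rw [this, neg_smul]
    rw [h2] at h1
    exact h1
  have hQ : ∀ s ∈ Set.Icc (0 : ℝ) 1, HasDerivWithinAt (fun s => star (U s) * P s * U s)
      (star (U s) * (P' s - Complex.I • (G s * P s - P s * G s)) * U s) (Set.Icc 0 1) s := by
    intro s hs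
    have h1 := ((hstar s).hasDerivWithinAt (s := Set.Icc 0 1)).mul (hP s hs)
    have h2 := h1.mul ((hU.deriv s).hasDerivWithinAt (s := Set.Icc 0 1))
    refine h2.congr_deriv ?_
    simp only [neg_mul, smul_mul_assoc, mul_smul_comm, add_mul, mul_sub, sub_mul, smul_sub,
      mul_assoc]
    abel
  have hb : ∀ s ∈ Set.Icc (0 : ℝ) 1,
      ‖star (U s) * (P' s - Complex.I • (G s * P s - P s * G s)) * U s‖ ≤ ε := by
    intro s hs
    have h1 : ‖U s‖ ≤ 1 := gp10_norm_le_one (hun s).1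
    have h2 : ‖star (U s)‖ ≤ 1 := by rw [norm_star]; exact h1
    have h3 := h s hs
    have h0 := (norm_nonneg _).trans h3
    calc ‖star (U s) * (P' s - Complex.I • (G s * P s - P s * G s)) * U s‖
        ≤ ‖star (U s)‖ * ‖P' s - Complex.I • (G s * P s - P s * G s)‖ * ‖U s‖ :=
          (norm_mul_le _ _).trans (mul_le_mul_of_nonneg_right (norm_mul_le _ _) (norm_nonneg _))
      _ ≤ 1 * ε * 1 := by gcongr
      _ = ε := by ring
  have hm := Convex.norm_image_sub_le_of_norm_hasDerivWithin_le hQ hb (convex_Icc (0 : ℝ) 1)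
    (Set.left_mem_Icc.mpr zero_le_one) (Set.right_mem_Icc.mpr zero_le_one)
  have hm' : ‖star (U 1) * P 1 * U 1 - P 0‖ ≤ ε := by
    have h1 : ‖(1 : ℝ) - 0‖ = 1 := by simp
    have h2 : star (U 0) * P 0 * U 0 = P 0 := by rw [hU.zero, star_one, one_mul, mul_one]
    rw [h1, mul_one] at hm
    simp only [h2] at hm
    exact hm
  have e : P 1 - U 1 * P 0 * star (U 1) =
      U 1 * (star (U 1) * P 1 * U 1 - P 0) * star (U 1) := by
    rw [mul_sub, sub_mul]
    congr 1
    have h1 := (hun 1).2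
    calc P 1 = (U 1 * star (U 1)) * P 1 * (U 1 * star (U 1)) := by rw [h1, one_mul, mul_one]
      _ = U 1 * (star (U 1) * P 1 * U 1) * star (U 1) := by simp only [mul_assoc]
  rw [e]
  have h1 : ‖U 1‖ ≤ 1 := gp10_norm_le_one (hun 1).1
  have h2 : ‖star (U 1)‖ ≤ 1 := by rw [norm_star]; exact h1
  have h0 := (norm_nonneg _).trans hm'
  calc ‖U 1 * (star (U 1) * P 1 * U 1 - P 0) * star (U 1)‖
      ≤ ‖U 1‖ * ‖star (U 1) * P 1 * U 1 - P 0‖ * ‖star (U 1)‖ :=
        (norm_mul_le _ _).trans (mul_le_mul_of_nonneg_right (norm_mul_le _ _) (norm_nonneg _))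
    _ ≤ 1 * ε * 1 := by gcongr
    _ = ε := by ring

/-- GP11 (from projections to vectors). -/
theorem exists_phase {x y : E} (hx : ‖x‖ = 1) (hy : ‖y‖ = 1) {ε : ℝ}
    (h : ‖kb x x - kb y y‖ ≤ ε) : ∃ θ : ℂ, ‖θ‖ = 1 ∧ ‖x - θ • y‖ ≤ 2 * ε := by
  set c : ℂ := ⟪x, y⟫_ℂ with hc
  have hkb : ∀ a b z : E, kb a b z = ⟪b, z⟫_ℂ • a := by
    intro a b z
    simp [kb]
  have h1 : ‖c • x - y‖ ≤ ε := by
    have h2 : (kb x x - kb y y) y = c • x - y := by
      have h3 : ⟪y, y⟫_ℂ = 1 := by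
        rw [inner_self_eq_norm_sq_to_K, hy]
        simp
      rw [sub_apply, hkb, hkb, h3, one_smul]
    rw [← h2]
    refine (ContinuousLinearMap.le_opNorm _ _).trans ?_
    rw [hy, mul_one]
    exact h
  by_cases hc0 : c = 0
  · rw [hc0, zero_smul, zero_sub, norm_neg, hy] at h1
    refine ⟨1, norm_one, ?_⟩
    rw [one_smul]
    calc ‖x - y‖ ≤ ‖x‖ + ‖y‖ := norm_sub_le _ _
      _ = 2 := by rw [hx, hy]; norm_num
      _ ≤ 2 * ε := by linarith
  · have hcn : (‖c‖ : ℝ) ≠ 0 := norm_ne_zero_iff.mpr hc0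
    have hcn' : (‖c‖ : ℂ) ≠ 0 := by exact_mod_cast hcn
    refine ⟨star c / (‖c‖ : ℂ), ?_, ?_⟩
    · rw [norm_div, norm_star, Complex.norm_real, norm_norm, div_self hcn]
    · set θ : ℂ := star c / (‖c‖ : ℂ) with hθ
      have hθn : ‖θ‖ = 1 := by
        rw [hθ, norm_div, norm_star, Complex.norm_real, norm_norm, div_self hcn]
      have hθc : θ * c = (‖c‖ : ℂ) := by
        rw [hθ, div_mul_eq_mul_div]
        have h5 : star c * c = (‖c‖ : ℂ) * (‖c‖ : ℂ) := by
          have := Complex.conj_mul' c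
          rw [sq] at this
          exact this
        rw [h5, mul_div_assoc, div_self hcn', mul_one]
      have h6 : |1 - ‖c‖| ≤ ε := by
        have h7 := abs_norm_sub_norm_le (c • x) y
        rw [norm_smul, hx, hy, mul_one, abs_sub_comm] at h7
        exact h7.trans h1
      have h8 : x - θ • y = ((1 - ‖c‖ : ℝ) : ℂ) • x + θ • (c • x - y) := by
        rw [smul_sub, smul_smul, hθc]
        push_cast
        rw [sub_smul, one_smul]
        abel
      rw [h8]
      calc ‖((1 - ‖c‖ : ℝ) : ℂ) • x + θ • (c • x - y)‖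
          ≤ ‖((1 - ‖c‖ : ℝ) : ℂ) • x‖ + ‖θ • (c • x - y)‖ := norm_add_le _ _
        _ = |1 - ‖c‖| + ‖c • x - y‖ := by
            rw [norm_smul, norm_smul, hθn, one_mul, hx, mul_one, Complex.norm_real,
              Real.norm_eq_abs]
        _ ≤ 2 * ε := by linarith

end Abstract

end Pool.Agent.FFG.GP
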