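import Pool.Agent.FFG.GP.Defs

/-!
# The filtered operator generates the motion of the ground state
-/

open Finset
open scoped InnerProductSpace

set_option autoImplicit false
set_option linter.unusedSectionVars false
set_option linter.unusedVariables false
set_option linter.deprecated false

namespace Pool.Agent.FFG.GP

variable {E : Type} [NormedAddCommGroup E] [InnerProductSpace ℂ E] [CompleteSpace E]

/-- The exponential applied to an eigenvector. -/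
lemma gp09_exp_apply {H : E →L[ℂ] E} {φ : E} {l : ℂ} (h : H φ = l • φ) (z : ℂ) :
    NormedSpace.exp (z • H) φ = Complex.exp (z * l) • φ := by
  have h1 := NormedSpace.exp_series_hasSum_exp' (𝕂 := ℂ) (z • H)
  have h2 : HasSum (fun n : ℕ => (((n.factorial : ℂ)⁻¹) • (z • H) ^ n) φ)
      (NormedSpace.exp (z • H) φ) :=
    (ContinuousLinearMap.apply ℂ E φ).hasSum h1
  have h3 : HasSum (fun n : ℕ => (n.factorial : ℂ)⁻¹ * (z * l) ^ n) (Complex.exp (z * l)) := by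
    have h4 := NormedSpace.exp_series_hasSum_exp' (𝕂 := ℂ) (z * l)
    rw [← Complex.exp_eq_exp_ℂ] at h4
    simpa [smul_eq_mul] using h4
  have h5 := h3.smul_const φ
  refine h2.unique ?_
  convert h5 using 1
  funext n
  have h6 : ∀ m : ℕ, ((z • H) ^ m) φ = (z * l) ^ m • φ := by
    intro m
    induction m with
    | zero => simp
    | succ m ih =>
      rw [pow_succ', ContinuousLinearMap.mul_apply, ih, map_smul, ContinuousLinearMap.smul_apply, h,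
        smul_smul, smul_smul]
      congr 1
      ring
  rw [ContinuousLinearMap.smul_apply, h6, smul_smul]

lemma gp09_star_exp {H : E →L[ℂ] E} (hH : IsSelfAdjoint H) (t : ℝ) :
    star (NormedSpace.exp ((t * Complex.I : ℂ) • H)) =
      NormedSpace.exp ((-(t * Complex.I) : ℂ) • H) := by
  rw [NormedSpace.star_exp, star_smul, hH.star_eq]
  congr 2
  simp

lemma gp09_star_exp' {H : E →L[ℂ] E} (hH : IsSelfAdjoint H) (t : ℝ) :
    star (NormedSpace.exp ((-(t * Complex.I) : ℂ) • H)) =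
      NormedSpace.exp ((t * Complex.I : ℂ) • H) := by
  rw [NormedSpace.star_exp, star_smul, hH.star_eq]
  congr 2
  simp

lemma gp09_tau_sa {H X : E →L[ℂ] E} (hH : IsSelfAdjoint H) (hX : IsSelfAdjoint X) (t : ℝ) :
    IsSelfAdjoint (tau H t X) := by
  unfold IsSelfAdjoint tau
  rw [star_mul, star_mul, gp09_star_exp hH, gp09_star_exp' hH, hX.star_eq, mul_assoc]

lemma gp09_exp_cont (H : E →L[ℂ] E) {f : ℝ → ℂ} (hf : Continuous f) :
    Continuous fun t => NormedSpace.exp (f t • H) := by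
  let _ : NormedAlgebra ℚ (E →L[ℂ] E) := NormedAlgebra.restrictScalars ℚ ℂ _
  exact NormedSpace.exp_continuous.comp (hf.smul continuous_const)

lemma gp09_tau_cont (H X : E →L[ℂ] E) : Continuous fun t : ℝ => tau H t X := by
  unfold tau
  have h1 : Continuous fun t : ℝ => (t * Complex.I : ℂ) := by fun_prop
  have h2 : Continuous fun t : ℝ => (-(t * Complex.I) : ℂ) := by fun_prop
  exact ((gp09_exp_cont H h1).mul continuous_const).mul (gp09_exp_cont H h2)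

lemma gp09_integrand_cont (H X : E →L[ℂ] E) {w : ℝ → ℝ} (hw : Continuous w) :
    Continuous fun t : ℝ => w t • (tau H t X - tau H (-t) X) :=
  hw.smul ((gp09_tau_cont H X).sub ((gp09_tau_cont H X).comp continuous_neg))

lemma gp09_KK_sa {H X : E →L[ℂ] E} (hH : IsSelfAdjoint H) (hX : IsSelfAdjoint X) {w : ℝ → ℝ}
    (hw : Continuous w) (T : ℝ) : IsSelfAdjoint (KK H w T X) := by
  unfold KK
  refine IsSelfAdjoint.smul (by simp [IsSelfAdjoint]) ?_
  unfold IsSelfAdjoint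
  have h1 := ((starL' ℝ : (E →L[ℂ] E) ≃L[ℝ] (E →L[ℂ] E)) : (E →L[ℂ] E) →L[ℝ] (E →L[ℂ] E)).intervalIntegral_comp_comm
    (μ := MeasureTheory.volume) (a := 0) (b := T)
    ((gp09_integrand_cont H X hw).intervalIntegrable 0 T)
  have h2 : ∀ t, star (w t • (tau H t X - tau H (-t) X)) = w t • (tau H t X - tau H (-t) X) := by
    intro t
    rw [star_smul, star_sub, (gp09_tau_sa hH hX t).star_eq, (gp09_tau_sa hH hX (-t)).star_eq]
    simp
  have h3 : star (∫ t in (0 : ℝ)..T, w t • (tau H t X - tau H (-t) X)) =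
      ∫ t in (0 : ℝ)..T, star (w t • (tau H t X - tau H (-t) X)) := h1.symm
  rw [h3]
  simp_rw [h2]

/-- The components of `K Ψ`. -/
lemma gp09_comp {H X : E →L[ℂ] E} (hH : IsSelfAdjoint H) {E₀ l : ℝ} {Ψ φ : E}
    (hΨ : H Ψ = (E₀ : ℂ) • Ψ) (hφ : H φ = (l : ℂ) • φ) {w : ℝ → ℝ} (hw : Continuous w) (T : ℝ) :
    ⟪φ, KK H w T X Ψ⟫_ℂ =
      Complex.I * ((∫ t in (0 : ℝ)..T, w t * Real.sin ((l - E₀) * t) : ℝ) : ℂ) * ⟪φ, X Ψ⟫_ℂ := by
  have h1 : ∀ t : ℝ, ⟪φ, tau H t X Ψ⟫_ℂ = Complex.exp ((t * (l - E₀) : ℝ) * Complex.I) * ⟪φ, X Ψ⟫_ℂ := by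
    intro t
    unfold tau
    rw [ContinuousLinearMap.mul_apply, ContinuousLinearMap.mul_apply, gp09_exp_apply hΨ, map_smul,
      map_smul, inner_smul_right]
    have h2 : ⟪φ, NormedSpace.exp ((t * Complex.I : ℂ) • H) (X Ψ)⟫_ℂ =
        ⟪star (NormedSpace.exp ((t * Complex.I : ℂ) • H)) φ, X Ψ⟫_ℂ := by
      rw [ContinuousLinearMap.star_eq_adjoint, ContinuousLinearMap.adjoint_inner_left]
    rw [h2, gp09_star_exp hH, gp09_exp_apply hφ, inner_smul_left, ← Complex.exp_conj, ← mul_assoc,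
      ← Complex.exp_add]
    congr 2
    simp only [map_mul, map_neg, Complex.conj_I, Complex.conj_ofReal]
    push_cast
    ring
  let Lf : (E →L[ℂ] E) →L[ℝ] ℂ :=
    ((innerSL ℂ φ).restrictScalars ℝ).comp ((ContinuousLinearMap.apply ℂ E Ψ).restrictScalars ℝ)
  have hL : ∀ A : E →L[ℂ] E, Lf A = ⟪φ, A Ψ⟫_ℂ := fun A => rfl
  have h3 := Lf.intervalIntegral_comp_comm (μ := MeasureTheory.volume) (a := 0) (b := T)
    ((gp09_integrand_cont H X hw).intervalIntegrable 0 T)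
  rw [← hL]
  unfold KK
  rw [map_smul, ← h3]
  have h4 : ∀ t : ℝ, Lf (w t • (tau H t X - tau H (-t) X)) =
      ((w t * Real.sin ((l - E₀) * t) : ℝ) : ℂ) * (2 * Complex.I * ⟪φ, X Ψ⟫_ℂ) := by
    intro t
    rw [map_smul, map_sub, hL, hL, h1, h1]
    have h5 := Complex.exp_mul_I ((t * (l - E₀) : ℝ) : ℂ)
    have h6 := Complex.exp_mul_I ((-t * (l - E₀) : ℝ) : ℂ)
    rw [h5, h6]
    have h7 : ((-t * (l - E₀) : ℝ) : ℂ) = -((t * (l - E₀) : ℝ) : ℂ) := by push_cast; ring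
    rw [h7, Complex.cos_neg, Complex.sin_neg, ← Complex.ofReal_cos, ← Complex.ofReal_sin,
      mul_comm (l - E₀) t, Complex.real_smul]
    push_cast
    ring
  simp_rw [h4]
  rw [intervalIntegral.integral_mul_const, intervalIntegral.integral_ofReal, Complex.real_smul]
  push_cast
  ring

/-- The error vector. -/
lemma gp09_vec [FiniteDimensional ℂ E] {H X : E →L[ℂ] E} (hsa : IsSelfAdjoint H)
    {E₀ Δ : ℝ} {Ψ : E} (hΔ : 0 < Δ) (hgap : PEPS953.IsGappedGS H E₀ Δ Ψ)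
    {w : ℝ → ℝ} {T ε : ℝ} (hw : Continuous w)
    (hε : ∀ ω : ℝ, Δ ≤ |ω| → |(∫ t in (0 : ℝ)..T, w t * Real.sin (ω * t)) - 1 / ω| ≤ ε) {y : E}
    (hy0 : ⟪Ψ, y⟫_ℂ = 0) (hy : H y - (E₀ : ℂ) • y = X Ψ - ⟪Ψ, X Ψ⟫_ℂ • Ψ) :
    ‖KK H w T X Ψ - Complex.I • y‖ ≤ ε * ‖X‖ := by
  have hH : (H : E →ₗ[ℂ] E).IsSymmetric := hsa.isSymmetric
  have hε0 : 0 ≤ ε := (abs_nonneg _).trans (hε Δ (le_abs_self Δ))
  set b := hH.eigenvectorBasis rfl with hb
  set lam := hH.eigenvalues rfl with hlam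
  have happ : ∀ i, H (b i) = (lam i : ℂ) • b i := fun i => hH.apply_eigenvectorBasis rfl i
  have hbn : ∀ i, ‖b i‖ = 1 := fun i => b.orthonormal.1 i
  have hb0 : ∀ i, b i ≠ 0 := fun i => by rw [← norm_ne_zero_iff, hbn i]; norm_num
  have key : ∀ i, ‖⟪b i, KK H w T X Ψ - Complex.I • y⟫_ℂ‖ ≤ ε * ‖⟪b i, X Ψ⟫_ℂ‖ := by
    intro i
    rw [inner_sub_right, inner_smul_right, gp09_comp hsa hgap.eigen (happ i) hw T]
    rcases hgap.gap (lam i) (b i) (hb0 i) (happ i) with ⟨hl, c, hc⟩ | h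
    · have h1 : ⟪b i, y⟫_ℂ = 0 := by rw [hc, inner_smul_left, hy0, mul_zero]
      rw [h1, hl, sub_self]
      simp only [zero_mul, Real.sin_zero, mul_zero, intervalIntegral.integral_zero,
        Complex.ofReal_zero, sub_self, norm_zero]
      positivity
    · have hpos : 0 < lam i - E₀ := by linarith
      have hne : lam i ≠ E₀ := by linarith
      have h3 : ⟪b i, Ψ⟫_ℂ = 0 := by
        have h4 : ⟪H (b i), Ψ⟫_ℂ = ⟪b i, H Ψ⟫_ℂ := hH (b i) Ψ
        rw [hgap.eigen, happ, inner_smul_left, inner_smul_right, Complex.conj_ofReal] at h4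
        have h5 : ((lam i : ℂ) - E₀) * ⟪b i, Ψ⟫_ℂ = 0 := by rw [sub_mul, h4, sub_self]
        rcases mul_eq_zero.mp h5 with h6 | h6
        · exfalso
          apply hne
          have : (lam i : ℂ) = E₀ := sub_eq_zero.mp h6
          exact_mod_cast this
        · exact h6
      have h6 : ((lam i : ℂ) - E₀) * ⟪b i, y⟫_ℂ = ⟪b i, X Ψ⟫_ℂ := by
        have h7 := congrArg (fun v => ⟪b i, v⟫_ℂ) hy
        simp only [inner_sub_right, inner_smul_right, h3, mul_zero, sub_zero] at h7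
        have h8 : ⟪b i, H y⟫_ℂ = lam i * ⟪b i, y⟫_ℂ := by
          have h9 : ⟪H (b i), y⟫_ℂ = ⟪b i, H y⟫_ℂ := hH (b i) y
          rw [← h9, happ, inner_smul_left, Complex.conj_ofReal]
        rw [← h7, h8, sub_mul]
      have hneC : ((lam i : ℂ) - E₀) ≠ 0 := by
        intro h
        apply hne
        have : (lam i : ℂ) = E₀ := sub_eq_zero.mp h
        exact_mod_cast this
      have h10 : ⟪b i, y⟫_ℂ = (1 / ((lam i : ℂ) - E₀)) * ⟪b i, X Ψ⟫_ℂ := by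
        rw [← h6]; field_simp
      rw [h10]
      have h11 := hε (lam i - E₀) (by rw [abs_of_pos hpos]; linarith)
      have h12 : Complex.I * ((∫ t in (0 : ℝ)..T, w t * Real.sin ((lam i - E₀) * t) : ℝ) : ℂ) *
          ⟪b i, X Ψ⟫_ℂ - Complex.I * ((1 / ((lam i : ℂ) - E₀)) * ⟪b i, X Ψ⟫_ℂ) =
          Complex.I * (((∫ t in (0 : ℝ)..T, w t * Real.sin ((lam i - E₀) * t)) -
            1 / (lam i - E₀) : ℝ) : ℂ) * ⟪b i, X Ψ⟫_ℂ := by
        push_cast
        ring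
      rw [h12, norm_mul, norm_mul, Complex.norm_I, one_mul, Complex.norm_real, Real.norm_eq_abs]
      exact mul_le_mul_of_nonneg_right h11 (norm_nonneg _)
  have h3 : ‖KK H w T X Ψ - Complex.I • y‖ ^ 2 ≤ (ε * ‖X Ψ‖) ^ 2 := by
    rw [← b.sum_sq_norm_inner_right (KK H w T X Ψ - Complex.I • y), mul_pow,
      ← b.sum_sq_norm_inner_right (X Ψ), Finset.mul_sum]
    refine Finset.sum_le_sum fun i _ => ?_
    rw [← mul_pow]
    exact pow_le_pow_left₀ (norm_nonneg _) (key i) 2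
  have h4 := le_of_sq_le_sq h3 (by positivity)
  refine h4.trans (mul_le_mul_of_nonneg_left ?_ hε0)
  have := X.le_opNorm Ψ
  rwa [hgap.norm_eq, mul_one] at this

lemma gp09_kb_apply (x y v : E) : kb x y v = ⟪y, v⟫_ℂ • x := rfl

lemma gp09_norm_kb (x y : E) : ‖kb x y‖ ≤ ‖x‖ * ‖y‖ := by
  refine ContinuousLinearMap.opNorm_le_bound _ (by positivity) fun v => ?_
  rw [gp09_kb_apply, norm_smul]
  calc ‖⟪y, v⟫_ℂ‖ * ‖x‖ ≤ (‖y‖ * ‖v‖) * ‖x‖ :=
        mul_le_mul_of_nonneg_right (norm_inner_le_norm _ _) (norm_nonneg _)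
    _ = ‖x‖ * ‖y‖ * ‖v‖ := by ring

/-- GP9 (the filtered operator generates the motion of the ground state). -/
theorem filter_ground [FiniteDimensional ℂ E] {H X : E →L[ℂ] E} (hsa : IsSelfAdjoint H)
    (hX : IsSelfAdjoint X) {E₀ Δ : ℝ} {Ψ : E} (hΔ : 0 < Δ) (hgap : PEPS953.IsGappedGS H E₀ Δ Ψ)
    {w : ℝ → ℝ} {T ε : ℝ} (hT : 0 ≤ T) (hw : Continuous w)
    (hε : ∀ ω : ℝ, Δ ≤ |ω| → |(∫ t in (0 : ℝ)..T, w t * Real.sin (ω * t)) - 1 / ω| ≤ ε) {y : E}
    (hy0 : ⟪Ψ, y⟫_ℂ = 0) (hy : H y - (E₀ : ℂ) • y = X Ψ - ⟪Ψ, X Ψ⟫_ℂ • Ψ) :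
    ‖-(kb y Ψ + kb Ψ y) - Complex.I • (KK H w T X * kb Ψ Ψ - kb Ψ Ψ * KK H w T X)‖ ≤
      2 * ε * ‖X‖ := by
  set K := KK H w T X with hK
  have hKsa : IsSelfAdjoint K := gp09_KK_sa hsa hX hw T
  set e := K Ψ - Complex.I • y with he
  have hv : ‖e‖ ≤ ε * ‖X‖ := gp09_vec hsa hΔ hgap hw hε hy0 hy
  have hKΨ : K Ψ = Complex.I • y + e := by rw [he]; abel
  have h1 : -(kb y Ψ + kb Ψ y) - Complex.I • (K * kb Ψ Ψ - kb Ψ Ψ * K) =
      -(Complex.I • (kb e Ψ - kb Ψ e)) := by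
    ext v
    have h2 : ⟪Ψ, K v⟫_ℂ = ⟪K Ψ, v⟫_ℂ := (hKsa.isSymmetric Ψ v).symm
    simp only [ContinuousLinearMap.sub_apply, ContinuousLinearMap.neg_apply,
      ContinuousLinearMap.add_apply, ContinuousLinearMap.smul_apply,
      ContinuousLinearMap.mul_apply, gp09_kb_apply, map_smul, h2, hKΨ, inner_add_left,
      inner_smul_left, Complex.conj_I, smul_add, smul_sub, smul_smul, add_smul]
    match_scalars <;> ring_nf <;> simp
  rw [h1, norm_neg, norm_smul, Complex.norm_I, one_mul]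
  calc ‖kb e Ψ - kb Ψ e‖ ≤ ‖kb e Ψ‖ + ‖kb Ψ e‖ := norm_sub_le _ _
    _ ≤ ‖e‖ * ‖Ψ‖ + ‖Ψ‖ * ‖e‖ := add_le_add (gp09_norm_kb _ _) (gp09_norm_kb _ _)
    _ = 2 * ‖e‖ := by rw [hgap.norm_eq]; ring
    _ ≤ 2 * ε * ‖X‖ := by rw [mul_assoc]; linarith

end Pool.Agent.FFG.GP
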