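import Pool.Agent.FFG.GP.LR

/-!
# Comparison of two evolutions of a local operator
-/

open Finset
open scoped InnerProductSpace

set_option autoImplicit false
set_option linter.unusedSectionVars false
set_option linter.unusedVariables false

namespace Pool.Agent.FFG.GP

variable {E : Type} [NormedAddCommGroup E] [InnerProductSpace ℂ E] [CompleteSpace E]

theorem gp5_cont {ι : Type} {Z : ι → ℝ → E →L[ℂ] E} {Loc : ι → (E →L[ℂ] E) → Prop}
    {nc : ι → ι → Prop} {J : ℝ} {g : ℕ} (hZ : LSys Z Loc nc J g) (𝒮 : Finset ι) :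
    Continuous fun t => ∑ v ∈ 𝒮, Z v t :=
  continuous_finsetSum _ fun v _ => hZ.cont v

theorem gp5_sa {ι : Type} {Z : ι → ℝ → E →L[ℂ] E} {Loc : ι → (E →L[ℂ] E) → Prop}
    {nc : ι → ι → Prop} {J : ℝ} {g : ℕ} (hZ : LSys Z Loc nc J g) (𝒮 : Finset ι) (t : ℝ) :
    IsSelfAdjoint (∑ v ∈ 𝒮, Z v t) := by
  rw [IsSelfAdjoint, star_sum]
  exact Finset.sum_congr rfl fun v _ => (hZ.sa v t).star_eq

/-- The shifted system. -/
theorem gp5_shift {ι : Type} {Z : ι → ℝ → E →L[ℂ] E} {Loc : ι → (E →L[ℂ] E) → Prop}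
    {nc : ι → ι → Prop} {J : ℝ} {g : ℕ} (hZ : LSys Z Loc nc J g) (s : ℝ) :
    LSys (fun v t => Z v (s + t)) Loc nc J g where
  cont := fun v => (hZ.cont v).comp (continuous_const.add continuous_id)
  sa := fun v t => hZ.sa v (s + t)
  norm := fun v t => hZ.norm v (s + t)
  loc := fun v t => hZ.loc v (s + t)
  comm := fun v w t O hO h => hZ.comm v w (s + t) O hO h
  deg := hZ.deg

/-- GP5 (comparison of two evolutions of a local operator); assume GP1–GP4. -/
theorem lr_diff {ι : Type} [Finite ι] [DecidableEq ι] {Z : ι → ℝ → E →L[ℂ] E}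
    {Loc : ι → (E →L[ℂ] E) → Prop} {nc : ι → ι → Prop} {J : ℝ} {g : ℕ} (hJ : 0 ≤ J)
    (hZ : LSys Z Loc nc J g) {𝒮 𝒮' : Finset ι} (h𝒮 : 𝒮' ⊆ 𝒮) {U U' : ℝ → E →L[ℂ] E}
    (hU : Propag (fun t => ∑ v ∈ 𝒮, Z v t) U) (hU' : Propag (fun t => ∑ v ∈ 𝒮', Z v t) U') (n : ℕ)
    (v : ι) (hfar : ∀ u ∈ 𝒮 \ 𝒮', ∀ m < n, ∀ w, reach nc m v w → ¬ nc w u) (O : E →L[ℂ] E)
    (hO : Loc v O) (t : ℝ) (ht : 0 ≤ t) :
    ‖star (U t) * O * U t - star (U' t) * O * U' t‖ ≤
      (𝒮 \ 𝒮').card * (2 * J * ‖O‖ * t * ((2 * J * g * t) ^ n / n.factorial)) := by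
  classical
  have hG := gp5_cont hZ 𝒮
  have hG' := gp5_cont hZ 𝒮'
  have hsa := gp5_sa hZ 𝒮
  have hsa' := gp5_sa hZ 𝒮'
  set V : ℝ → E →L[ℂ] E := fun s => star (U' s) * U s with hV
  set Y : ℝ → E →L[ℂ] E := fun s => star (U' s) * (∑ u ∈ 𝒮 \ 𝒮', Z u s) * U' s with hY
  have hdiff : ∀ s, ∑ u ∈ 𝒮, Z u s = ∑ u ∈ 𝒮 \ 𝒮', Z u s + ∑ u ∈ 𝒮', Z u s := fun s =>
    (Finset.sum_sdiff h𝒮).symm
  have hVd : ∀ s, HasDerivAt V (Complex.I • (Y s * V s)) s := by
    intro s
    have h := (gp2_star_deriv hsa' hU' s).mul (hU.deriv s)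
    have huu := (hU'.unitary hG' hsa' s).2
    have e : -(Complex.I • (star (U' s) * ∑ u ∈ 𝒮', Z u s)) * U s +
        star (U' s) * (Complex.I • ((∑ u ∈ 𝒮, Z u s) * U s)) = Complex.I • (Y s * V s) := by
      have e1 : Y s * V s = star (U' s) * ((∑ u ∈ 𝒮 \ 𝒮', Z u s) * U s) := by
        rw [hY, hV]
        calc star (U' s) * (∑ u ∈ 𝒮 \ 𝒮', Z u s) * U' s * (star (U' s) * U s) =
            star (U' s) * (∑ u ∈ 𝒮 \ 𝒮', Z u s) * (U' s * star (U' s)) * U s := by
              simp only [mul_assoc]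
          _ = star (U' s) * ((∑ u ∈ 𝒮 \ 𝒮', Z u s) * U s) := by
              rw [huu, mul_one]; simp only [mul_assoc]
      rw [e1, hdiff s]
      simp only [neg_mul, smul_mul_assoc, mul_smul_comm, add_mul, mul_add, smul_add, mul_assoc]
      abel
    rw [← e]
    exact h
  have hYsa : ∀ s, star (Y s) = Y s := by
    intro s
    rw [hY]
    simp only [star_mul, star_star, (gp5_sa hZ (𝒮 \ 𝒮') s).star_eq, mul_assoc]
  have hVsd : ∀ s, HasDerivAt (fun s => star (V s)) (-(Complex.I • (star (V s) * Y s))) s := by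
    intro s
    have h := (hVd s).star
    have e : star (Complex.I • (Y s * V s)) = -(Complex.I • (star (V s) * Y s)) := by
      rw [star_smul, star_mul, hYsa]
      have : star Complex.I = -Complex.I := Complex.conj_I
      rw [this, neg_smul]
    rw [e] at h
    exact h
  have hVnorm : ∀ s, ‖V s‖ ≤ 1 := by
    intro s
    calc ‖V s‖ ≤ ‖star (U' s)‖ * ‖U s‖ := norm_mul_le _ _
      _ ≤ 1 * 1 := mul_le_mul (gp2_norm_star_le hG' hsa' hU' s) (gp2_norm_le hG hsa hU s)
        (norm_nonneg _) zero_le_one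
      _ = 1 := one_mul 1
  set A : E →L[ℂ] E := star (U' t) * O * U' t with hA
  set F : ℝ → E →L[ℂ] E := fun s => star (V s) * A * V s with hF
  have hFd : ∀ s, HasDerivAt F (Complex.I • (star (V s) * (A * Y s - Y s * A) * V s)) s := by
    intro s
    have h := ((hVsd s).mul_const A).mul (hVd s)
    have e : -(Complex.I • (star (V s) * Y s)) * A * V s +
        star (V s) * A * (Complex.I • (Y s * V s)) =
        Complex.I • (star (V s) * (A * Y s - Y s * A) * V s) := by
      simp only [neg_mul, smul_mul_assoc, mul_smul_comm, mul_sub, sub_mul, smul_sub, mul_assoc]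
      abel
    rw [← e]
    exact h
  set C : ℝ := (𝒮 \ 𝒮').card * (2 * J * ‖O‖ * ((2 * J * g * t) ^ n / n.factorial)) with hC
  have hbound : ∀ s ∈ Set.Ico (0 : ℝ) t,
      ‖Complex.I • (star (V s) * (A * Y s - Y s * A) * V s)‖ ≤ C := by
    intro s hs
    rw [norm_smul, Complex.norm_I, one_mul]
    refine (gp4_norm_conj_le (hVnorm s) _).trans ?_
    -- the evolution from `s` to `t`
    set Wp : ℝ → E →L[ℂ] E := fun x => U' (s + x) * star (U' s) with hWp
    have hW : Propag (fun x => ∑ u ∈ 𝒮', Z u (s + x)) Wp := hU'.shift hG' hsa' s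
    have hWt : Wp (t - s) = U' t * star (U' s) := by
      rw [hWp]; simp
    have hu1 := hU'.unitary hG' hsa' s
    -- conjugation by `U' s`
    have hAW : A = star (U' s) * (star (Wp (t - s)) * O * Wp (t - s)) * U' s := by
      rw [hWt, hA]
      simp only [star_mul, star_star]
      calc star (U' t) * O * U' t =
          (star (U' s) * U' s) * star (U' t) * O * U' t * (star (U' s) * U' s) := by
            rw [hu1.1]; simp
        _ = star (U' s) * (U' s * star (U' t) * O * (U' t * star (U' s))) * U' s := by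
            simp only [mul_assoc]
    set K : E →L[ℂ] E := star (Wp (t - s)) * O * Wp (t - s) with hK
    have hcomm : A * Y s - Y s * A =
        star (U' s) * (∑ u ∈ 𝒮 \ 𝒮', (K * Z u s - Z u s * K)) * U' s := by
      rw [Finset.sum_sub_distrib, ← Finset.mul_sum, ← Finset.sum_mul, hAW, hY]
      have e1 : star (U' s) * K * U' s * (star (U' s) * (∑ u ∈ 𝒮 \ 𝒮', Z u s) * U' s) =
          star (U' s) * (K * ∑ u ∈ 𝒮 \ 𝒮', Z u s) * U' s := by
        calc star (U' s) * K * U' s * (star (U' s) * (∑ u ∈ 𝒮 \ 𝒮', Z u s) * U' s) =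
            star (U' s) * K * (U' s * star (U' s)) * (∑ u ∈ 𝒮 \ 𝒮', Z u s) * U' s := by
              simp only [mul_assoc]
          _ = _ := by rw [hu1.2, mul_one]; simp only [mul_assoc]
      have e2 : star (U' s) * (∑ u ∈ 𝒮 \ 𝒮', Z u s) * U' s * (star (U' s) * K * U' s) =
          star (U' s) * ((∑ u ∈ 𝒮 \ 𝒮', Z u s) * K) * U' s := by
        calc star (U' s) * (∑ u ∈ 𝒮 \ 𝒮', Z u s) * U' s * (star (U' s) * K * U' s) =
            star (U' s) * (∑ u ∈ 𝒮 \ 𝒮', Z u s) * (U' s * star (U' s)) * K * U' s := by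
              simp only [mul_assoc]
          _ = _ := by rw [hu1.2, mul_one]; simp only [mul_assoc]
      rw [e1, e2, mul_sub, sub_mul]
    rw [hcomm]
    refine (gp4_norm_conj_le (gp2_norm_le hG' hsa' hU' s) _).trans ?_
    have hts : 0 ≤ t - s := by linarith [hs.2]
    have hterm : ∀ u ∈ 𝒮 \ 𝒮', ‖K * Z u s - Z u s * K‖ ≤
        2 * J * ‖O‖ * ((2 * J * g * t) ^ n / n.factorial) := by
      intro u hu
      have h1 := lr_comm hJ (gp5_shift hZ s) 𝒮' hW (Z u s) n v
        (fun m hm w hw O' hO' => (hZ.comm w u s O' hO' (hfar u hu m hm w hw)).symm) O hO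
        (t - s) hts
      rw [norm_sub_rev]
      refine h1.trans ?_
      have h2 : (2 * J * g * (t - s)) ^ n / (n.factorial : ℝ) ≤
          (2 * J * g * t) ^ n / (n.factorial : ℝ) := by
        refine div_le_div_of_nonneg_right ?_ (by positivity)
        refine pow_le_pow_left₀ (mul_nonneg (by positivity) hts) ?_ n
        exact mul_le_mul_of_nonneg_left (by linarith [hs.1]) (by positivity)
      have h3 : 2 * ‖Z u s‖ * ‖O‖ ≤ 2 * J * ‖O‖ :=
        mul_le_mul_of_nonneg_right (mul_le_mul_of_nonneg_left (hZ.norm u s) (by norm_num))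
          (norm_nonneg _)
      refine mul_le_mul h3 h2 ?_ (by positivity)
      have : 0 ≤ 2 * J * g * (t - s) := mul_nonneg (by positivity) hts
      positivity
    calc ‖∑ u ∈ 𝒮 \ 𝒮', (K * Z u s - Z u s * K)‖ ≤
        ∑ u ∈ 𝒮 \ 𝒮', ‖K * Z u s - Z u s * K‖ := norm_sum_le _ _
      _ ≤ ∑ u ∈ 𝒮 \ 𝒮', 2 * J * ‖O‖ * ((2 * J * g * t) ^ n / n.factorial) :=
        Finset.sum_le_sum hterm
      _ = C := by rw [Finset.sum_const, nsmul_eq_mul]
  have key := norm_image_sub_le_of_norm_deriv_le_segment' (f := F)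
    (f' := fun s => Complex.I • (star (V s) * (A * Y s - Y s * A) * V s)) (C := C) (a := 0)
    (b := t) (fun s _ => (hFd s).hasDerivWithinAt) hbound t ⟨ht, le_refl t⟩
  have hF0 : F 0 = star (U' t) * O * U' t := by
    rw [hF, hV]
    simp [hU.zero, hU'.zero, hA]
  have hFt : F t = star (U t) * O * U t := by
    have huu := (hU'.unitary hG' hsa' t).2
    rw [hF, hV, hA]
    simp only [star_mul, star_star]
    calc star (U t) * U' t * (star (U' t) * O * U' t) * (star (U' t) * U t) =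
        star (U t) * (U' t * star (U' t)) * O * (U' t * star (U' t)) * U t := by
          simp only [mul_assoc]
      _ = star (U t) * O * U t := by rw [huu, mul_one, mul_one]
  rw [hF0, hFt] at key
  refine key.trans (le_of_eq ?_)
  rw [hC]
  ring

end Pool.Agent.FFG.GP
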