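import Pool.Agent.FFG.GP.KVLocal
import Pool.Agent.FFG.GP.LRDiff

/-!
# Truncation of the filtered terms
-/

open Finset
open scoped InnerProductSpace

set_option autoImplicit false
set_option linter.unusedSectionVars false
set_option linter.unusedVariables false

namespace Pool.Agent.FFG.GP

section Abstract

variable {E : Type} [NormedAddCommGroup E] [InnerProductSpace ℂ E] [CompleteSpace E]

/-- the propagator of a constant Hamiltonian -/
theorem gp13_propag (H : E →L[ℂ] E) :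
    Propag (fun _ => H) (fun t : ℝ => NormedSpace.exp ((t * Complex.I : ℂ) • H)) := by
  constructor
  · simp
  · intro t
    have h1 := hasDerivAt_exp_smul_const (𝕂 := ℝ) (Complex.I • H) t
    have e : ∀ u : ℝ, (u : ℝ) • (Complex.I • H) = ((u * Complex.I : ℂ)) • H := by
      intro u
      rw [mul_smul]
      rfl
    have e2 : (fun u : ℝ => NormedSpace.exp (u • (Complex.I • H))) =
        fun u : ℝ => NormedSpace.exp ((u * Complex.I : ℂ) • H) := by
      funext u
      rw [e]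
    rw [e2, e] at h1
    have h2 : Commute H (NormedSpace.exp ((t * Complex.I : ℂ) • H)) :=
      Commute.exp_right ((Commute.refl H).smul_right _)
    have h3 : NormedSpace.exp ((t * Complex.I : ℂ) • H) * (Complex.I • H) =
        Complex.I • (H * NormedSpace.exp ((t * Complex.I : ℂ) • H)) := by
      rw [mul_smul_comm, h2.eq]
    rw [h3] at h1
    exact h1

theorem gp13_tau_eq {H : E →L[ℂ] E} (hH : IsSelfAdjoint H) (t : ℝ) (O : E →L[ℂ] E) :
    star (NormedSpace.exp ((t * Complex.I : ℂ) • H)) * O *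
      NormedSpace.exp ((t * Complex.I : ℂ) • H) = tau H (-t) O := by
  unfold tau
  rw [gp12_star_exp hH]
  congr 4
  · push_cast
    ring
  · push_cast
    ring

theorem gp13_tau_neg (H : E →L[ℂ] E) (t : ℝ) (O : E →L[ℂ] E) : tau (-H) (-t) O = tau H t O := by
  unfold tau
  have e1 : (((-t : ℝ) : ℂ) * Complex.I) • (-H) = ((t : ℂ) * Complex.I) • H := by
    push_cast
    rw [neg_mul, neg_smul, smul_neg, neg_neg]
  have e2 : (-(((-t : ℝ) : ℂ) * Complex.I)) • (-H) = (-((t : ℂ) * Complex.I)) • H := by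
    push_cast
    rw [neg_mul, neg_neg, smul_neg, neg_smul]
  rw [e1, e2]

end Abstract

section Torus

open Pool.Agent.PEPS953

variable {d L r : ℕ} [NeZero L]

theorem gp13_lsys (hrL : r ≤ L) {h : Site L → Matrix (LConf d r) (LConf d r) ℂ}
    (hh : ∀ v, (h v).IsHermitian) {J : ℝ} (hJ : ∀ v, ‖locOp L (h v) v‖ ≤ J) :
    LSys (fun (v : Site L) (_ : ℝ) => locOp L (h v) v)
      (fun v O => LocalOn (univ.image (boxPos L r v)) O) (ov r) J (4 * r ^ 2) where
  cont := fun v => continuous_const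
  sa := fun v t => gp12_locOp_sa (hh v) v
  norm := fun v t => hJ v
  loc := fun v t => locOp_localOn hrL (h v) v
  comm := fun v w t O hO hvw => by
    refine LocalOn.commute ?_ hO (locOp_localOn hrL (h w) w)
    rw [Finset.disjoint_left]
    intro x hx hx'
    rw [mem_image] at hx hx'
    obtain ⟨p, _, hp⟩ := hx
    obtain ⟨q, _, hq⟩ := hx'
    exact hvw ⟨p, q, hp.trans hq.symm⟩
  deg := fun v => ov_deg r v

theorem gp13_reach (m : ℕ) : ∀ {v w : Site L}, reach (ov r) m v w → sdist v w ≤ m * r := by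
  induction m with
  | zero =>
    intro v w h
    have h' : w = v := h
    rw [h', sdist_self']
    exact Nat.zero_le _
  | succ m ih =>
    intro v w h
    have e : (m + 1) * r = m * r + r := by ring
    rcases h with h | ⟨u, hu, h⟩
    · have := ih h
      omega
    · have h1 := ih h
      have h2 := ov_sdist hu
      have h3 := sdist_triangle v u w
      omega

theorem gp13_locOp_neg (h : Matrix (LConf d r) (LConf d r) ℂ) (v : Site L) :
    locOp L (-h) v = -locOp L h v := by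
  unfold locOp
  have e : translate L (-h) v = -translate L h v := by
    have h1 := translate_smul (-1 : ℂ) h v
    rw [neg_one_smul, neg_one_smul] at h1
    exact h1
  rw [e, map_neg]

theorem gp13_hamS_neg (h : Site L → Matrix (LConf d r) (LConf d r) ℂ) (𝒯 : Finset (Site L)) :
    hamS (fun v => -h v) 𝒯 = -hamS h 𝒯 := by
  unfold hamS
  rw [← Finset.sum_neg_distrib]
  exact Finset.sum_congr rfl fun v _ => gp13_locOp_neg (h v) v

theorem gp13_tau (hr : 0 < r) (hrL : r ≤ L) {h : Site L → Matrix (LConf d r) (LConf d r) ℂ}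
    (hh : ∀ v, (h v).IsHermitian) {J : ℝ} (hJ0 : 0 ≤ J) (hJ : ∀ v, ‖locOp L (h v) v‖ ≤ J) (n ρ : ℕ)
    (hρ : (n + 1) * r ≤ ρ) (v : Site L) {O : Hil d L →L[ℂ] Hil d L}
    (hO : LocalOn (univ.image (boxPos L r v)) O) {t : ℝ} (ht : 0 ≤ t) :
    ‖tau (hamS h univ) (-t) O - tau (hamS h (LT.ball ρ {v})) (-t) O‖ ≤
      (L : ℝ) ^ 2 * (2 * J * ‖O‖ * t * ((2 * J * (4 * r ^ 2 : ℕ) * t) ^ n / n.factorial)) := by
  classical
  have hfar : ∀ u ∈ (univ : Finset (Site L)) \ LT.ball ρ {v}, ∀ m < n, ∀ w,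
      reach (ov r) m v w → ¬ ov r w u := by
    intro u hu m hm w hw hwu
    rw [mem_sdiff] at hu
    refine hu.2 ?_
    unfold LT.ball
    rw [mem_filter]
    refine ⟨mem_univ _, v, mem_singleton_self v, ?_⟩
    have h1 := gp13_reach m hw
    have h2 := ov_sdist hwu
    have h3 := sdist_triangle v w u
    have h4 : (m + 1) * r ≤ n * r := Nat.mul_le_mul_right r hm
    have e1 : (m + 1) * r = m * r + r := by ring
    have e2 : (n + 1) * r = n * r + r := by ring
    omega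
  have key := lr_diff hJ0 (gp13_lsys hrL hh hJ) (𝒮 := univ) (𝒮' := LT.ball ρ {v})
    (Finset.subset_univ _) (gp13_propag (hamS h univ)) (gp13_propag (hamS h (LT.ball ρ {v}))) n v
    hfar O hO t ht
  rw [gp13_tau_eq (gp12_hamS_sa hh _), gp13_tau_eq (gp12_hamS_sa hh _)] at key
  refine key.trans (mul_le_mul_of_nonneg_right ?_ (by positivity))
  have h1 : ((univ : Finset (Site L)) \ LT.ball ρ {v}).card ≤ L ^ 2 := by
    calc ((univ : Finset (Site L)) \ LT.ball ρ {v}).card ≤ (univ : Finset (Site L)).card :=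
          Finset.card_le_card sdiff_subset
      _ = L ^ 2 := by rw [Finset.card_univ, Fintype.card_prod, ZMod.card, pow_two]
  exact_mod_cast h1

/-- GP13 with operator norms. -/
theorem KV_diff2 (hr : 0 < r) (hrL : r ≤ L) {h h' : Site L → Matrix (LConf d r) (LConf d r) ℂ}
    (hh : ∀ v, (h v).IsHermitian) {J J' : ℝ} (hJ : ∀ v, ‖locOp L (h v) v‖ ≤ J)
    (hJ' : ∀ v, ‖locOp L (h' v) v‖ ≤ J') {w : ℝ → ℝ} (hw : Continuous w)
    (hw1 : ∀ t, 0 ≤ w t ∧ w t ≤ 1) {T : ℝ} (hT : 0 ≤ T) (n ρ : ℕ) (hρ : (n + 1) * r ≤ ρ)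
    (v : Site L) :
    ‖KV h h' w T univ v - KV h h' w T (LT.ball ρ {v}) v‖ ≤
      T * ((L : ℝ) ^ 2 * (2 * J * J' * T * ((2 * J * (4 * r ^ 2 : ℕ) * T) ^ n / n.factorial))) := by
  have hJ0 : 0 ≤ J := (norm_nonneg _).trans (hJ v)
  have hJ0' : 0 ≤ J' := (norm_nonneg _).trans (hJ' v)
  obtain ⟨X, hX⟩ : ∃ X, X = locOp L (h' v) v := ⟨_, rfl⟩
  have hXn : ‖X‖ ≤ J' := by
    rw [hX]
    exact hJ' v
  have hXl : LocalOn (univ.image (boxPos L r v)) X := by
    rw [hX]
    exact locOp_localOn hrL _ _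
  obtain ⟨B, hB⟩ : ∃ B, B = (L : ℝ) ^ 2 *
    (2 * J * J' * T * ((2 * J * (4 * r ^ 2 : ℕ) * T) ^ n / n.factorial)) := ⟨_, rfl⟩
  have hbound : ∀ t : ℝ, 0 ≤ t → t ≤ T → (L : ℝ) ^ 2 *
      (2 * J * ‖X‖ * t * ((2 * J * (4 * r ^ 2 : ℕ) * t) ^ n / n.factorial)) ≤ B := by
    intro t ht htT
    rw [hB]
    gcongr
  have hminus : ∀ t : ℝ, 0 ≤ t → t ≤ T →
      ‖tau (hamS h univ) (-t) X - tau (hamS h (LT.ball ρ {v})) (-t) X‖ ≤ B := fun t ht htT =>
    (gp13_tau hr hrL hh hJ0 hJ n ρ hρ v hXl ht).trans (hbound t ht htT)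
  have hplus : ∀ t : ℝ, 0 ≤ t → t ≤ T →
      ‖tau (hamS h univ) t X - tau (hamS h (LT.ball ρ {v})) t X‖ ≤ B := by
    intro t ht htT
    have h1 := gp13_tau hr hrL (h := fun v => -h v) (fun v => (hh v).neg) hJ0
      (fun v => by rw [gp13_locOp_neg, norm_neg]; exact hJ v) n ρ hρ v hXl ht
    rw [gp13_hamS_neg, gp13_hamS_neg, gp13_tau_neg, gp13_tau_neg] at h1
    exact h1.trans (hbound t ht htT)
  unfold KV
  rw [← hX]
  unfold KK
  have e3 : ∀ A B : Hil d L →L[ℂ] Hil d L, (1 / 2 : ℝ) • A - (1 / 2 : ℝ) • B =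
      (1 / 2 : ℝ) • (A - B) := fun A B => (smul_sub _ _ _).symm
  rw [e3, ← intervalIntegral.integral_sub
    ((gp12_integrand_cont (hamS h univ) X hw).intervalIntegrable 0 T)
    ((gp12_integrand_cont (hamS h (LT.ball ρ {v})) X hw).intervalIntegrable 0 T)]
  have h2 : ‖∫ t in (0 : ℝ)..T, (w t • (tau (hamS h univ) t X - tau (hamS h univ) (-t) X) -
      w t • (tau (hamS h (LT.ball ρ {v})) t X - tau (hamS h (LT.ball ρ {v})) (-t) X))‖ ≤
      (2 * B) * |T - 0| := by
    refine intervalIntegral.norm_integral_le_of_norm_le_const fun t ht => ?_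
    rw [Set.uIoc_of_le hT] at ht
    have e : w t • (tau (hamS h univ) t X - tau (hamS h univ) (-t) X) -
        w t • (tau (hamS h (LT.ball ρ {v})) t X - tau (hamS h (LT.ball ρ {v})) (-t) X) =
        w t • ((tau (hamS h univ) t X - tau (hamS h (LT.ball ρ {v})) t X) -
          (tau (hamS h univ) (-t) X - tau (hamS h (LT.ball ρ {v})) (-t) X)) := by
      rw [← smul_sub]
      congr 1
      abel
    rw [e, norm_smul, Real.norm_eq_abs, abs_of_nonneg (hw1 t).1]
    have h3 := norm_sub_le (tau (hamS h univ) t X - tau (hamS h (LT.ball ρ {v})) t X)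
      (tau (hamS h univ) (-t) X - tau (hamS h (LT.ball ρ {v})) (-t) X)
    have h4 := hplus t ht.1.le ht.2
    have h5 := hminus t ht.1.le ht.2
    calc w t * ‖(tau (hamS h univ) t X - tau (hamS h (LT.ball ρ {v})) t X) -
          (tau (hamS h univ) (-t) X - tau (hamS h (LT.ball ρ {v})) (-t) X)‖
        ≤ 1 * (2 * B) := mul_le_mul (hw1 t).2 (by linarith) (norm_nonneg _) zero_le_one
      _ = 2 * B := one_mul _
  rw [sub_zero, abs_of_nonneg hT] at h2
  rw [norm_smul, Real.norm_eq_abs, abs_of_pos (by norm_num : (0 : ℝ) < 1 / 2), ← hB]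
  linarith

/-- GP13 (truncation of the filtered terms). -/
theorem KV_diff (hr : 0 < r) (hrL : r ≤ L) {h h' : Site L → Matrix (LConf d r) (LConf d r) ℂ}
    (hh : ∀ v, (h v).IsHermitian) {J J' : ℝ} (hJ : ∀ v, entNorm (h v) ≤ J)
    (hJ' : ∀ v, entNorm (h' v) ≤ J') {w : ℝ → ℝ} (hw : Continuous w)
    (hw1 : ∀ t, 0 ≤ w t ∧ w t ≤ 1) {T : ℝ} (hT : 0 ≤ T) (n ρ : ℕ) (hρ : (n + 1) * r ≤ ρ)
    (v : Site L) :
    ‖KV h h' w T univ v - KV h h' w T (LT.ball ρ {v}) v‖ ≤
      T * ((L : ℝ) ^ 2 * (2 * J * J' * T * ((2 * J * (4 * r ^ 2 : ℕ) * T) ^ n / n.factorial))) :=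
  KV_diff2 hr hrL hh (fun u => (norm_locOp_le hrL (h u) u).trans (hJ u))
    (fun u => (norm_locOp_le hrL (h' u) u).trans (hJ' u)) hw hw1 hT n ρ hρ v

end Torus

end Pool.Agent.FFG.GP
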