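import Pool.Agent.FFG.GP.KVNorm
import Pool.Agent.FFG.Local
import Pool.Agent.FFG.Pos

/-!
# The filtered terms: locality and continuity
-/

open Finset
open scoped InnerProductSpace

set_option autoImplicit false
set_option linter.unusedSectionVars false
set_option linter.unusedVariables false

namespace Pool.Agent.FFG.GP

section Abstract

variable {E : Type} [NormedAddCommGroup E] [InnerProductSpace ℂ E] [CompleteSpace E]

theorem gp12_tau_comm {S H X : E →L[ℂ] E} (hH : S * H = H * S) (hX : S * X = X * S) (t : ℝ) :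
    S * tau H t X = tau H t X * S := by
  have h1 : ∀ z : ℂ, Commute S (NormedSpace.exp (z • H)) := fun z =>
    Commute.exp_right ((show Commute S H from hH).smul_right z)
  unfold tau
  exact (((h1 _).mul_right (show Commute S X from hX)).mul_right (h1 _)).eq

theorem gp12_KK_comm {S H X : E →L[ℂ] E} (hH : S * H = H * S) (hX : S * X = X * S) {w : ℝ → ℝ}
    (hw : Continuous w) (T : ℝ) : S * KK H w T X = KK H w T X * S := by
  have h1 := ContinuousLinearMap.intervalIntegral_comp_comm (a := 0) (b := T)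
    (μ := MeasureTheory.volume) (ContinuousLinearMap.mul ℝ (E →L[ℂ] E) S -
      (ContinuousLinearMap.mul ℝ (E →L[ℂ] E)).flip S)
    ((gp12_integrand_cont H X hw).intervalIntegrable 0 T)
  have h2 : ∀ Y : E →L[ℂ] E, (ContinuousLinearMap.mul ℝ (E →L[ℂ] E) S -
      (ContinuousLinearMap.mul ℝ (E →L[ℂ] E)).flip S) Y = S * Y - Y * S := fun Y => rfl
  simp only [h2] at h1
  have h3 : ∀ t : ℝ, S * (w t • (tau H t X - tau H (-t) X)) -
      (w t • (tau H t X - tau H (-t) X)) * S = 0 := by
    intro t
    rw [mul_smul_comm, smul_mul_assoc, mul_sub, sub_mul, gp12_tau_comm hH hX,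
      gp12_tau_comm hH hX, sub_self]
  simp only [h3, intervalIntegral.integral_zero] at h1
  unfold KK
  rw [mul_smul_comm, smul_mul_assoc, sub_eq_zero.1 h1.symm]

theorem gp12_KK_cont {S : Type} [TopologicalSpace S] {H X : S → E →L[ℂ] E} (hH : Continuous H)
    (hX : Continuous X) {w : ℝ → ℝ} (hw : Continuous w) (T : ℝ) :
    Continuous fun s => KK (H s) w T (X s) := by
  unfold KK
  have h1 : Continuous fun p : S × ℝ => tau (H p.1) p.2 (X p.1) :=
    gp12_tau_cont₂ (hH.comp continuous_fst) (hX.comp continuous_fst) continuous_snd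
  have h2 : Continuous fun p : S × ℝ => tau (H p.1) (-p.2) (X p.1) :=
    gp12_tau_cont₂ (hH.comp continuous_fst) (hX.comp continuous_fst) continuous_snd.neg
  have key : Continuous fun s => ∫ t in (0 : ℝ)..T,
      w t • (tau (H s) t (X s) - tau (H s) (-t) (X s)) :=
    intervalIntegral.continuous_parametric_intervalIntegral_of_continuous'
      (f := fun (s : S) (t : ℝ) => w t • (tau (H s) t (X s) - tau (H s) (-t) (X s)))
      ((hw.comp continuous_snd).smul (h1.sub h2)) 0 T
  exact key.const_smul (1 / 2 : ℝ)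

end Abstract

section Torus

open Pool.Agent.PEPS953

variable {d L r : ℕ} [NeZero L]

theorem gp12_box_dist (u : Site L) (p : Box r) : sdist u (boxPos L r u p) < r := by
  have h : ∀ (x : ZMod L) (q : Fin r), cdist x (x + ((q : ℕ) : ZMod L)) < r := by
    intro x q
    have h1 : x - (x + ((q : ℕ) : ZMod L)) = ((-((q : ℕ) : ℤ) : ℤ) : ZMod L) := by
      push_cast
      ring
    have h2 := cdist_le_int _ _ _ h1
    have hq := q.2
    omega
  unfold sdist boxPos
  exact max_lt (h _ _) (h _ _)

theorem gp12_box_ball {ρ : ℕ} {v u : Site L} (hu : u ∈ LT.ball ρ {v}) :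
    (univ : Finset (Box r)).image (boxPos L r u) ⊆ LT.ball (ρ + r) {v} := by
  intro x hx
  rw [mem_image] at hx
  obtain ⟨p, _, rfl⟩ := hx
  unfold LT.ball at hu ⊢
  rw [mem_filter] at hu ⊢
  obtain ⟨_, v', hv', hd⟩ := hu
  refine ⟨mem_univ _, v', hv', ?_⟩
  have h1 := sdist_triangle v' u (boxPos L r u p)
  have h2 := gp12_box_dist u p
  omega

/-- GP12 (the filtered terms). -/
theorem KV_local (hrL : r ≤ L) (h h' : Site L → Matrix (LConf d r) (LConf d r) ℂ) {w : ℝ → ℝ}
    (hw : Continuous w) (T : ℝ) (ρ : ℕ) (v : Site L) :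
    LocalOn (LT.ball (ρ + r) {v}) (KV h h' w T (LT.ball ρ {v}) v) := by
  intro u hu a b
  have hvb : v ∈ LT.ball ρ {v} := by
    unfold LT.ball
    rw [mem_filter]
    exact ⟨mem_univ _, v, mem_singleton_self v, by rw [sdist_self']; exact Nat.zero_le _⟩
  have hloc : ∀ (o : Matrix (LConf d r) (LConf d r) ℂ), ∀ x ∈ LT.ball ρ {v},
      su u a b * locOp L o x = locOp L o x * su u a b := fun o x hx =>
    ((locOp_localOn hrL o x).mono (gp12_box_ball hx)) u hu a b
  refine gp12_KK_comm ?_ (hloc (h' v) v hvb) hw T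
  unfold hamS
  rw [Finset.mul_sum, Finset.sum_mul]
  exact Finset.sum_congr rfl fun x hx => hloc (h x) x hx

theorem gp12_locOp_cont {h : ℝ → Matrix (LConf d r) (LConf d r) ℂ} (hh : Continuous h)
    (v : Site L) : Continuous fun s => locOp L (h s) v := by
  have h1 : (fun s => locOp L (h s) v) =
      fun s => ∑ p : LConf d r × LConf d r, h s p.1 p.2 • elem v p.1 p.2 := by
    funext s
    exact locOp_eq_sum (h s) v
  rw [h1]
  refine continuous_finsetSum _ fun p _ => ?_
  exact (hh.matrix_elem p.1 p.2).smul continuous_const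

theorem KV_cont {h h' : Site L → ℝ → Matrix (LConf d r) (LConf d r) ℂ}
    (hh : ∀ v, Continuous (h v)) (hh' : ∀ v, Continuous (h' v)) {w : ℝ → ℝ} (hw : Continuous w)
    (T : ℝ) (𝒯 : Finset (Site L)) (v : Site L) :
    Continuous fun s => KV (fun u => h u s) (fun u => h' u s) w T 𝒯 v := by
  unfold KV
  refine gp12_KK_cont ?_ (gp12_locOp_cont (hh' v) v) hw T
  unfold hamS
  exact continuous_finsetSum _ fun x _ => gp12_locOp_cont (hh x) x

end Torus

end Pool.Agent.FFG.GP
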