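import Pool.Agent.FFG.GP.Defs

/-!
# The filtered terms: norms, self-adjointness, sums
-/

open Finset
open scoped InnerProductSpace

set_option autoImplicit false
set_option linter.unusedSectionVars false
set_option linter.unusedVariables false

namespace Pool.Agent.FFG.GP

/-! ### Evolutions -/

section Abstract

variable {E : Type} [NormedAddCommGroup E] [InnerProductSpace ℂ E] [CompleteSpace E]

theorem gp12_sum_sa {A : Type} [Ring A] [StarRing A] {ι : Type} (s : Finset ι) (f : ι → A)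
    (h : ∀ i ∈ s, IsSelfAdjoint (f i)) : IsSelfAdjoint (∑ i ∈ s, f i) :=
  Finset.sum_induction _ IsSelfAdjoint (fun _ _ => IsSelfAdjoint.add)
    (IsSelfAdjoint.zero _) h

theorem gp12_exp_cont : Continuous (NormedSpace.exp : (E →L[ℂ] E) → (E →L[ℂ] E)) := by
  letI : NormedAlgebra ℚ (E →L[ℂ] E) := NormedAlgebra.restrictScalars ℚ ℂ _
  exact NormedSpace.exp_continuous

theorem gp12_exp_add (z w : ℂ) (H : E →L[ℂ] E) :
    NormedSpace.exp ((z + w) • H) = NormedSpace.exp (z • H) * NormedSpace.exp (w • H) := by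
  letI : NormedAlgebra ℚ (E →L[ℂ] E) := NormedAlgebra.restrictScalars ℚ ℂ _
  rw [add_smul]
  exact NormedSpace.exp_add_of_commute (((Commute.refl H).smul_left z).smul_right w)

theorem gp12_exp_neg_mul (z : ℂ) (H : E →L[ℂ] E) :
    NormedSpace.exp ((-z) • H) * NormedSpace.exp (z • H) = 1 := by
  rw [← gp12_exp_add, neg_add_cancel, zero_smul, NormedSpace.exp_zero]

theorem gp12_star_exp {H : E →L[ℂ] E} (hH : IsSelfAdjoint H) (t : ℝ) :
    star (NormedSpace.exp ((t * Complex.I : ℂ) • H)) =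
      NormedSpace.exp ((-(t * Complex.I) : ℂ) • H) := by
  rw [NormedSpace.star_exp, star_smul, hH.star_eq]
  congr 2
  simp

theorem gp12_star_exp' {H : E →L[ℂ] E} (hH : IsSelfAdjoint H) (t : ℝ) :
    star (NormedSpace.exp ((-(t * Complex.I) : ℂ) • H)) =
      NormedSpace.exp ((t * Complex.I : ℂ) • H) := by
  rw [← gp12_star_exp hH, star_star]

theorem gp12_exp_norm {H : E →L[ℂ] E} (hH : IsSelfAdjoint H) (t : ℝ) :
    ‖NormedSpace.exp ((t * Complex.I : ℂ) • H)‖ ≤ 1 := by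
  have h1 : star (NormedSpace.exp ((t * Complex.I : ℂ) • H)) *
      NormedSpace.exp ((t * Complex.I : ℂ) • H) = 1 := by
    rw [gp12_star_exp hH, gp12_exp_neg_mul]
  have h2 := CStarRing.norm_star_mul_self (x := NormedSpace.exp ((t * Complex.I : ℂ) • H))
  rw [h1] at h2
  have h3 : ‖(1 : E →L[ℂ] E)‖ ≤ 1 := ContinuousLinearMap.norm_id_le
  have h4 : 0 ≤ ‖NormedSpace.exp ((t * Complex.I : ℂ) • H)‖ := norm_nonneg _
  nlinarith

theorem gp12_exp_norm' {H : E →L[ℂ] E} (hH : IsSelfAdjoint H) (t : ℝ) :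
    ‖NormedSpace.exp ((-(t * Complex.I) : ℂ) • H)‖ ≤ 1 := by
  have h := gp12_exp_norm hH (-t)
  have e : (((-t : ℝ) : ℂ) * Complex.I) = -(t * Complex.I) := by
    push_cast
    ring
  rwa [e] at h

theorem gp12_tau_norm {H : E →L[ℂ] E} (hH : IsSelfAdjoint H) (t : ℝ) (X : E →L[ℂ] E) :
    ‖tau H t X‖ ≤ ‖X‖ := by
  unfold tau
  calc ‖NormedSpace.exp ((t * Complex.I : ℂ) • H) * X *
        NormedSpace.exp ((-(t * Complex.I) : ℂ) • H)‖
      ≤ ‖NormedSpace.exp ((t * Complex.I : ℂ) • H)‖ * ‖X‖ *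
        ‖NormedSpace.exp ((-(t * Complex.I) : ℂ) • H)‖ :=
        (norm_mul_le _ _).trans (mul_le_mul_of_nonneg_right (norm_mul_le _ _) (norm_nonneg _))
    _ ≤ 1 * ‖X‖ * 1 :=
        mul_le_mul (mul_le_mul_of_nonneg_right (gp12_exp_norm hH t) (norm_nonneg _))
          (gp12_exp_norm' hH t) (norm_nonneg _) (by positivity)
    _ = ‖X‖ := by ring

theorem gp12_tau_sa {H X : E →L[ℂ] E} (hH : IsSelfAdjoint H) (hX : IsSelfAdjoint X) (t : ℝ) :
    star (tau H t X) = tau H t X := by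
  unfold tau
  rw [star_mul, star_mul, gp12_star_exp hH, gp12_star_exp' hH, hX.star_eq, mul_assoc]

theorem gp12_tau_sum {ι : Type} (H : E →L[ℂ] E) (t : ℝ) (s : Finset ι) (X : ι → E →L[ℂ] E) :
    tau H t (∑ v ∈ s, X v) = ∑ v ∈ s, tau H t (X v) := by
  unfold tau
  rw [Finset.mul_sum, Finset.sum_mul]

theorem gp12_tau_cont₂ {S : Type} [TopologicalSpace S] {H X : S → E →L[ℂ] E} (hH : Continuous H)
    (hX : Continuous X) {t : S → ℝ} (ht : Continuous t) :
    Continuous fun s => tau (H s) (t s) (X s) := by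
  unfold tau
  have h1 : Continuous fun s => NormedSpace.exp (((t s : ℝ) * Complex.I : ℂ) • H s) :=
    gp12_exp_cont.comp (((Complex.continuous_ofReal.comp ht).mul continuous_const).smul hH)
  have h2 : Continuous fun s => NormedSpace.exp ((-((t s : ℝ) * Complex.I) : ℂ) • H s) :=
    gp12_exp_cont.comp (((Complex.continuous_ofReal.comp ht).mul continuous_const).neg.smul hH)
  exact (h1.mul hX).mul h2

/-- the integrand of the filtered operator is continuous -/
theorem gp12_integrand_cont (H X : E →L[ℂ] E) {w : ℝ → ℝ} (hw : Continuous w) :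
    Continuous fun t : ℝ => w t • (tau H t X - tau H (-t) X) :=
  hw.smul ((gp12_tau_cont₂ continuous_const continuous_const continuous_id).sub
    (gp12_tau_cont₂ continuous_const continuous_const continuous_neg))

theorem gp12_KK_norm {H : E →L[ℂ] E} (hH : IsSelfAdjoint H) (X : E →L[ℂ] E) {w : ℝ → ℝ}
    (hw1 : ∀ t, 0 ≤ w t ∧ w t ≤ 1) {T : ℝ} (hT : 0 ≤ T) : ‖KK H w T X‖ ≤ T * ‖X‖ := by
  unfold KK
  have h1 : ‖∫ t in (0 : ℝ)..T, w t • (tau H t X - tau H (-t) X)‖ ≤ (2 * ‖X‖) * |T - 0| := by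
    refine intervalIntegral.norm_integral_le_of_norm_le_const fun t _ => ?_
    rw [norm_smul, Real.norm_eq_abs, abs_of_nonneg (hw1 t).1]
    have h2 : ‖tau H t X - tau H (-t) X‖ ≤ 2 * ‖X‖ := by
      have h3 := norm_sub_le (tau H t X) (tau H (-t) X)
      have h4 := gp12_tau_norm hH t X
      have h5 := gp12_tau_norm hH (-t) X
      linarith
    calc w t * ‖tau H t X - tau H (-t) X‖ ≤ 1 * (2 * ‖X‖) :=
          mul_le_mul (hw1 t).2 h2 (norm_nonneg _) zero_le_one
      _ = 2 * ‖X‖ := one_mul _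
  rw [sub_zero, abs_of_nonneg hT] at h1
  rw [norm_smul, Real.norm_eq_abs, abs_of_pos (by norm_num : (0 : ℝ) < 1 / 2)]
  linarith

theorem gp12_KK_sa {H X : E →L[ℂ] E} (hH : IsSelfAdjoint H) (hX : IsSelfAdjoint X) {w : ℝ → ℝ}
    (hw : Continuous w) (T : ℝ) : IsSelfAdjoint (KK H w T X) := by
  unfold KK
  have hstar : star (∫ t in (0 : ℝ)..T, w t • (tau H t X - tau H (-t) X)) =
      ∫ t in (0 : ℝ)..T, w t • (tau H t X - tau H (-t) X) := by
    have h1 := ContinuousLinearMap.intervalIntegral_comp_comm (a := 0) (b := T)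
      (μ := MeasureTheory.volume) ((starL' ℝ : (E →L[ℂ] E) ≃L[ℝ] (E →L[ℂ] E)) :
        (E →L[ℂ] E) →L[ℝ] (E →L[ℂ] E))
      ((gp12_integrand_cont H X hw).intervalIntegrable 0 T)
    change ∫ t in (0 : ℝ)..T, star (w t • (tau H t X - tau H (-t) X)) =
      star (∫ t in (0 : ℝ)..T, w t • (tau H t X - tau H (-t) X)) at h1
    rw [← h1]
    refine intervalIntegral.integral_congr fun t _ => ?_
    change star (w t • (tau H t X - tau H (-t) X)) = w t • (tau H t X - tau H (-t) X)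
    rw [star_smul, star_sub, gp12_tau_sa hH hX, gp12_tau_sa hH hX, star_trivial]
  rw [isSelfAdjoint_iff, star_smul, hstar, star_trivial]

theorem gp12_KK_sum {ι : Type} (H : E →L[ℂ] E) {w : ℝ → ℝ} (hw : Continuous w) (T : ℝ)
    (s : Finset ι) (X : ι → E →L[ℂ] E) :
    KK H w T (∑ v ∈ s, X v) = ∑ v ∈ s, KK H w T (X v) := by
  unfold KK
  rw [← Finset.smul_sum, ← intervalIntegral.integral_finsetSum
    (fun v _ => (gp12_integrand_cont H (X v) hw).intervalIntegrable 0 T)]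
  congr 1
  refine intervalIntegral.integral_congr fun t _ => ?_
  change w t • (tau H t (∑ v ∈ s, X v) - tau H (-t) (∑ v ∈ s, X v)) =
    ∑ v ∈ s, w t • (tau H t (X v) - tau H (-t) (X v))
  rw [gp12_tau_sum, gp12_tau_sum, ← Finset.smul_sum, Finset.sum_sub_distrib]

end Abstract

section Torus

open Pool.Agent.PEPS953

variable {d L r : ℕ} [NeZero L]

theorem gp12_locOp_sa {h : Matrix (LConf d r) (LConf d r) ℂ} (hh : h.IsHermitian) (v : Site L) :
    IsSelfAdjoint (locOp L h v) := by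
  rw [isSelfAdjoint_iff]
  unfold locOp
  rw [← map_star, Matrix.star_eq_conjTranspose, translate_conjTranspose, hh.eq]

theorem gp12_hamS_sa {h : Site L → Matrix (LConf d r) (LConf d r) ℂ}
    (hh : ∀ v, (h v).IsHermitian) (𝒯 : Finset (Site L)) : IsSelfAdjoint (hamS h 𝒯) := by
  unfold hamS
  exact gp12_sum_sa 𝒯 _ fun v _ => gp12_locOp_sa (hh v) v

theorem KV_norm (hrL : r ≤ L) {h h' : Site L → Matrix (LConf d r) (LConf d r) ℂ}
    (hh : ∀ v, (h v).IsHermitian) {w : ℝ → ℝ} (hw : Continuous w)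
    (hw1 : ∀ t, 0 ≤ w t ∧ w t ≤ 1) {T : ℝ} (hT : 0 ≤ T) (𝒯 : Finset (Site L)) (v : Site L) :
    ‖KV h h' w T 𝒯 v‖ ≤ T * entNorm (h' v) :=
  (gp12_KK_norm (gp12_hamS_sa hh 𝒯) _ hw1 hT).trans
    (mul_le_mul_of_nonneg_left (norm_locOp_le hrL _ _) hT)

theorem KV_sa (hrL : r ≤ L) {h h' : Site L → Matrix (LConf d r) (LConf d r) ℂ}
    (hh : ∀ v, (h v).IsHermitian) (hh' : ∀ v, (h' v).IsHermitian) {w : ℝ → ℝ}
    (hw : Continuous w) (T : ℝ) (𝒯 : Finset (Site L)) (v : Site L) :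
    IsSelfAdjoint (KV h h' w T 𝒯 v) :=
  gp12_KK_sa (gp12_hamS_sa hh 𝒯) (gp12_locOp_sa (hh' v) v) hw T

theorem KV_sum (h h' : Site L → Matrix (LConf d r) (LConf d r) ℂ) {w : ℝ → ℝ}
    (hw : Continuous w) (T : ℝ) :
    ∑ v, KV h h' w T univ v = KK (hamS h univ) w T (hamS h' univ) := by
  unfold KV
  rw [← gp12_KK_sum _ hw]
  rfl

end Torus

end Pool.Agent.FFG.GP
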