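import Pool.Agent.FFG.GP.Defs

/-!
# The derivative of the ground state projection
-/

open Finset
open scoped InnerProductSpace

set_option autoImplicit false
set_option linter.unusedSectionVars false
set_option linter.unusedVariables false
set_option linter.deprecated false

namespace Pool.Agent.FFG.GP

variable {E : Type} [NormedAddCommGroup E] [InnerProductSpace ℂ E] [CompleteSpace E]

lemma gp08_kb_apply (x y v : E) : kb x y v = ⟪y, v⟫_ℂ • x := rfl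

lemma gp08_norm_kb (x y : E) : ‖kb x y‖ ≤ ‖x‖ * ‖y‖ := by
  refine ContinuousLinearMap.opNorm_le_bound _ (by positivity) fun v => ?_
  rw [gp08_kb_apply, norm_smul]
  calc ‖⟪y, v⟫_ℂ‖ * ‖x‖ ≤ (‖y‖ * ‖v‖) * ‖x‖ :=
        mul_le_mul_of_nonneg_right (norm_inner_le_norm _ _) (norm_nonneg _)
    _ = ‖x‖ * ‖y‖ * ‖v‖ := by ring

lemma gp08_star_kb (x y : E) : star (kb x y) = kb y x := by
  rw [ContinuousLinearMap.star_eq_adjoint]
  symm
  rw [ContinuousLinearMap.eq_adjoint_iff]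
  intro u v
  rw [gp08_kb_apply, gp08_kb_apply, inner_smul_left, inner_smul_right, inner_conj_symm]
  ring

/-- The reduced resolvent. -/
lemma gp08_res [FiniteDimensional ℂ E] {H : E →L[ℂ] E} (hsa : IsSelfAdjoint H) {E₀ Δ : ℝ} {Ψ : E}
    (hΔ : 0 < Δ) (hgap : PEPS953.IsGappedGS H E₀ Δ Ψ) :
    ∃ R : E →L[ℂ] E, R Ψ = 0 ∧ (∀ v, R (H v - (E₀ : ℂ) • v) = v - ⟪Ψ, v⟫_ℂ • Ψ) ∧
      (∀ v, H (R v) - (E₀ : ℂ) • R v = v - ⟪Ψ, v⟫_ℂ • Ψ) ∧ (∀ v, ⟪Ψ, R v⟫_ℂ = 0) ∧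
      ∀ v, ‖R v‖ ≤ 1 / Δ * ‖v‖ := by
  have hH : (H : E →ₗ[ℂ] E).IsSymmetric := hsa.isSymmetric
  set b := hH.eigenvectorBasis rfl with hb
  set lam := hH.eigenvalues rfl with hlam
  have happ : ∀ i, H (b i) = (lam i : ℂ) • b i := fun i => hH.apply_eigenvectorBasis rfl i
  have hbn : ∀ i, ‖b i‖ = 1 := fun i => b.orthonormal.1 i
  have hb0 : ∀ i, b i ≠ 0 := fun i => by rw [← norm_ne_zero_iff, hbn i]; norm_num
  have hΨΨ : ⟪Ψ, Ψ⟫_ℂ = 1 := by rw [inner_self_eq_norm_sq_to_K, hgap.norm_eq]; simp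
  -- the components of `Ψ`
  have hP0 : ∀ i, lam i ≠ E₀ → ⟪Ψ, b i⟫_ℂ = 0 := by
    intro i hne
    have h4 : ⟪H Ψ, b i⟫_ℂ = ⟪Ψ, H (b i)⟫_ℂ := hH Ψ (b i)
    rw [hgap.eigen, happ, inner_smul_left, inner_smul_right] at h4
    rw [Complex.conj_ofReal] at h4
    have h5 : ((E₀ : ℂ) - lam i) * ⟪Ψ, b i⟫_ℂ = 0 := by rw [sub_mul, h4, sub_self]
    rcases mul_eq_zero.mp h5 with h6 | h6
    · exfalso
      apply hne
      have : (E₀ : ℂ) = lam i := sub_eq_zero.mp h6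
      exact_mod_cast this.symm
    · exact h6
  have hP1 : ∀ i, lam i = E₀ → ⟪Ψ, b i⟫_ℂ • Ψ = b i := by
    intro i hl
    rcases hgap.gap (lam i) (b i) (hb0 i) (happ i) with ⟨_, c, hc⟩ | h
    · rw [hc, inner_smul_right, hΨΨ, mul_one]
    · linarith
  set κ : Fin (Module.finrank ℂ E) → ℂ := fun i => if lam i = E₀ then 0 else 1 / ((lam i : ℂ) - E₀)
    with hκ
  set R : E →L[ℂ] E := ∑ i, κ i • kb (b i) (b i) with hR
  have hRb : ∀ i, R (b i) = κ i • b i := by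
    intro i
    rw [hR, ContinuousLinearMap.sum_apply, Finset.sum_eq_single i]
    · rw [ContinuousLinearMap.smul_apply, gp08_kb_apply, inner_self_eq_norm_sq_to_K, hbn i]
      simp
    · intro j _ hj
      rw [ContinuousLinearMap.smul_apply, gp08_kb_apply, b.orthonormal.2 hj, zero_smul, smul_zero]
    · intro h
      exact absurd (Finset.mem_univ i) h
  -- equality of linear maps on the basis
  have hext : ∀ S T : E →L[ℂ] E, (∀ i, S (b i) = T (b i)) → ∀ v, S v = T v := by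
    intro S T h v
    have h1 : (S : E →ₗ[ℂ] E) = T := by
      refine b.toBasis.ext fun i => ?_
      simpa using h i
    exact congrArg (fun f : E →ₗ[ℂ] E => f v) h1
  have hkey : ∀ i, (κ i * ((lam i : ℂ) - E₀)) • b i = b i - ⟪Ψ, b i⟫_ℂ • Ψ := by
    intro i
    by_cases hl : lam i = E₀
    · rw [hP1 i hl, hκ]
      simp [hl]
    · rw [hP0 i hl, hκ]
      have hne : ((lam i : ℂ) - E₀) ≠ 0 := by
        intro h
        apply hl
        have : (lam i : ℂ) = E₀ := sub_eq_zero.mp h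
        exact_mod_cast this
      simp only [if_neg hl]
      rw [one_div, inv_mul_cancel₀ hne]
      simp
  have hRΨ : R Ψ = 0 := by
    rw [hR, ContinuousLinearMap.sum_apply]
    refine Finset.sum_eq_zero fun i _ => ?_
    rw [ContinuousLinearMap.smul_apply, gp08_kb_apply]
    by_cases hl : lam i = E₀
    · rw [hκ]
      simp [hl]
    · rw [← inner_conj_symm, hP0 i hl]
      simp
  refine ⟨R, hRΨ, ?_, ?_, ?_, ?_⟩
  · have := hext (R * (H - (E₀ : ℂ) • 1)) (1 - kb Ψ Ψ) fun i => by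
      simp only [ContinuousLinearMap.mul_apply, ContinuousLinearMap.sub_apply,
        ContinuousLinearMap.smul_apply, ContinuousLinearMap.one_apply, happ, gp08_kb_apply]
      rw [← sub_smul, map_smul, hRb, smul_smul, ← hkey i, mul_comm]
    intro v
    have h := this v
    simpa only [ContinuousLinearMap.mul_apply, ContinuousLinearMap.sub_apply,
        ContinuousLinearMap.smul_apply, ContinuousLinearMap.one_apply, gp08_kb_apply] using h
  · have := hext ((H - (E₀ : ℂ) • 1) * R) (1 - kb Ψ Ψ) fun i => by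
      simp only [ContinuousLinearMap.mul_apply, ContinuousLinearMap.sub_apply,
        ContinuousLinearMap.smul_apply, ContinuousLinearMap.one_apply, gp08_kb_apply, hRb, map_smul,
        happ]
      rw [← hkey i]
      module
    intro v
    have h := this v
    simpa only [ContinuousLinearMap.mul_apply, ContinuousLinearMap.sub_apply,
        ContinuousLinearMap.smul_apply, ContinuousLinearMap.one_apply, gp08_kb_apply] using h
  · intro v
    rw [hR, ContinuousLinearMap.sum_apply, inner_sum]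
    refine Finset.sum_eq_zero fun i _ => ?_
    rw [ContinuousLinearMap.smul_apply, gp08_kb_apply, inner_smul_right, inner_smul_right]
    by_cases hl : lam i = E₀
    · rw [hκ]
      simp [hl]
    · rw [hP0 i hl]
      simp
  · intro v
    refine PEPS953.norm_le_of_diag b R κ hRb (1 / Δ) (by positivity) (fun i => ?_) v
    rw [hκ]
    by_cases hl : lam i = E₀
    · simp only [if_pos hl, norm_zero]
      positivity
    · simp only [if_neg hl]
      rcases hgap.gap (lam i) (b i) (hb0 i) (happ i) with ⟨h, _⟩ | h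
      · exact absurd h hl
      · have h1 : ((lam i : ℂ) - E₀) = ((lam i - E₀ : ℝ) : ℂ) := by push_cast; ring
        rw [norm_div, norm_one, h1, Complex.norm_real, Real.norm_eq_abs,
          abs_of_pos (by linarith)]
        apply one_div_le_one_div_of_le hΔ
        linarith

/-- The expansion of the ground state projection of a perturbed Hamiltonian. -/
lemma gp08_expand [FiniteDimensional ℂ E] {H H₁ : E →L[ℂ] E} (hsa : IsSelfAdjoint H)
    (hsa₁ : IsSelfAdjoint H₁) {E₀ E₁ Δ : ℝ} {Ψ x : E} (hΔ : 0 < Δ)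
    (hgap : PEPS953.IsGappedGS H E₀ Δ Ψ) (hgap₁ : PEPS953.IsGappedGS H₁ E₁ Δ x)
    {R : E →L[ℂ] E} (hRΨ : R Ψ = 0) (hR1 : ∀ v, R (H v - (E₀ : ℂ) • v) = v - ⟪Ψ, v⟫_ℂ • Ψ)
    (hRn : ∀ v, ‖R v‖ ≤ 1 / Δ * ‖v‖) :
    ‖kb x x - (kb Ψ Ψ - kb (R ((H₁ - H) Ψ)) Ψ - kb Ψ (R ((H₁ - H) Ψ)))‖ ≤
      20 / Δ ^ 2 * ‖H₁ - H‖ ^ 2 := by
  set A := H₁ - H with hA
  set a := ‖A‖ with ha
  have ha0 : 0 ≤ a := norm_nonneg _
  have hΨΨ : ⟪Ψ, Ψ⟫_ℂ = 1 := by rw [inner_self_eq_norm_sq_to_K, hgap.norm_eq]; simp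
  set c := ⟪Ψ, x⟫_ℂ with hc
  set q := x - c • Ψ with hq
  have hx : x = c • Ψ + q := by rw [hq]; abel
  have hΨq : ⟪Ψ, q⟫_ℂ = 0 := by
    rw [hq, inner_sub_right, inner_smul_right, hΨΨ, mul_one, sub_self]
  have hnorm : 1 = ‖c‖ ^ 2 + ‖q‖ ^ 2 := by
    have h3 := norm_add_sq_eq_norm_sq_add_norm_sq_of_inner_eq_zero (𝕜 := ℂ) (c • Ψ) q
      (by rw [inner_smul_left, hΨq, mul_zero])
    rw [← hx, norm_smul, hgap.norm_eq, hgap₁.norm_eq, mul_one] at h3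
    nlinarith [h3]
  have hq1 : ‖q‖ ≤ 1 := by
    have : ‖q‖ ^ 2 ≤ 1 ^ 2 := by nlinarith [sq_nonneg ‖c‖]
    exact le_of_sq_le_sq this zero_le_one
  have hc1 : ‖c‖ ≤ 1 := by
    have : ‖c‖ ^ 2 ≤ 1 ^ 2 := by nlinarith [sq_nonneg ‖q‖]
    exact le_of_sq_le_sq this zero_le_one
  have hAv : ∀ v, ‖A v‖ ≤ a * ‖v‖ := fun v => A.le_opNorm v
  -- the energies
  have hδ1 : E₁ ≤ E₀ + a := by
    have h1 := hgap₁.energy_ge hsa₁.isSymmetric Ψ
    have h2 : ‖⟪x, Ψ⟫_ℂ‖ ≤ 1 := by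
      have := norm_inner_le_norm (𝕜 := ℂ) x Ψ
      rwa [hgap.norm_eq, hgap₁.norm_eq, mul_one] at this
    have h3 : (⟪Ψ, H₁ Ψ⟫_ℂ).re = E₀ + (⟪Ψ, A Ψ⟫_ℂ).re := by
      have : H₁ Ψ = H Ψ + A Ψ := by rw [hA]; simp
      rw [this, inner_add_right, hgap.eigen, inner_smul_right, hΨΨ]
      simp
    have h4 : (⟪Ψ, A Ψ⟫_ℂ).re ≤ a := by
      refine (Complex.re_le_norm _).trans ((norm_inner_le_norm _ _).trans ?_)
      rw [hgap.norm_eq, one_mul]
      simpa [hgap.norm_eq] using hAv Ψ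
    rw [h3, hgap.norm_eq] at h1
    have h5 : 0 ≤ Δ * (1 ^ 2 - ‖⟪x, Ψ⟫_ℂ‖ ^ 2) := by
      apply mul_nonneg hΔ.le
      nlinarith [norm_nonneg ⟪x, Ψ⟫_ℂ]
    linarith
  have hxx : ⟪x, x⟫_ℂ = 1 := by rw [inner_self_eq_norm_sq_to_K, hgap₁.norm_eq]; simp
  have hδ2 : E₀ ≤ E₁ + a := by
    have h1 := hgap.energy_ge hsa.isSymmetric x
    have h3 : (⟪x, H x⟫_ℂ).re = E₁ - (⟪x, A x⟫_ℂ).re := by
      have : H x = H₁ x - A x := by rw [hA]; simp
      rw [this, inner_sub_right, hgap₁.eigen, inner_smul_right, hxx]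
      simp
    have h4 : -(⟪x, A x⟫_ℂ).re ≤ a := by
      have h6 : |(⟪x, A x⟫_ℂ).re| ≤ a := by
        refine (Complex.abs_re_le_norm _).trans ((norm_inner_le_norm _ _).trans ?_)
        rw [hgap₁.norm_eq, one_mul]
        simpa [hgap₁.norm_eq] using hAv x
      exact (neg_le_abs _).trans h6
    rw [h3, hgap₁.norm_eq] at h1
    have h5 : 0 ≤ Δ * (1 ^ 2 - ‖⟪Ψ, x⟫_ℂ‖ ^ 2) := by
      apply mul_nonneg hΔ.le
      have : ‖⟪Ψ, x⟫_ℂ‖ ≤ 1 := hc1
      nlinarith [norm_nonneg ⟪Ψ, x⟫_ℂ]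
    linarith
  set δ : ℝ := E₁ - E₀ with hδ
  have hδa : |δ| ≤ a := by rw [abs_le, hδ]; constructor <;> linarith
  -- `q` and the reduced resolvent
  have hqR : q = -R (A x - (δ : ℂ) • x) := by
    have h1 : H x - (E₀ : ℂ) • x = -(A x - (δ : ℂ) • x) := by
      have : H x = H₁ x - A x := by rw [hA]; simp
      rw [this, hgap₁.eigen, hδ]
      push_cast
      module
    have h2 := hR1 x
    rw [h1, map_neg] at h2
    rw [h2]
  have hqn : ‖q‖ ≤ 2 * a / Δ := by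
    rw [hqR, norm_neg]
    refine (hRn _).trans ?_
    have h1 : ‖A x - (δ : ℂ) • x‖ ≤ a + a := by
      refine (norm_sub_le _ _).trans (add_le_add ?_ ?_)
      · simpa [hgap₁.norm_eq] using hAv x
      · rw [norm_smul, hgap₁.norm_eq, mul_one, Complex.norm_real, Real.norm_eq_abs]
        exact hδa
    calc 1 / Δ * ‖A x - (δ : ℂ) • x‖ ≤ 1 / Δ * (a + a) := by gcongr
      _ = _ := by ring
  set z := (starRingEnd ℂ) c • q with hz
  have hzq : ‖z‖ ≤ ‖q‖ := by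
    rw [hz, norm_smul, RCLike.norm_conj]
    exact mul_le_of_le_one_left (norm_nonneg _) hc1
  have hcc : (starRingEnd ℂ) c * c = ((1 - ‖q‖ ^ 2 : ℝ) : ℂ) := by
    rw [Complex.conj_mul']
    norm_cast
    linarith
  have hcx : (starRingEnd ℂ) c • x = ((1 - ‖q‖ ^ 2 : ℝ) : ℂ) • Ψ + z := by
    rw [hz, ← hcc, mul_smul, ← smul_add, ← hx]
  have hzR : z + R (A Ψ) = ((‖q‖ ^ 2 : ℝ) : ℂ) • R (A Ψ) - R (A z) + (δ : ℂ) • R z := by
    have h1 : z = -R (A ((starRingEnd ℂ) c • x) - (δ : ℂ) • ((starRingEnd ℂ) c • x)) := by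
      rw [hz]
      conv_lhs => rw [hqR]
      rw [smul_neg, ← map_smul]
      congr 2
      rw [smul_sub, map_smul, smul_comm]
    rw [hcx] at h1
    have h2 : R (A (((1 - ‖q‖ ^ 2 : ℝ) : ℂ) • Ψ + z) -
        (δ : ℂ) • (((1 - ‖q‖ ^ 2 : ℝ) : ℂ) • Ψ + z)) =
        ((1 - ‖q‖ ^ 2 : ℝ) : ℂ) • R (A Ψ) + R (A z) - (δ : ℂ) • R z := by
      simp only [map_add, map_sub, map_smul, hRΨ, smul_zero, zero_add]
    rw [h2] at h1
    conv_lhs => rw [h1]
    push_cast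
    module
  have hzn : ‖z + R (A Ψ)‖ ≤ 3 * a * ‖q‖ / Δ := by
    have hRA : ‖R (A Ψ)‖ ≤ 1 / Δ * a := by
      refine (hRn _).trans ?_
      have : ‖A Ψ‖ ≤ a := by simpa [hgap.norm_eq] using hAv Ψ
      gcongr
    have hRAz : ‖R (A z)‖ ≤ 1 / Δ * (a * ‖q‖) := by
      refine (hRn _).trans ?_
      have : ‖A z‖ ≤ a * ‖q‖ := (hAv z).trans (by gcongr)
      gcongr
    have hRz : ‖(δ : ℂ) • R z‖ ≤ a * (1 / Δ * ‖q‖) := by
      rw [norm_smul, Complex.norm_real, Real.norm_eq_abs]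
      have : ‖R z‖ ≤ 1 / Δ * ‖q‖ := (hRn z).trans (by gcongr)
      gcongr
    have h0 : ‖((‖q‖ ^ 2 : ℝ) : ℂ) • R (A Ψ)‖ ≤ ‖q‖ * (1 / Δ * a) := by
      rw [norm_smul, Complex.norm_real, Real.norm_eq_abs, abs_of_nonneg (by positivity)]
      have : ‖q‖ ^ 2 ≤ ‖q‖ := by nlinarith [norm_nonneg q]
      gcongr
    rw [hzR]
    calc ‖((‖q‖ ^ 2 : ℝ) : ℂ) • R (A Ψ) - R (A z) + (δ : ℂ) • R z‖
        ≤ ‖((‖q‖ ^ 2 : ℝ) : ℂ) • R (A Ψ)‖ + ‖R (A z)‖ + ‖(δ : ℂ) • R z‖ :=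
          (norm_add_le _ _).trans (add_le_add_left (norm_sub_le _ _) _)
      _ ≤ ‖q‖ * (1 / Δ * a) + 1 / Δ * (a * ‖q‖) + a * (1 / Δ * ‖q‖) := by gcongr
      _ = _ := by ring
  -- the expansion
  have hexp : kb x x - (kb Ψ Ψ - kb (R (A Ψ)) Ψ - kb Ψ (R (A Ψ))) =
      -((((‖q‖ ^ 2 : ℝ) : ℂ)) • kb Ψ Ψ) + kb (z + R (A Ψ)) Ψ + kb Ψ (z + R (A Ψ)) + kb q q := by
    ext v
    simp only [ContinuousLinearMap.sub_apply, ContinuousLinearMap.neg_apply,
      ContinuousLinearMap.add_apply, ContinuousLinearMap.smul_apply, gp08_kb_apply,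
      inner_add_left]
    have e1 : ⟪x, v⟫_ℂ • x = ((1 - ‖q‖ ^ 2 : ℝ) : ℂ) • (⟪Ψ, v⟫_ℂ • Ψ) + ⟪Ψ, v⟫_ℂ • z +
        ⟪z, v⟫_ℂ • Ψ + ⟪q, v⟫_ℂ • q := by
      rw [← hcc, hz]
      conv_lhs => rw [hx]
      rw [inner_add_left, inner_smul_left, inner_smul_left, Complex.conj_conj]
      module
    rw [e1]
    push_cast
    module
  rw [hexp]
  have hPn : ‖kb Ψ Ψ‖ ≤ 1 := by simpa [hgap.norm_eq] using gp08_norm_kb Ψ Ψ
  have n1 : ‖-((((‖q‖ ^ 2 : ℝ) : ℂ)) • kb Ψ Ψ)‖ ≤ ‖q‖ ^ 2 := by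
    rw [norm_neg, norm_smul, Complex.norm_real, Real.norm_eq_abs, abs_of_nonneg (by positivity)]
    exact mul_le_of_le_one_right (by positivity) hPn
  have n2 : ‖kb (z + R (A Ψ)) Ψ‖ ≤ 3 * a * ‖q‖ / Δ := by
    refine (gp08_norm_kb _ _).trans ?_
    rw [hgap.norm_eq, mul_one]
    exact hzn
  have n3 : ‖kb Ψ (z + R (A Ψ))‖ ≤ 3 * a * ‖q‖ / Δ := by
    refine (gp08_norm_kb _ _).trans ?_
    rw [hgap.norm_eq, one_mul]
    exact hzn
  have n4 : ‖kb q q‖ ≤ ‖q‖ ^ 2 := (gp08_norm_kb _ _).trans_eq (pow_two _).symm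
  have hq2 : ‖q‖ ^ 2 ≤ (2 * a / Δ) ^ 2 := by gcongr
  have hq3 : 3 * a * ‖q‖ / Δ ≤ 3 * a * (2 * a / Δ) / Δ := by gcongr
  calc _ ≤ ‖q‖ ^ 2 + 3 * a * ‖q‖ / Δ + 3 * a * ‖q‖ / Δ + ‖q‖ ^ 2 :=
        (norm_add_le _ _).trans (add_le_add ((norm_add_le _ _).trans (add_le_add
          ((norm_add_le _ _).trans (add_le_add n1 n2)) n3)) n4)
    _ ≤ (2 * a / Δ) ^ 2 + 3 * a * (2 * a / Δ) / Δ + 3 * a * (2 * a / Δ) / Δ + (2 * a / Δ) ^ 2 := by
        gcongr
    _ = 20 / Δ ^ 2 * a ^ 2 := by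
        field_simp
        ring

/-- GP8 (the derivative of the ground state projection). -/
theorem proj_deriv [FiniteDimensional ℂ E] {H : ℝ → E →L[ℂ] E}
    (hsa : ∀ t ∈ Set.Icc (0 : ℝ) 1, IsSelfAdjoint (H t)) {E₀ : ℝ → ℝ} {Ψ : ℝ → E} {Δ : ℝ}
    (hΔ : 0 < Δ) (hgap : ∀ t ∈ Set.Icc (0 : ℝ) 1, PEPS953.IsGappedGS (H t) (E₀ t) Δ (Ψ t)) {s : ℝ}
    (hs : s ∈ Set.Icc (0 : ℝ) 1) {H' : E →L[ℂ] E}
    (hd : HasDerivWithinAt H H' (Set.Icc 0 1) s) :
    ∃ y : E, ⟪Ψ s, y⟫_ℂ = 0 ∧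
      H s y - (E₀ s : ℂ) • y = H' (Ψ s) - ⟪Ψ s, H' (Ψ s)⟫_ℂ • Ψ s ∧
      HasDerivWithinAt (fun t => kb (Ψ t) (Ψ t)) (-(kb y (Ψ s) + kb (Ψ s) y)) (Set.Icc 0 1) s := by
  obtain ⟨R, hRΨ, hR1, hR2, hR3, hRn⟩ := gp08_res (hsa s hs) hΔ (hgap s hs)
  refine ⟨R (H' (Ψ s)), hR3 _, hR2 _, ?_⟩
  set P := kb (Ψ s) (Ψ s) with hP
  -- the linear part
  have hRBP : ∀ B : E →L[ℂ] E, R * B * P = kb (R (B (Ψ s))) (Ψ s) := by
    intro B
    ext v
    simp only [ContinuousLinearMap.mul_apply, hP, gp08_kb_apply, map_smul]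
  set G : ℝ → E →L[ℂ] E := fun t => P - R * (H t - H s) * P - star (R * (H t - H s) * P) with hG
  have hGd : HasDerivWithinAt G (-(kb (R (H' (Ψ s))) (Ψ s) + kb (Ψ s) (R (H' (Ψ s)))))
      (Set.Icc 0 1) s := by
    have h1 : HasDerivWithinAt (fun t => R * (H t - H s) * P) (R * H' * P) (Set.Icc 0 1) s :=
      ((hd.sub_const (H s)).const_mul R).mul_const P
    have h2 : HasDerivWithinAt (fun t => star (R * (H t - H s) * P)) (star (R * H' * P))
        (Set.Icc 0 1) s := h1.star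
    have h3 := ((h1.const_sub P).sub h2)
    have e : -(R * H' * P) - star (R * H' * P) =
        -(kb (R (H' (Ψ s))) (Ψ s) + kb (Ψ s) (R (H' (Ψ s)))) := by
      rw [hRBP, gp08_star_kb]
      abel
    rw [← e]
    exact h3
  -- the remainder
  have hrem : HasDerivWithinAt (fun t => kb (Ψ t) (Ψ t) - G t) 0 (Set.Icc 0 1) s := by
    have hbig : ∀ t ∈ Set.Icc (0 : ℝ) 1, ‖kb (Ψ t) (Ψ t) - G t‖ ≤
        20 / Δ ^ 2 * ‖H t - H s‖ ^ 2 := by
      intro t ht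
      have h1 := gp08_expand (hsa s hs) (hsa t ht) hΔ (hgap s hs) (hgap t ht) hRΨ hR1 hRn
      have h2 : G t = kb (Ψ s) (Ψ s) - kb (R ((H t - H s) (Ψ s))) (Ψ s) -
          kb (Ψ s) (R ((H t - H s) (Ψ s))) := by
        rw [hG]
        simp only
        rw [hRBP, gp08_star_kb]
      rw [h2]
      exact h1
    rw [hasDerivWithinAt_iff_isLittleO]
    have h0 : kb (Ψ s) (Ψ s) - G s = 0 := by
      rw [hG]
      simp [hP]
    have hO : (fun t => H t - H s) =O[nhdsWithin s (Set.Icc 0 1)] fun t => t - s := by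
      have h1 := (hasDerivWithinAt_iff_isLittleO.mp hd).isBigO
      have h2 : (fun t : ℝ => (t - s) • H') =O[nhdsWithin s (Set.Icc 0 1)] fun t => t - s := by
        refine Asymptotics.IsBigO.of_bound ‖H'‖ (Filter.Eventually.of_forall fun t => ?_)
        rw [norm_smul, mul_comm]
      exact (h1.add h2).congr_left fun t => sub_add_cancel _ _
    have hO2 : (fun t => ‖H t - H s‖ ^ 2) =O[nhdsWithin s (Set.Icc 0 1)] fun t => (t - s) ^ 2 := by
      have := hO.norm_left.pow 2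
      exact this
    have hO3 : (fun t => kb (Ψ t) (Ψ t) - G t) =O[nhdsWithin s (Set.Icc 0 1)]
        fun t => ‖H t - H s‖ ^ 2 := by
      refine Asymptotics.IsBigO.of_bound (20 / Δ ^ 2) ?_
      filter_upwards [self_mem_nhdsWithin] with t ht
      rw [Real.norm_of_nonneg (by positivity)]
      exact hbig t ht
    have hO4 : (fun t : ℝ => (t - s) ^ 2) =o[nhdsWithin s (Set.Icc 0 1)] fun t => t - s := by
      have h1 : (fun t : ℝ => (t - s) * (t - s)) =o[nhdsWithin s (Set.Icc 0 1)]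
          fun t => (1 : ℝ) * (t - s) := by
        refine Asymptotics.IsLittleO.mul_isBigO ?_ (Asymptotics.isBigO_refl _ _)
        rw [Asymptotics.isLittleO_one_iff]
        have h2 : Filter.Tendsto (fun t : ℝ => t - s) (nhds s) (nhds (s - s)) :=
          (continuous_id.sub continuous_const).tendsto s
        rw [sub_self] at h2
        exact h2.mono_left nhdsWithin_le_nhds
      simpa [pow_two] using h1
    have hfin := (hO3.trans hO2).trans_isLittleO hO4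
    refine hfin.congr_left fun t => ?_
    rw [h0, smul_zero, sub_zero, sub_zero]
  have h5 := hGd.add hrem
  rw [add_zero] at h5
  refine h5.congr (fun t _ => ?_) ?_
  · simp
  · simp

end Pool.Agent.FFG.GP
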