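import Pool.Agent.FFG.GP.Unitary
import Pool.Agent.FFG.GP.ProjDeriv
import Pool.Agent.FFG.GP.FilterGround
import Pool.Agent.FFG.GP.Compare
import Pool.Agent.FFG.GP.KVLocal
import Pool.Agent.FFG.GP.KVNorm
import Pool.Agent.FFG.GP.KVDiff

/-!
# GP18: the adiabatic evolution on one torus
-/

open Finset
open scoped InnerProductSpace

set_option autoImplicit false
set_option linter.unusedSectionVars false
set_option linter.unusedVariables false

namespace Pool.Agent.FFG.GP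

section Abstract

variable {E : Type} [NormedAddCommGroup E] [InnerProductSpace ℂ E] [CompleteSpace E]

lemma gp18_kb_apply (x y z : E) : kb x y z = ⟪y, z⟫_ℂ • x := by
  simp [kb]

lemma gp18_norm_kb (x y : E) : ‖kb x y‖ = ‖x‖ * ‖y‖ := by
  unfold kb
  rw [ContinuousLinearMap.norm_smulRight_apply, innerSL_apply_norm, mul_comm]

lemma gp18_mul_kb (A : E →L[ℂ] E) (x y : E) (B : E →L[ℂ] E) :
    A * kb x y * star B = kb (A x) (B y) := by
  ext z
  simp only [mul_apply_eq_comp, gp18_kb_apply, map_smul]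
  rw [ContinuousLinearMap.star_eq_adjoint, ContinuousLinearMap.adjoint_inner_right]

end Abstract

section Torus

open Pool.Agent.PEPS953

variable {d L r : ℕ} [NeZero L]

lemma gp18_entry {h : ℝ → Matrix (LConf d r) (LConf d r) ℂ}
    {h' : Matrix (LConf d r) (LConf d r) ℂ} {S : Set ℝ} {s : ℝ}
    (hd : HasDerivWithinAt h h' S s) (i j : LConf d r) :
    HasDerivWithinAt (fun t => h t i j) (h' i j) S s := by
  have h1 := (hasDerivWithinAt_pi (𝕜 := ℝ) (φ := h) (φ' := h')).mp hd i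
  exact (hasDerivWithinAt_pi.mp h1) j

lemma gp18_hasDeriv {h : Site L → ℝ → Matrix (LConf d r) (LConf d r) ℂ}
    {h' : Site L → Matrix (LConf d r) (LConf d r) ℂ} {S : Set ℝ} {s : ℝ}
    (hd : ∀ v, HasDerivWithinAt (h v) (h' v) S s) :
    HasDerivWithinAt (fun t => hamS (fun v => h v t) univ) (hamS h' univ) S s := by
  unfold hamS
  simp only [locOp_eq_sum]
  refine HasDerivWithinAt.fun_sum fun v _ => HasDerivWithinAt.fun_sum fun p _ => ?_
  exact HasDerivWithinAt.smul_const (gp18_entry (hd v) p.1 p.2)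
    (elem v p.1 p.2 : Hil d L →L[ℂ] Hil d L)

lemma gp18_sum_sa {ι : Type} {A : ι → Hil d L →L[ℂ] Hil d L} (𝒯 : Finset ι)
    (hA : ∀ v ∈ 𝒯, IsSelfAdjoint (A v)) : IsSelfAdjoint (∑ v ∈ 𝒯, A v) :=
  Finset.sum_induction _ (fun A : Hil d L →L[ℂ] Hil d L => IsSelfAdjoint A)
    (fun A B h1 h2 => IsSelfAdjoint.add (R := Hil d L →L[ℂ] Hil d L) (x := A) (y := B) h1 h2)
    (IsSelfAdjoint.zero (Hil d L →L[ℂ] Hil d L)) hA

lemma gp18_locOp_sa {h : Matrix (LConf d r) (LConf d r) ℂ} (hh : h.IsHermitian) (v : Site L) :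
    IsSelfAdjoint (locOp L h v) := by
  rw [isSelfAdjoint_iff]
  unfold locOp
  rw [← map_star, Matrix.star_eq_conjTranspose, translate_conjTranspose, hh.eq]

lemma gp18_norm_hamS (hrL : r ≤ L) {h : Site L → Matrix (LConf d r) (LConf d r) ℂ} {J : ℝ}
    (hJ : ∀ v, entNorm (h v) ≤ J) : ‖hamS h univ‖ ≤ (L : ℝ) ^ 2 * J := by
  unfold hamS
  refine (norm_sum_le _ _).trans ((Finset.sum_le_sum fun v _ =>
    (norm_locOp_le hrL (h v) v).trans (hJ v)).trans ?_)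
  rw [Finset.sum_const, Finset.card_univ, Fintype.card_prod, ZMod.card, nsmul_eq_mul,
    Nat.cast_mul, ← pow_two]

theorem adiabatic (hr : 0 < r) (hrL : r ≤ L) {h h' : Site L → ℝ → Matrix (LConf d r) (LConf d r) ℂ}
    (hh : ∀ v, Continuous (h v)) (hh' : ∀ v, Continuous (h' v))
    (hherm : ∀ v s, (h v s).IsHermitian) (hherm' : ∀ v s, (h' v s).IsHermitian)
    (hderiv : ∀ v, ∀ s ∈ Set.Icc (0 : ℝ) 1,
      HasDerivWithinAt (h v) (h' v s) (Set.Icc 0 1) s) {J J' : ℝ}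
    (hJ : ∀ v s, entNorm (h v s) ≤ J) (hJ' : ∀ v s, entNorm (h' v s) ≤ J') {Δ : ℝ} (hΔ : 0 < Δ)
    {E₀ : ℝ → ℝ} {Ψ : ℝ → Hil d L}
    (hgap : ∀ s ∈ Set.Icc (0 : ℝ) 1,
      IsGappedGS (hamS (fun v => h v s) univ) (E₀ s) Δ (Ψ s)) {w : ℝ → ℝ}
    (hw : Continuous w) (hw1 : ∀ t, 0 ≤ w t ∧ w t ≤ 1) {T ε : ℝ} (hT : 0 ≤ T)
    (hε : ∀ ω : ℝ, Δ ≤ |ω| → |(∫ t in (0 : ℝ)..T, w t * Real.sin (ω * t)) - 1 / ω| ≤ ε) (n ρ : ℕ)
    (hρ : (n + 1) * r ≤ ρ) {U : ℝ → Hil d L →L[ℂ] Hil d L}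
    (hU : Propag (fun s => ∑ v, KV (fun u => h u s) (fun u => h' u s) w T (LT.ball ρ {v}) v) U) :
    ∃ θ : ℂ, ‖θ‖ = 1 ∧ ‖Ψ 1 - θ • U 1 (Ψ 0)‖ ≤ 2 * (2 * ε * ((L : ℝ) ^ 2 * J') +
      2 * ((L : ℝ) ^ 2 * (T * ((L : ℝ) ^ 2 *
        (2 * J * J' * T * ((2 * J * (4 * r ^ 2 : ℕ) * T) ^ n / n.factorial)))))) := by
  have hsa : ∀ s, IsSelfAdjoint (hamS (fun v => h v s) univ) := fun s =>
    gp18_sum_sa _ fun v _ => gp18_locOp_sa (hherm v s) v
  have hsa' : ∀ s, IsSelfAdjoint (hamS (fun v => h' v s) univ) := fun s =>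
    gp18_sum_sa _ fun v _ => gp18_locOp_sa (hherm' v s) v
  have hGc : Continuous fun s => ∑ v : Site L,
      KV (fun u => h u s) (fun u => h' u s) w T (LT.ball ρ {v}) v :=
    continuous_finsetSum _ fun v _ => KV_cont hh hh' hw T _ v
  have hGsa : ∀ s, IsSelfAdjoint (∑ v : Site L,
      KV (fun u => h u s) (fun u => h' u s) w T (LT.ball ρ {v}) v) := fun s =>
    gp18_sum_sa _ fun v _ => KV_sa hrL (fun v => hherm v s) (fun v => hherm' v s) hw T _ v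
  have hn1 : ∀ s ∈ Set.Icc (0 : ℝ) 1, ‖Ψ s‖ = 1 := fun s hs => (hgap s hs).norm_eq
  -- the derivative of the projection
  choose! y hy0 hy1 hy2 using fun (s : ℝ) (hs : s ∈ Set.Icc (0 : ℝ) 1) =>
    proj_deriv (H := fun t => hamS (fun v => h v t) univ) (fun t _ => hsa t) hΔ hgap hs
      (gp18_hasDeriv fun v => hderiv v s hs)
  set c : ℝ := (2 * J * J' * T * ((2 * J * (4 * r ^ 2 : ℕ) * T) ^ n / n.factorial)) with hc
  have hε0 : 0 ≤ ε := (abs_nonneg _).trans (hε Δ (le_abs_self Δ))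
  have hcmp := compare (P := fun t => kb (Ψ t) (Ψ t))
    (P' := fun s => -(kb (y s) (Ψ s) + kb (Ψ s) (y s)))
    (G := fun s => ∑ v, KV (fun u => h u s) (fun u => h' u s) w T (LT.ball ρ {v}) v) (U := U)
    (ε := 2 * ε * ((L : ℝ) ^ 2 * J') + 2 * ((L : ℝ) ^ 2 * (T * ((L : ℝ) ^ 2 * c))))
    hy2 hGc hGsa hU (by
      intro s hs
      have h1 := filter_ground (hsa s) (hsa' s) hΔ (hgap s hs) hT hw hε (hy0 s hs) (hy1 s hs)
      set G : Hil d L →L[ℂ] Hil d L :=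
        ∑ v, KV (fun u => h u s) (fun u => h' u s) w T (LT.ball ρ {v}) v with hG
      set K : Hil d L →L[ℂ] Hil d L :=
        KK (hamS (fun v => h v s) univ) w T (hamS (fun v => h' v s) univ) with hK
      set P : Hil d L →L[ℂ] Hil d L := kb (Ψ s) (Ψ s) with hP
      have hP1 : ‖P‖ ≤ 1 := by
        rw [hP, gp18_norm_kb, hn1 s hs, one_mul]
      have hKG : ‖K - G‖ ≤ (L : ℝ) ^ 2 * (T * ((L : ℝ) ^ 2 * c)) := by
        rw [hK, ← KV_sum (fun v => h v s) (fun v => h' v s) hw T, hG, ← Finset.sum_sub_distrib]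
        refine (norm_sum_le _ _).trans ((Finset.sum_le_sum fun v _ =>
          KV_diff hr hrL (fun v => hherm v s) (fun v => hJ v s) (fun v => hJ' v s) hw hw1 hT n ρ
            hρ v).trans ?_)
        rw [Finset.sum_const, Finset.card_univ, Fintype.card_prod, ZMod.card, nsmul_eq_mul]
        rw [Nat.cast_mul, ← pow_two]
      have h2 : ‖hamS (fun v => h' v s) univ‖ ≤ (L : ℝ) ^ 2 * J' :=
        gp18_norm_hamS hrL fun v => hJ' v s
      have h3 : -(kb (y s) (Ψ s) + kb (Ψ s) (y s)) - Complex.I • (G * P - P * G) =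
          (-(kb (y s) (Ψ s) + kb (Ψ s) (y s)) - Complex.I • (K * P - P * K)) +
            Complex.I • ((K - G) * P - P * (K - G)) := by
        simp only [sub_mul, mul_sub, smul_sub]
        abel
      change ‖-(kb (y s) (Ψ s) + kb (Ψ s) (y s)) - Complex.I • (G * P - P * G)‖ ≤ _
      rw [h3]
      refine (norm_add_le _ _).trans (add_le_add (h1.trans ?_) ?_)
      · gcongr
      · rw [norm_smul, Complex.norm_I, one_mul]
        calc ‖(K - G) * P - P * (K - G)‖ ≤ ‖(K - G) * P‖ + ‖P * (K - G)‖ := norm_sub_le _ _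
          _ ≤ ‖K - G‖ * ‖P‖ + ‖P‖ * ‖K - G‖ := add_le_add (norm_mul_le _ _) (norm_mul_le _ _)
          _ ≤ ‖K - G‖ * 1 + 1 * ‖K - G‖ := by gcongr
          _ = 2 * ‖K - G‖ := by ring
          _ ≤ _ := by gcongr)
  have h0m : (0 : ℝ) ∈ Set.Icc (0 : ℝ) 1 := ⟨le_rfl, zero_le_one⟩
  have h1m : (1 : ℝ) ∈ Set.Icc (0 : ℝ) 1 := ⟨zero_le_one, le_rfl⟩
  have hUu := hU.unitary hGc hGsa 1
  have hUn : ‖U 1 (Ψ 0)‖ = 1 := by
    have h4 : ⟪U 1 (Ψ 0), U 1 (Ψ 0)⟫_ℂ = ⟪Ψ 0, Ψ 0⟫_ℂ := by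
      rw [← ContinuousLinearMap.adjoint_inner_right, ← ContinuousLinearMap.star_eq_adjoint,
        ← mul_apply_eq_comp, hUu.1, one_apply_eq_self]
    rw [inner_self_eq_norm_sq_to_K, inner_self_eq_norm_sq_to_K, hn1 0 h0m] at h4
    have h5 : ‖U 1 (Ψ 0)‖ ^ 2 = 1 := by
      have := congrArg Complex.re h4
      simpa [← Complex.ofReal_pow] using this
    exact (pow_eq_one_iff_of_nonneg (norm_nonneg _) two_ne_zero).mp h5
  rw [gp18_mul_kb] at hcmp
  exact exists_phase (hn1 1 h1m) hUn hcmp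

end Torus

end Pool.Agent.FFG.GP
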