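import Pool.Agent.FFG.GP.Defs

/-!
# Propagators: uniqueness, unitarity, shift, products
-/

open Finset
open scoped InnerProductSpace

set_option autoImplicit false

namespace Pool.Agent.FFG.GP

/-- Uniqueness for ordinary differential equations with a locally bounded Lipschitz constant. -/
theorem gp2_ode_unique {A : Type} [NormedAddCommGroup A] [NormedSpace ℝ A] (v : ℝ → A → A)
    (K : ℝ → ℝ) (hK : Continuous K) (hv : ∀ t x y, ‖v t x - v t y‖ ≤ K t * ‖x - y‖)
    {f g : ℝ → A} (hf : ∀ t, HasDerivAt f (v t (f t)) t) (hg : ∀ t, HasDerivAt g (v t (g t)) t)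
    (h0 : f 0 = g 0) : f = g := by
  funext t
  set T : ℝ := |t| + 1 with hT
  obtain ⟨M, hM⟩ : ∃ M : ℝ, ∀ s ∈ Set.Icc (-T) T, ‖K s‖ ≤ M :=
    (isCompact_Icc (a := -T) (b := T)).exists_bound_of_continuousOn hK.continuousOn
  have hT0 : 0 < T := by rw [hT]; positivity
  have hM0 : 0 ≤ M := (norm_nonneg _).trans (hM 0 ⟨by linarith, hT0.le⟩)
  have htT : t ∈ Set.Ioo (-T) T := abs_lt.mp (by rw [hT]; linarith)
  have key := ODE_solution_unique_of_mem_Ioo (v := v) (s := fun _ => Set.univ)
    (K := ⟨M, hM0⟩) (a := -T) (b := T) (t₀ := 0) (f := f) (g := g)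
    (fun s hs => by
      refine LipschitzOnWith.of_dist_le_mul ?_
      intro x _ y _
      rw [dist_eq_norm, dist_eq_norm]
      refine (hv s x y).trans ?_
      have h1 : K s ≤ M := (le_abs_self _).trans (hM s ⟨hs.1.le, hs.2.le⟩)
      exact mul_le_mul_of_nonneg_right h1 (norm_nonneg _))
    ⟨by linarith, hT0⟩ (fun s _ => ⟨hf s, Set.mem_univ _⟩) (fun s _ => ⟨hg s, Set.mem_univ _⟩) h0
  exact key htT

variable {E : Type} [NormedAddCommGroup E] [InnerProductSpace ℂ E] [CompleteSpace E]

theorem gp2_left_unique {G f g : ℝ → E →L[ℂ] E} (hG : Continuous G)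
    (hf : ∀ t, HasDerivAt f (Complex.I • (G t * f t)) t)
    (hg : ∀ t, HasDerivAt g (Complex.I • (G t * g t)) t) (h0 : f 0 = g 0) : f = g := by
  refine gp2_ode_unique (fun t x => Complex.I • (G t * x)) (fun t => ‖G t‖) hG.norm ?_ hf hg h0
  intro t x y
  rw [← smul_sub, ← mul_sub, norm_smul, Complex.norm_I, one_mul]
  exact norm_mul_le _ _

/-- GP2 (uniqueness, unitarity, shift, products). -/
theorem Propag.unique {G U V : ℝ → E →L[ℂ] E} (hG : Continuous G) (hU : Propag G U)
    (hV : Propag G V) : U = V :=
  gp2_left_unique hG hU.deriv hV.deriv (by rw [hU.zero, hV.zero])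

theorem gp2_star_deriv {G U : ℝ → E →L[ℂ] E} (hsa : ∀ t, IsSelfAdjoint (G t)) (hU : Propag G U)
    (t : ℝ) : HasDerivAt (fun t => star (U t)) (-(Complex.I • (star (U t) * G t))) t := by
  have h := (hU.deriv t).star
  have e : star (Complex.I • (G t * U t)) = -(Complex.I • (star (U t) * G t)) := by
    rw [star_smul, star_mul, (hsa t).star_eq]
    have : star Complex.I = -Complex.I := Complex.conj_I
    rw [this, neg_smul]
  rw [e] at h
  exact h

theorem Propag.unitary {G U : ℝ → E →L[ℂ] E} (hG : Continuous G)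
    (hsa : ∀ t, IsSelfAdjoint (G t)) (hU : Propag G U) (t : ℝ) :
    star (U t) * U t = 1 ∧ U t * star (U t) = 1 := by
  constructor
  · have h1 : ∀ s, HasDerivAt (fun s => star (U s) * U s) 0 s := by
      intro s
      have h := (gp2_star_deriv hsa hU s).mul (hU.deriv s)
      have e : -(Complex.I • (star (U s) * G s)) * U s +
          star (U s) * (Complex.I • (G s * U s)) = 0 := by
        rw [neg_mul, smul_mul_assoc, mul_smul_comm, mul_assoc, neg_add_cancel]
      rw [e] at h
      exact h
    have h2 := is_const_of_deriv_eq_zero (f := fun s => star (U s) * U s)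
      (fun s => (h1 s).differentiableAt) (fun s => (h1 s).deriv) t 0
    rw [h2, hU.zero, star_one, one_mul]
  · have h1 : ∀ s, HasDerivAt (fun s => U s * star (U s))
        (Complex.I • (G s * (U s * star (U s)) - (U s * star (U s)) * G s)) s := by
      intro s
      have h := (hU.deriv s).mul (gp2_star_deriv hsa hU s)
      have e : Complex.I • (G s * U s) * star (U s) +
          U s * -(Complex.I • (star (U s) * G s)) =
          Complex.I • (G s * (U s * star (U s)) - (U s * star (U s)) * G s) := by
        rw [mul_neg, smul_mul_assoc, mul_smul_comm, smul_sub, mul_assoc, mul_assoc, sub_eq_add_neg]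
      rw [e] at h
      exact h
    have h2 : ∀ s, HasDerivAt (fun _ : ℝ => (1 : E →L[ℂ] E))
        (Complex.I • (G s * 1 - 1 * G s)) s := by
      intro s
      rw [mul_one, one_mul, sub_self, smul_zero]
      exact hasDerivAt_const s _
    have h3 : (fun s => U s * star (U s)) = fun _ => 1 := by
      refine gp2_ode_unique (fun t x => Complex.I • (G t * x - x * G t)) (fun t => 2 * ‖G t‖)
        (continuous_const.mul hG.norm) ?_ h1 h2 (by simp [hU.zero])
      intro s x y
      rw [← smul_sub, norm_smul, Complex.norm_I, one_mul]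
      have e : G s * x - x * G s - (G s * y - y * G s) = G s * (x - y) - (x - y) * G s := by
        noncomm_ring
      rw [e]
      calc ‖G s * (x - y) - (x - y) * G s‖ ≤ ‖G s * (x - y)‖ + ‖(x - y) * G s‖ := norm_sub_le _ _
        _ ≤ ‖G s‖ * ‖x - y‖ + ‖x - y‖ * ‖G s‖ := add_le_add (norm_mul_le _ _) (norm_mul_le _ _)
        _ = 2 * ‖G s‖ * ‖x - y‖ := by ring
    exact congrFun h3 t

theorem Propag.shift {G U : ℝ → E →L[ℂ] E} (hG : Continuous G)
    (hsa : ∀ t, IsSelfAdjoint (G t)) (hU : Propag G U) (s : ℝ) :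
    Propag (fun t => G (s + t)) (fun t => U (s + t) * star (U s)) := by
  refine ⟨?_, ?_⟩
  · simp only [add_zero]
    exact (hU.unitary hG hsa s).2
  · intro t
    have h1 : HasDerivAt (fun t => U (s + t)) (Complex.I • (G (s + t) * U (s + t))) t :=
      (hU.deriv (s + t)).comp_const_add s t
    have h2 := h1.mul_const (star (U s))
    rw [smul_mul_assoc, mul_assoc] at h2
    exact h2

/-- An operator which commutes with the Hamiltonian at all times commutes with the propagator. -/
theorem Propag.commute {G U : ℝ → E →L[ℂ] E} (hG : Continuous G) (hU : Propag G U)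
    {X : E →L[ℂ] E} (hX : ∀ t, X * G t = G t * X) (t : ℝ) : X * U t = U t * X := by
  have h : (fun t => X * U t) = fun t => U t * X := by
    refine gp2_left_unique hG ?_ ?_ (by simp [hU.zero])
    · intro t
      have h1 := (hU.deriv t).const_mul X
      have e : X * Complex.I • (G t * U t) = Complex.I • (G t * (X * U t)) := by
        rw [mul_smul_comm, ← mul_assoc, hX, mul_assoc]
      rw [e] at h1
      exact h1
    · intro t
      have h1 := (hU.deriv t).mul_const X
      rw [smul_mul_assoc, mul_assoc] at h1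
      exact h1
  exact congrFun h t

/-- The propagator of a sum of two Hamiltonians which commute with each other at all times. -/
theorem Propag.mul {G G' U U' : ℝ → E →L[ℂ] E} (hG : Continuous G) (hG' : Continuous G')
    (hU : Propag G U) (hU' : Propag G' U') (hc : ∀ s t, G s * G' t = G' t * G s) :
    Propag (fun t => G t + G' t) (fun t => U t * U' t) := by
  refine ⟨by simp [hU.zero, hU'.zero], ?_⟩
  intro t
  have h1 := (hU.deriv t).mul (hU'.deriv t)
  have hcm : G' t * U t = U t * G' t := hU.commute hG (fun s => (hc s t).symm) t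
  have e : Complex.I • (G t * U t) * U' t + U t * (Complex.I • (G' t * U' t)) =
      Complex.I • ((G t + G' t) * (U t * U' t)) := by
    rw [smul_mul_assoc, mul_smul_comm, ← smul_add, add_mul, ← mul_assoc (U t), ← hcm]
    simp only [mul_assoc]
  rw [e] at h1
  exact h1

/-- The propagator is a contraction. -/
theorem gp2_norm_le {G U : ℝ → E →L[ℂ] E} (hG : Continuous G)
    (hsa : ∀ t, IsSelfAdjoint (G t)) (hU : Propag G U) (t : ℝ) : ‖U t‖ ≤ 1 := by
  have h1 := (hU.unitary hG hsa t).1
  have h2 : ‖U t‖ * ‖U t‖ ≤ 1 := by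
    rw [← CStarRing.norm_star_mul_self, h1]
    exact ContinuousLinearMap.norm_id_le
  nlinarith [norm_nonneg (U t)]

/-- The adjoint of the propagator is a contraction. -/
theorem gp2_norm_star_le {G U : ℝ → E →L[ℂ] E} (hG : Continuous G)
    (hsa : ∀ t, IsSelfAdjoint (G t)) (hU : Propag G U) (t : ℝ) : ‖star (U t)‖ ≤ 1 := by
  rw [norm_star]
  exact gp2_norm_le hG hsa hU t

end Pool.Agent.FFG.GP
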