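import Pool.Agent.FFG.GP.Exists
import Pool.Agent.FFG.GP.Unitary
import Pool.Agent.FFG.Main

/-!
# A layer applied to a PEPS
-/

open Finset
open scoped InnerProductSpace

set_option autoImplicit false
set_option linter.unusedSectionVars false
set_option linter.unusedVariables false

namespace Pool.Agent.FFG.GP

section Torus

open Pool.Agent.PEPS953 Pool.Agent.PepsX Pool.Agent.PepsY

variable {d L r : ℕ} [NeZero L]

lemma gp16_star {K : Finset (Site L)} {O : Hil d L →L[ℂ] Hil d L} (h : LocalOn K O) :
    LocalOn K (star O) := by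
  intro u hu a b
  have h1 := congrArg star (h u hu b a)
  rw [star_mul, star_mul, star_su] at h1
  exact h1.symm

lemma gp16_commute_sum {ι : Type} {A : Type} [Ring A] (X : A) (f : ι → A) (s : Finset ι)
    (h : ∀ i ∈ s, X * f i = f i * X) : X * (∑ i ∈ s, f i) = (∑ i ∈ s, f i) * X := by
  rw [Finset.mul_sum, Finset.sum_mul]
  exact Finset.sum_congr rfl h

/-- The product of the propagators of commuting Hamiltonians. -/
lemma gp16_list {ι : Type} {E : Type} [NormedAddCommGroup E] [InnerProductSpace ℂ E]
    [CompleteSpace E] (G V : ι → ℝ → E →L[ℂ] E) (hG : ∀ c, Continuous (G c))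
    (hV : ∀ c, Propag (G c) (V c)) (hc : ∀ c c', c ≠ c' → ∀ s t, G c s * G c' t = G c' t * G c s)
    (l : List ι) (hl : l.Nodup) :
    Continuous (fun t => (l.map fun c => G c t).sum) ∧
      Propag (fun t => (l.map fun c => G c t).sum) (fun t => (l.map fun c => V c t).prod) := by
  induction l with
  | nil =>
    refine ⟨by simpa using continuous_const, ?_⟩
    constructor
    · simp
    · intro t
      simp only [List.map_nil, List.sum_nil, List.prod_nil, zero_mul, smul_zero]
      exact hasDerivAt_const t _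
  | cons c l ih =>
    rw [List.nodup_cons] at hl
    obtain ⟨h1, h2⟩ := ih hl.2
    have h3 : Continuous (fun t => ((c :: l).map fun c => G c t).sum) := by
      simp only [List.map_cons, List.sum_cons]
      exact (hG c).add h1
    refine ⟨h3, ?_⟩
    simp only [List.map_cons, List.sum_cons, List.prod_cons]
    refine Propag.mul (hG c) h1 (hV c) h2 ?_
    intro s t
    have hne : ∀ c' ∈ l, c ≠ c' := by
      rintro c' hc' rfl
      exact hl.1 hc'
    clear h1 h2 h3 ih hl
    induction l with
    | nil => simp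
    | cons c' l ih =>
      simp only [List.map_cons, List.sum_cons, mul_add, add_mul]
      rw [hc c c' (hne c' (by simp)) s t, ih fun c'' hc'' => hne c'' (by simp [hc''])]

/-- All cells, ordered by their classes. -/
noncomputable def gp16_cells (L R : ℕ) : List (CI L R) :=
  (List.ofFn fun k : Fin 9 => (univ.filter fun c : CI L R => cls c = k).toList).flatten

lemma gp16_mem_cells {R : ℕ} (c : CI L R) : c ∈ gp16_cells L R := by
  unfold gp16_cells
  rw [List.mem_flatten]
  refine ⟨(univ.filter fun c' : CI L R => cls c' = cls c).toList, ?_, ?_⟩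
  · rw [List.mem_ofFn]
    exact ⟨cls c, rfl⟩
  · rw [mem_toList, mem_filter]
    exact ⟨mem_univ _, rfl⟩

lemma gp16_nodup_cells {R : ℕ} : (gp16_cells L R).Nodup := by
  unfold gp16_cells
  rw [List.nodup_flatten]
  constructor
  · intro l hl
    rw [List.mem_ofFn] at hl
    obtain ⟨k, rfl⟩ := hl
    exact nodup_toList _
  · rw [List.pairwise_iff_getElem]
    intro i j hi hj hij
    rw [List.getElem_ofFn, List.getElem_ofFn]
    intro c hc hc'
    rw [mem_toList, mem_filter] at hc hc'
    have h1 := hc.2.symm.trans hc'.2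
    rw [Fin.mk.injEq] at h1
    omega

/-- A product over one class. -/
lemma gp16_class (hd : 0 < d) {R W : ℕ} (hR : 0 < R) (hRL : R ≤ L) (hW : 2 * W + 1 ≤ R)
    (O : CI L R → Hil d L →L[ℂ] Hil d L) (hO : ∀ c, LocalOn (hull R W c) (O c)) (k : Fin 9)
    (l : List (CI L R)) (hl : l.Nodup) (hk : ∀ c ∈ l, cls c = k) :
    IsPEPO (d ^ (2 * (9 * R ^ 2))) (mat (l.map O).prod) := by
  refine pepo_prod hd _ (fun c => hull R W c) ?_ (fun c => hull_nonempty hR hRL c)
    (fun c => hull_conn hR hRL hW c) _ (fun c => hull_card hR hRL hW c) _ hO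
  rw [List.Nodup, List.pairwise_iff_getElem] at hl
  rw [List.pairwise_iff_getElem]
  intro i j hi hj hij
  have h2 := hl i j hi hj hij
  have h3 := hk _ (List.getElem_mem hi)
  have h4 := hk _ (List.getElem_mem hj)
  exact hull_disj hR hRL hW _ _ (finProdFinEquiv.injective (h3.trans h4.symm)) h2

/-- GP16 (a layer applied to a PEPS). -/
theorem asg_peps (hd : 0 < d) {R W σ : ℕ} (hR : 0 < R) (hRL : R ≤ L) (hW : 2 * W + 1 ≤ R)
    {Z : Site L → ℝ → Hil d L →L[ℂ] Hil d L} (hZ : ∀ v, Continuous (Z v))
    (hsa : ∀ v t, IsSelfAdjoint (Z v t)) (hloc : ∀ v t, LocalOn (LT.ball σ {v}) (Z v t))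
    {𝒯 : Finset (Site L)} (h𝒯 : Asg R W σ 𝒯) {U : ℝ → Hil d L →L[ℂ] Hil d L}
    (hU : Propag (fun t => ∑ v ∈ 𝒯, Z v t) U) (t : ℝ) {D : ℕ} {Φ : Hil d L} (hΦ : IsPEPS D Φ) :
    IsPEPS (D * (d ^ (2 * (9 * R ^ 2))) ^ 9) (U t Φ) ∧
      IsPEPS (D * (d ^ (2 * (9 * R ^ 2))) ^ 9) (star (U t) Φ) := by
  classical
  obtain ⟨a, ha1, ha2⟩ := h𝒯
  set G : CI L R → ℝ → Hil d L →L[ℂ] Hil d L := fun c t => ∑ v ∈ 𝒯.filter (fun v => a v = c), Z v t
    with hG
  have hGc : ∀ c, Continuous (G c) := fun c => continuous_finsetSum _ fun v _ => hZ v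
  choose V hV using fun c => exists_propag (G c) (hGc c)
  have hcomm : ∀ c c', c ≠ c' → ∀ s t, G c s * G c' t = G c' t * G c s := by
    intro c c' hne s t
    simp only [hG]
    refine gp16_commute_sum _ _ _ fun w hw => ?_
    refine (gp16_commute_sum _ _ _ fun v hv => ?_).symm
    rw [mem_filter] at hv hw
    refine LocalOn.commute ?_ (hloc w t) (hloc v s)
    refine ha2 w hw.1 v hv.1 ?_
    rw [hw.2, hv.2]
    exact hne.symm
  have hVloc : ∀ c t, LocalOn (hull R W c) (V c t) := by
    intro c t u hu x y
    refine Propag.commute (hGc c) (hV c) (X := su u x y) ?_ t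
    intro s
    simp only [hG]
    refine gp16_commute_sum _ _ _ fun v hv => ?_
    rw [mem_filter] at hv
    have h1 := ha1 v hv.1
    rw [hv.2] at h1
    exact (hloc v s).mono h1 u hu x y
  obtain ⟨hc1, hp⟩ := gp16_list G V hGc hV hcomm (gp16_cells L R) gp16_nodup_cells
  have hsum : (fun t => ((gp16_cells L R).map fun c => G c t).sum) = fun t => ∑ v ∈ 𝒯, Z v t := by
    funext t
    rw [← List.sum_toFinset _ gp16_nodup_cells]
    have h1 : (gp16_cells L R).toFinset = univ := by
      ext c
      simp [gp16_mem_cells c]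
    rw [h1]
    exact Finset.sum_fiberwise 𝒯 a fun v => Z v t
  rw [hsum] at hp
  have hUc : Continuous (fun t => ∑ v ∈ 𝒯, Z v t) := continuous_finsetSum _ fun v _ => hZ v
  have hUV : U t = (List.ofFn fun k : Fin 9 =>
      (((univ.filter fun c : CI L R => cls c = k).toList).map fun c => V c t).prod).prod := by
    have h1 := congrFun (Propag.unique hUc hU hp) t
    rw [h1]
    unfold gp16_cells
    rw [List.map_flatten, List.prod_flatten, List.map_map, List.map_ofFn]
    rfl
  constructor
  · rw [hUV]
    have h2 := isPEPS_list (B := d ^ (2 * (9 * R ^ 2))) (List.ofFn fun k : Fin 9 =>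
      (((univ.filter fun c : CI L R => cls c = k).toList).map fun c => V c t).prod) (by
        intro O hO
        rw [List.mem_ofFn] at hO
        obtain ⟨k, rfl⟩ := hO
        exact gp16_class hd hR hRL hW (fun c => V c t) (fun c => hVloc c t) k _ (nodup_toList _)
          fun c hc => (mem_filter.mp (mem_toList.mp hc)).2) hΦ
    rw [List.length_ofFn] at h2
    exact h2
  · rw [hUV, star_list_prod]
    have h2 := isPEPS_list (B := d ^ (2 * (9 * R ^ 2))) ((List.ofFn fun k : Fin 9 =>
      (((univ.filter fun c : CI L R => cls c = k).toList).map fun c => V c t).prod).reverse.map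
        star) (by
        intro O hO
        rw [List.mem_map] at hO
        obtain ⟨O', hO', rfl⟩ := hO
        rw [List.mem_reverse, List.mem_ofFn] at hO'
        obtain ⟨k, rfl⟩ := hO'
        rw [star_list_prod, ← List.map_reverse, List.map_map]
        exact gp16_class hd hR hRL hW (star ∘ fun c => V c t) (fun c => gp16_star (hVloc c t)) k _
          (List.nodup_reverse.mpr (nodup_toList _))
          fun c hc => (mem_filter.mp (mem_toList.mp (List.mem_reverse.mp hc))).2) hΦ
    rw [List.length_map, List.length_reverse, List.length_ofFn] at h2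
    exact h2

end Torus

end Pool.Agent.FFG.GP
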