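import Pool.Agent.FFG.GP.Compare
import Pool.Agent.FFG.GP.LRDiff


/-!
# Decoupling of an evolution
-/

open Finset
open scoped InnerProductSpace

set_option autoImplicit false
set_option linter.unusedSectionVars false
set_option linter.unusedVariables false

namespace Pool.Agent.FFG.GP

section Abstract

variable {E : Type} [NormedAddCommGroup E] [InnerProductSpace ℂ E] [CompleteSpace E]

lemma gp06_star_deriv {G U : ℝ → E →L[ℂ] E} (hsa : ∀ t, IsSelfAdjoint (G t)) (hU : Propag G U)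
    (t : ℝ) : HasDerivAt (fun t => star (U t)) (-(Complex.I • (star (U t) * G t))) t := by
  have h1 := (hU.deriv t).star
  have h2 : star (Complex.I • (G t * U t)) = -(Complex.I • (star (U t) * G t)) := by
    rw [star_smul, star_mul, (hsa t).star_eq]
    have : star Complex.I = -Complex.I := Complex.conj_I
    rw [this, neg_smul]
  rw [h2] at h1
  exact h1

/-- The relative evolution. -/
lemma gp06_rel {G G' U U' : ℝ → E →L[ℂ] E} (hG : Continuous G) (hsa : ∀ t, IsSelfAdjoint (G t))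
    (hU : Propag G U) (hU' : Propag G' U') (t : ℝ) :
    HasDerivAt (fun t => star (U t) * U' t)
      (Complex.I • ((star (U t) * (G' t - G t) * U t) * (star (U t) * U' t))) t := by
  have h1 := (gp06_star_deriv hsa hU t).mul (hU'.deriv t)
  refine h1.congr_deriv ?_
  have hun := (Propag.unitary hG hsa hU t).2
  have e : star (U t) * (G' t - G t) * U t * (star (U t) * U' t) =
      star (U t) * (G' t - G t) * (U t * star (U t)) * U' t := by simp only [mul_assoc]
  rw [e, hun, mul_one]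
  simp only [neg_mul, smul_mul_assoc, mul_smul_comm, mul_sub, sub_mul, smul_sub, mul_assoc]
  abel

/-- GP6 (decoupling). -/
theorem decouple {ι : Type} [Finite ι] [DecidableEq ι] {Z : ι → ℝ → E →L[ℂ] E}
    {Loc : ι → (E →L[ℂ] E) → Prop} {nc : ι → ι → Prop} {J : ℝ} {g : ℕ} (hJ : 0 ≤ J)
    (hZ : LSys Z Loc nc J g) {𝒮 𝓑 𝓓 : Finset ι} (hD : 𝓓 ⊆ 𝓑) (hB : 𝓑 ⊆ 𝒮) (n : ℕ)
    (hfar : ∀ v ∈ 𝓓, ∀ u ∈ 𝒮 \ 𝓑, ∀ m < n, ∀ w, reach nc m v w → ¬ nc w u)
    {U₀ U₁ U₂ U₃ : ℝ → E →L[ℂ] E} (h0 : Propag (fun t => ∑ v ∈ 𝒮, Z v t) U₀)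
    (h1 : Propag (fun t => ∑ v ∈ 𝒮 \ 𝓓, Z v t) U₁) (h2 : Propag (fun t => ∑ v ∈ 𝓑 \ 𝓓, Z v t) U₂)
    (h3 : Propag (fun t => ∑ v ∈ 𝓑, Z v t) U₃) (t : ℝ) (ht : 0 ≤ t) :
    ‖U₀ t - U₁ t * star (U₂ t) * U₃ t‖ ≤
      𝓓.card * (𝒮.card * (2 * J ^ 2 * t ^ 2 * ((2 * J * g * t) ^ n / n.factorial))) := by
  classical
  have hcont : ∀ S : Finset ι, Continuous fun t => ∑ v ∈ S, Z v t := fun S =>
    continuous_finsetSum _ fun v _ => hZ.cont v
  have hsa : ∀ (S : Finset ι) (t : ℝ), IsSelfAdjoint (∑ v ∈ S, Z v t) := by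
    intro S t
    unfold IsSelfAdjoint
    rw [star_sum]
    exact Finset.sum_congr rfl fun v _ => (hZ.sa v t).star_eq
  have hun0 := Propag.unitary (hcont _) (hsa _) h0
  have hun1 := Propag.unitary (hcont _) (hsa _) h1
  have hun2 := Propag.unitary (hcont _) (hsa _) h2
  have hun3 := Propag.unitary (hcont _) (hsa _) h3
  have hg1 : ∀ s, (∑ v ∈ 𝒮, Z v s) - ∑ v ∈ 𝒮 \ 𝓓, Z v s = ∑ v ∈ 𝓓, Z v s := by
    intro s
    rw [sub_eq_iff_eq_add, add_comm]
    exact (Finset.sum_sdiff (hD.trans hB)).symm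
  have hg2 : ∀ s, (∑ v ∈ 𝓑, Z v s) - ∑ v ∈ 𝓑 \ 𝓓, Z v s = ∑ v ∈ 𝓓, Z v s := by
    intro s
    rw [sub_eq_iff_eq_add, add_comm]
    exact (Finset.sum_sdiff hD).symm
  -- the two relative evolutions
  have hV := fun s => gp06_rel (hcont _) (hsa _) h1 h0 s
  have hW := fun s => gp06_rel (hcont _) (hsa _) h2 h3 s
  simp only [hg1] at hV
  simp only [hg2] at hW
  set V : ℝ → E →L[ℂ] E := fun s => star (U₁ s) * U₀ s with hVdef
  set W : ℝ → E →L[ℂ] E := fun s => star (U₂ s) * U₃ s with hWdef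
  set A : ℝ → E →L[ℂ] E := fun s => star (U₁ s) * (∑ v ∈ 𝓓, Z v s) * U₁ s with hA
  set B : ℝ → E →L[ℂ] E := fun s => star (U₂ s) * (∑ v ∈ 𝓓, Z v s) * U₂ s with hBdef
  have hBsa : ∀ s, star (B s) = B s := by
    intro s
    simp only [hBdef, star_mul, star_star, (hsa 𝓓 s).star_eq, mul_assoc]
  have hWs : ∀ s, HasDerivAt (fun s => star (W s)) (-(Complex.I • (star (W s) * B s))) s := by
    intro s
    have h := (hW s).star
    have h' : star (Complex.I • (B s * W s)) = -(Complex.I • (star (W s) * B s)) := by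
      rw [star_smul, star_mul, hBsa]
      have : star Complex.I = -Complex.I := Complex.conj_I
      rw [this, neg_smul]
    rw [h'] at h
    exact h
  have hWun : ∀ s, W s * star (W s) = 1 ∧ star (W s) * W s = 1 := by
    intro s
    constructor
    · calc W s * star (W s) = star (U₂ s) * (U₃ s * star (U₃ s)) * U₂ s := by
            simp only [hWdef, star_mul, star_star, mul_assoc]
        _ = 1 := by rw [(hun3 s).2, mul_one, (hun2 s).1]
    · calc star (W s) * W s = star (U₃ s) * (U₂ s * star (U₂ s)) * U₃ s := by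
            simp only [hWdef, star_mul, star_star, mul_assoc]
        _ = 1 := by rw [(hun2 s).2, mul_one, (hun3 s).1]
  have hVun : ∀ s, star (V s) * V s = 1 := by
    intro s
    calc star (V s) * V s = star (U₀ s) * (U₁ s * star (U₁ s)) * U₀ s := by
          simp only [hVdef, star_mul, star_star, mul_assoc]
      _ = 1 := by rw [(hun1 s).2, mul_one, (hun0 s).1]
  have hf : ∀ s, HasDerivAt (fun s => star (W s) * V s)
      (Complex.I • (star (W s) * (A s - B s) * V s)) s := by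
    intro s
    have h := (hWs s).mul (hV s)
    refine h.congr_deriv ?_
    change -(Complex.I • (star (W s) * B s)) * V s + star (W s) * Complex.I • (A s * V s) = _
    simp only [neg_mul, smul_mul_assoc, mul_smul_comm, mul_sub, sub_mul, smul_sub, mul_assoc]
    abel
  set C : ℝ := 𝓓.card * (𝒮.card * (2 * J ^ 2 * t * ((2 * J * g * t) ^ n / n.factorial))) with hC
  have hAB : ∀ s ∈ Set.Icc (0 : ℝ) t, ‖A s - B s‖ ≤ C := by
    intro s hs
    have e : A s - B s = ∑ v ∈ 𝓓, (star (U₁ s) * Z v s * U₁ s - star (U₂ s) * Z v s * U₂ s) := by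
      simp only [hA, hBdef, Finset.mul_sum, Finset.sum_mul]
      rw [Finset.sum_sub_distrib]
    rw [e]
    refine (norm_sum_le _ _).trans ?_
    have hterm : ∀ v ∈ 𝓓, ‖star (U₁ s) * Z v s * U₁ s - star (U₂ s) * Z v s * U₂ s‖ ≤
        𝒮.card * (2 * J ^ 2 * t * ((2 * J * g * t) ^ n / n.factorial)) := by
      intro v hv
      have hsub : 𝓑 \ 𝓓 ⊆ 𝒮 \ 𝓓 := Finset.sdiff_subset_sdiff hB (Finset.Subset.refl _)
      have hd : (𝒮 \ 𝓓) \ (𝓑 \ 𝓓) ⊆ 𝒮 \ 𝓑 := by
        intro u hu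
        rw [mem_sdiff, mem_sdiff, mem_sdiff] at hu
        rw [mem_sdiff]
        exact ⟨hu.1.1, fun hu' => hu.2 ⟨hu', hu.1.2⟩⟩
      have h := lr_diff hJ hZ hsub h1 h2 n v (fun u hu m hm w hw => hfar v hv u (hd hu) m hm w hw)
        (Z v s) (hZ.loc v s) s hs.1
      refine h.trans ?_
      have hcard : (((𝒮 \ 𝓓) \ (𝓑 \ 𝓓)).card : ℝ) ≤ 𝒮.card := by
        exact_mod_cast Finset.card_le_card
          (Finset.sdiff_subset.trans Finset.sdiff_subset)
      have hn := hZ.norm v s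
      have hn0 := norm_nonneg (Z v s)
      have hs0 := hs.1
      have hst := hs.2
      have hg0 : (0 : ℝ) ≤ g := Nat.cast_nonneg g
      have hp : (2 * J * g * s) ^ n ≤ (2 * J * g * t) ^ n := by
        gcongr
      have h4 : 2 * J * ‖Z v s‖ * s ≤ 2 * J ^ 2 * t := by
        calc 2 * J * ‖Z v s‖ * s ≤ 2 * J * J * t := by gcongr
          _ = 2 * J ^ 2 * t := by ring
      have h5 : 0 ≤ 2 * J * ‖Z v s‖ * s := by positivity
      gcongr
    calc ∑ v ∈ 𝓓, ‖star (U₁ s) * Z v s * U₁ s - star (U₂ s) * Z v s * U₂ s‖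
        ≤ ∑ v ∈ 𝓓, (𝒮.card * (2 * J ^ 2 * t * ((2 * J * g * t) ^ n / n.factorial)) : ℝ) :=
          Finset.sum_le_sum hterm
      _ = C := by rw [Finset.sum_const, nsmul_eq_mul]
  have hb : ∀ s ∈ Set.Icc (0 : ℝ) t, ‖Complex.I • (star (W s) * (A s - B s) * V s)‖ ≤ C := by
    intro s hs
    have hw1 : ‖star (W s)‖ ≤ 1 := by
      rw [norm_star]
      exact gp10_norm_le_one (hWun s).2
    have hv1 : ‖V s‖ ≤ 1 := gp10_norm_le_one (hVun s)
    have h := hAB s hs
    have h0 := (norm_nonneg _).trans h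
    rw [norm_smul, Complex.norm_I, one_mul]
    calc ‖star (W s) * (A s - B s) * V s‖ ≤ ‖star (W s)‖ * ‖A s - B s‖ * ‖V s‖ :=
          (norm_mul_le _ _).trans (mul_le_mul_of_nonneg_right (norm_mul_le _ _) (norm_nonneg _))
      _ ≤ 1 * C * 1 := by gcongr
      _ = C := by ring
  have hm := Convex.norm_image_sub_le_of_norm_hasDerivWithin_le
    (fun s _ => (hf s).hasDerivWithinAt) hb (convex_Icc (0 : ℝ) t)
    (Set.left_mem_Icc.mpr ht) (Set.right_mem_Icc.mpr ht)
  have hz : star (W 0) * V 0 = 1 := by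
    simp only [hWdef, hVdef, h0.zero, h1.zero, h2.zero, h3.zero, star_one, one_mul]
  have hm' : ‖star (W t) * V t - 1‖ ≤ C * t := by
    simp only [hz] at hm
    rw [sub_zero, Real.norm_eq_abs, abs_of_nonneg ht] at hm
    exact hm
  have e : U₀ t - U₁ t * star (U₂ t) * U₃ t = U₁ t * W t * (star (W t) * V t - 1) := by
    have e1 : U₁ t * W t * (star (W t) * V t) = U₀ t := by
      calc U₁ t * W t * (star (W t) * V t) = U₁ t * (W t * star (W t)) * V t := by
            simp only [mul_assoc]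
        _ = (U₁ t * star (U₁ t)) * U₀ t := by
            rw [(hWun t).1, mul_one]
            simp only [hVdef, mul_assoc]
        _ = U₀ t := by rw [(hun1 t).2, one_mul]
    rw [mul_sub, e1, mul_one]
    simp only [hWdef, mul_assoc]
  rw [e]
  have hw1 : ‖W t‖ ≤ 1 := gp10_norm_le_one (hWun t).2
  have hu1 : ‖U₁ t‖ ≤ 1 := gp10_norm_le_one (hun1 t).1
  have h0' := (norm_nonneg _).trans hm'
  calc ‖U₁ t * W t * (star (W t) * V t - 1)‖
      ≤ ‖U₁ t‖ * ‖W t‖ * ‖star (W t) * V t - 1‖ :=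
        (norm_mul_le _ _).trans (mul_le_mul_of_nonneg_right (norm_mul_le _ _) (norm_nonneg _))
    _ ≤ 1 * 1 * (C * t) := by gcongr
    _ = 𝓓.card * (𝒮.card * (2 * J ^ 2 * t ^ 2 * ((2 * J * g * t) ^ n / n.factorial))) := by
        rw [hC]
        ring

end Abstract

end Pool.Agent.FFG.GP
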