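import Pool.Agent.FFG.LT.Defs
import Pool.Agent.PEPS953.Tfae

/-!
# Gapped paths: definitions
-/

open Finset
open scoped InnerProductSpace

set_option autoImplicit false
set_option linter.unusedSectionVars false
set_option linter.unusedVariables false

namespace Pool.Agent.FFG.GP

/-! ### Abstract part -/

section Abstract

variable {E : Type} [NormedAddCommGroup E] [InnerProductSpace ℂ E] [CompleteSpace E]

/-- `U` is the propagator of the time-dependent Hamiltonian `G`. -/
structure Propag (G U : ℝ → E →L[ℂ] E) : Prop where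
  zero : U 0 = 1
  deriv : ∀ t, HasDerivAt U (Complex.I • (G t * U t)) t

/-- A family of time-dependent terms with a locality structure: `Loc v O` means that `O` is local at
`v`, and `nc` is the relation of noncommutation. -/
structure LSys {ι : Type} (Z : ι → ℝ → E →L[ℂ] E) (Loc : ι → (E →L[ℂ] E) → Prop)
    (nc : ι → ι → Prop) (J : ℝ) (g : ℕ) : Prop where
  cont : ∀ v, Continuous (Z v)
  sa : ∀ v t, IsSelfAdjoint (Z v t)
  norm : ∀ v t, ‖Z v t‖ ≤ J
  loc : ∀ v t, Loc v (Z v t)
  comm : ∀ v w t O, Loc v O → ¬ nc v w → O * Z w t = Z w t * O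
  deg : ∀ v, {w | nc v w}.ncard ≤ g

/-- `w` can be reached from `v` in at most `n` steps. -/
def reach {ι : Type} (nc : ι → ι → Prop) : ℕ → ι → ι → Prop
  | 0, v, w => w = v
  | n + 1, v, w => reach nc n v w ∨ ∃ u, nc v u ∧ reach nc n u w

/-- The evolution `exp (i t H) X exp (- i t H)`. -/
noncomputable def tau (H : E →L[ℂ] E) (t : ℝ) (X : E →L[ℂ] E) : E →L[ℂ] E :=
  NormedSpace.exp ((t * Complex.I : ℂ) • H) * X * NormedSpace.exp ((-(t * Complex.I) : ℂ) • H)

/-- The filtered operator. -/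
noncomputable def KK (H : E →L[ℂ] E) (w : ℝ → ℝ) (T : ℝ) (X : E →L[ℂ] E) : E →L[ℂ] E :=
  (1 / 2 : ℝ) • ∫ t in (0 : ℝ)..T, w t • (tau H t X - tau H (-t) X)

/-- The rank one operator `|x⟩⟨y|`. -/
noncomputable def kb (x y : E) : E →L[ℂ] E := (innerSL ℂ y).smulRight x

end Abstract

/-! ### The torus -/

section Torus

open Pool.Agent.PEPS953

variable {d L r : ℕ} [NeZero L]

/-- The sum of the terms at the positions in `𝒯`, where the term `h v` acts on the box at `v`. -/
noncomputable def hamS (h : Site L → Matrix (LConf d r) (LConf d r) ℂ) (𝒯 : Finset (Site L)) :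
    Hil d L →L[ℂ] Hil d L := ∑ v ∈ 𝒯, locOp L (h v) v

/-- The filtered term at `v`, with the Hamiltonian of the terms at the positions in `𝒯`. -/
noncomputable def KV (h h' : Site L → Matrix (LConf d r) (LConf d r) ℂ) (w : ℝ → ℝ) (T : ℝ)
    (𝒯 : Finset (Site L)) (v : Site L) : Hil d L →L[ℂ] Hil d L :=
  KK (hamS h 𝒯) w T (locOp L (h' v) v)

/-- The terms at the positions in `𝒯`, each of which is supported in the ball of radius `σ` about
its position, can be assigned to the cells of the grid in such a way that each of them is supported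
in the hull of its cell, and the terms assigned to different cells have disjoint supports. -/
def Asg (R W σ : ℕ) (𝒯 : Finset (Site L)) : Prop :=
  ∃ a : Site L → CI L R, (∀ v ∈ 𝒯, LT.ball σ {v} ⊆ hull R W (a v)) ∧
    ∀ v ∈ 𝒯, ∀ w ∈ 𝒯, a v ≠ a w → Disjoint (LT.ball σ {v}) (LT.ball σ {w})

/-- A `C¹` path of Hamiltonians on the torus of side `L`, with terms on boxes of side `r`, which
are bounded by `J`, together with their derivatives, and with simple ground states `Ψ s`,
separated by a gap of at least `Δ` from the rest of the spectrum. -/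
structure GPath (L : ℕ) [NeZero L] (d r : ℕ) (J Δ : ℝ) (Ψ₀ Ψ₁ : Hil d L) : Prop where
  ex : ∃ (h h' : Site L → ℝ → Matrix (LConf d r) (LConf d r) ℂ) (E₀ : ℝ → ℝ) (Ψ : ℝ → Hil d L),
    (∀ v, ∀ s ∈ Set.Icc (0 : ℝ) 1, (h v s).IsHermitian) ∧
    (∀ v, ∀ s ∈ Set.Icc (0 : ℝ) 1, HasDerivWithinAt (h v) (h' v s) (Set.Icc 0 1) s) ∧
    (∀ v, ContinuousOn (h' v) (Set.Icc 0 1)) ∧
    (∀ v, ∀ s ∈ Set.Icc (0 : ℝ) 1, entNorm (h v s) ≤ J ∧ entNorm (h' v s) ≤ J) ∧
    (∀ s ∈ Set.Icc (0 : ℝ) 1, IsGappedGS (hamS (fun v => h v s) univ) (E₀ s) Δ (Ψ s)) ∧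
    Ψ 0 = Ψ₀ ∧ Ψ 1 = Ψ₁

end Torus

end Pool.Agent.FFG.GP
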