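import Pool.Agent.FFG.GP.Defs

/-!
# Existence of propagators (the Dyson series)
-/

open Finset
open scoped InnerProductSpace

set_option autoImplicit false

namespace Pool.Agent.FFG.GP

variable {E : Type} [NormedAddCommGroup E] [InnerProductSpace ℂ E] [CompleteSpace E]

private theorem gp1_bound_nonneg {A : Type} [NormedAddCommGroup A] [NormedSpace ℝ A] {f f' : ℝ → A}
    (hf : ∀ t, HasDerivAt f (f' t) t) (h0 : f 0 = 0) {M T : ℝ} (n : ℕ)
    (hb : ∀ t, |t| ≤ T → ‖f' t‖ ≤ M * ((M * |t|) ^ n / n.factorial)) {t : ℝ} (ht : 0 ≤ t)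
    (htT : t ≤ T) : ‖f t‖ ≤ (M * |t|) ^ (n + 1) / (n + 1).factorial := by
  have hB : ∀ x : ℝ, HasDerivAt (fun y : ℝ => (M * y) ^ (n + 1) / ((n + 1).factorial : ℝ))
      (M * ((M * x) ^ n / n.factorial)) x := by
    intro x
    have h1 : HasDerivAt (fun y : ℝ => (M * y) ^ (n + 1))
        (((n + 1 : ℕ) : ℝ) * (M * x) ^ n * (M * 1)) x :=
      ((hasDerivAt_id x).const_mul M).pow (n + 1)
    have h2 := h1.div_const ((n + 1).factorial : ℝ)
    suffices e : ((n + 1 : ℕ) : ℝ) * (M * x) ^ n * (M * 1) / ((n + 1).factorial : ℝ) =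
        M * ((M * x) ^ n / n.factorial) by
      rw [e] at h2
      exact h2
    have h3 : ((n + 1).factorial : ℝ) = ((n + 1 : ℕ) : ℝ) * (n.factorial : ℝ) := by
      rw [Nat.factorial_succ]; push_cast; ring
    rw [h3]
    have h4 : (n.factorial : ℝ) ≠ 0 := by positivity
    have h5 : ((n + 1 : ℕ) : ℝ) ≠ 0 := by positivity
    field_simp
  have key := image_norm_le_of_norm_deriv_right_le_deriv_boundary (f := f) (f' := f')
    (a := 0) (b := t) (B := fun y : ℝ => (M * y) ^ (n + 1) / ((n + 1).factorial : ℝ))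
    (B' := fun x => M * ((M * x) ^ n / n.factorial))
    (fun x _ => (hf x).continuousAt.continuousWithinAt)
    (fun x _ => (hf x).hasDerivWithinAt) (by simp [h0]) hB
    (fun x hx => by
      have := hb x (by rw [abs_of_nonneg hx.1]; linarith [hx.2])
      rwa [abs_of_nonneg hx.1] at this)
  have := key ⟨ht, le_refl t⟩
  simpa [abs_of_nonneg ht] using this

private theorem gp1_bound {A : Type} [NormedAddCommGroup A] [NormedSpace ℝ A] {f f' : ℝ → A}
    (hf : ∀ t, HasDerivAt f (f' t) t) (h0 : f 0 = 0) {M T : ℝ} (n : ℕ)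
    (hb : ∀ t, |t| ≤ T → ‖f' t‖ ≤ M * ((M * |t|) ^ n / n.factorial)) {t : ℝ}
    (htT : |t| ≤ T) : ‖f t‖ ≤ (M * |t|) ^ (n + 1) / (n + 1).factorial := by
  rcases le_total 0 t with ht | ht
  · exact gp1_bound_nonneg hf h0 n hb ht (by rwa [abs_of_nonneg ht] at htT)
  · have hf2 : ∀ s, HasDerivAt (fun s => f (-s)) (-(f' (-s))) s := by
      intro s
      have h1 : HasDerivAt f (f' (-s)) (-s) := hf (-s)
      have h2 := HasDerivAt.scomp s h1 (hasDerivAt_neg s)
      rw [neg_one_smul] at h2
      exact h2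
    have := gp1_bound_nonneg (f := fun s => f (-s)) (f' := fun s => -(f' (-s))) hf2 (by simpa)
      (M := M) (T := T) n (fun s hs => by
        have := hb (-s) (by rwa [abs_neg])
        rw [abs_neg] at this
        rwa [norm_neg]) (t := -t) (by linarith) (by rwa [abs_of_nonpos ht] at htT)
    simpa using this

/-- The terms of the Dyson series. -/
private noncomputable def gp1_D (G : ℝ → E →L[ℂ] E) : ℕ → ℝ → E →L[ℂ] E
  | 0, _ => 1
  | n + 1, t => ∫ s in (0 : ℝ)..t, Complex.I • (G s * gp1_D G n s)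

private theorem gp1_D_zero (G : ℝ → E →L[ℂ] E) (t : ℝ) : gp1_D G 0 t = 1 := by
  simp only [gp1_D]

private theorem gp1_D_succ (G : ℝ → E →L[ℂ] E) (n : ℕ) (t : ℝ) :
    gp1_D G (n + 1) t = ∫ s in (0 : ℝ)..t, Complex.I • (G s * gp1_D G n s) := by
  simp only [gp1_D]

private theorem gp1_D_cont (G : ℝ → E →L[ℂ] E) (hG : Continuous G) (n : ℕ) :
    Continuous (gp1_D G n) := by
  induction n with
  | zero =>
    have : gp1_D G 0 = fun _ => 1 := funext (gp1_D_zero G)
    rw [this]
    exact continuous_const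
  | succ n ih =>
    have hc : Continuous fun s => Complex.I • (G s * gp1_D G n s) :=
      (hG.mul ih).const_smul Complex.I
    have : gp1_D G (n + 1) = fun t => ∫ s in (0 : ℝ)..t, Complex.I • (G s * gp1_D G n s) :=
      funext (gp1_D_succ G n)
    rw [this, continuous_iff_continuousAt]
    intro t
    exact (hc.integral_hasStrictDerivAt 0 t).hasDerivAt.continuousAt

private theorem gp1_D_deriv (G : ℝ → E →L[ℂ] E) (hG : Continuous G) (n : ℕ) (t : ℝ) :
    HasDerivAt (gp1_D G (n + 1)) (Complex.I • (G t * gp1_D G n t)) t := by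
  have hc : Continuous fun s => Complex.I • (G s * gp1_D G n s) :=
    (hG.mul (gp1_D_cont G hG n)).const_smul Complex.I
  have : gp1_D G (n + 1) = fun t => ∫ s in (0 : ℝ)..t, Complex.I • (G s * gp1_D G n s) :=
    funext (gp1_D_succ G n)
  rw [this]
  exact (hc.integral_hasStrictDerivAt 0 t).hasDerivAt

private theorem gp1_D_le (G : ℝ → E →L[ℂ] E) (hG : Continuous G) {M T : ℝ}
    (hM : ∀ t, |t| ≤ T → ‖G t‖ ≤ M) (n : ℕ) :
    ∀ t, |t| ≤ T → ‖gp1_D G n t‖ ≤ (M * |t|) ^ n / n.factorial := by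
  induction n with
  | zero =>
    intro t _
    rw [gp1_D_zero]
    have h1 : ‖(1 : E →L[ℂ] E)‖ ≤ 1 := ContinuousLinearMap.norm_id_le
    simpa using h1
  | succ n ih =>
    intro t ht
    refine gp1_bound (gp1_D_deriv G hG n) (by rw [gp1_D_succ]; simp) n ?_ ht
    intro s hs
    have h1 : ‖Complex.I • (G s * gp1_D G n s)‖ ≤ ‖G s‖ * ‖gp1_D G n s‖ := by
      rw [norm_smul, Complex.norm_I, one_mul]
      exact norm_mul_le _ _
    have h2 := ih s hs
    have h3 := hM s hs
    exact h1.trans (mul_le_mul h3 h2 (norm_nonneg _) ((norm_nonneg _).trans h3))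

/-- GP1 (existence of propagators: a linear ODE in a Banach algebra). -/
theorem exists_propag (G : ℝ → E →L[ℂ] E) (hG : Continuous G) : ∃ U, Propag G U := by
  refine ⟨fun t => ∑' n, gp1_D G n t, ?_, ?_⟩
  · have h0 : ∀ n, n ≠ 0 → gp1_D G n 0 = 0 := by
      intro n hn
      obtain ⟨m, rfl⟩ := Nat.exists_eq_succ_of_ne_zero hn
      rw [Nat.succ_eq_add_one, gp1_D_succ]
      simp
    show ∑' n, gp1_D G n 0 = 1
    rw [tsum_eq_single 0 (fun n hn => h0 n hn), gp1_D_zero]
  · intro t
    -- a compact interval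
    set T : ℝ := |t| + 1 with hT
    obtain ⟨M, hM⟩ : ∃ M : ℝ, ∀ s, |s| ≤ T → ‖G s‖ ≤ M := by
      obtain ⟨M, hM⟩ := (isCompact_Icc (a := -T) (b := T)).exists_bound_of_continuousOn
        hG.continuousOn
      exact ⟨M, fun s hs => hM s (abs_le.mp hs)⟩
    have hT0 : 0 ≤ T := by rw [hT]; positivity
    have hM0 : 0 ≤ M := (norm_nonneg _).trans (hM 0 (by simpa using hT0))
    have hD := gp1_D_le G hG hM
    -- the derivatives
    let g' : ℕ → ℝ → E →L[ℂ] E := fun n s =>
      match n with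
      | 0 => 0
      | m + 1 => Complex.I • (G s * gp1_D G m s)
    let u : ℕ → ℝ := fun n =>
      match n with
      | 0 => 0
      | m + 1 => M * ((M * T) ^ m / m.factorial)
    have hu : Summable u := by
      rw [← summable_nat_add_iff 1]
      exact (Real.summable_pow_div_factorial (M * T)).mul_left M
    have hg : ∀ (n : ℕ) (y : ℝ), y ∈ Set.Ioo (-T) T → HasDerivAt (gp1_D G n) (g' n y) y := by
      intro n y _
      rcases n with _ | n
      · have : gp1_D G 0 = fun _ => 1 := funext (gp1_D_zero G)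
        rw [this]
        exact hasDerivAt_const y _
      · exact gp1_D_deriv G hG n y
    have hpow : ∀ (m : ℕ) (y : ℝ), |y| ≤ T →
        (M * |y|) ^ m / (m.factorial : ℝ) ≤ (M * T) ^ m / m.factorial := by
      intro m y hy
      have h1 : M * |y| ≤ M * T := mul_le_mul_of_nonneg_left hy hM0
      have h2 : (M * |y|) ^ m ≤ (M * T) ^ m := pow_le_pow_left₀ (by positivity) h1 m
      exact div_le_div_of_nonneg_right h2 (by positivity)
    have hg' : ∀ (n : ℕ) (y : ℝ), y ∈ Set.Ioo (-T) T → ‖g' n y‖ ≤ u n := by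
      intro n y hy
      have hy' : |y| ≤ T := abs_le.mpr ⟨hy.1.le, hy.2.le⟩
      rcases n with _ | n
      · simp [g', u]
      · show ‖Complex.I • (G y * gp1_D G n y)‖ ≤ M * ((M * T) ^ n / n.factorial)
        rw [norm_smul, Complex.norm_I, one_mul]
        calc ‖G y * gp1_D G n y‖ ≤ ‖G y‖ * ‖gp1_D G n y‖ := norm_mul_le _ _
          _ ≤ M * ((M * T) ^ n / n.factorial) :=
            mul_le_mul (hM y hy') ((hD n y hy').trans (hpow n y hy')) (norm_nonneg _) hM0
    have hsum : ∀ y, |y| ≤ T → Summable fun n => gp1_D G n y := by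
      intro y hy
      refine Summable.of_norm_bounded (Real.summable_pow_div_factorial (M * T)) ?_
      intro n
      exact (hD n y hy).trans (hpow n y hy)
    have htT : |t| ≤ T := by rw [hT]; linarith
    have htI : t ∈ Set.Ioo (-T) T := by
      have : |t| < T := by rw [hT]; linarith
      exact abs_lt.mp this
    have key := hasDerivAt_tsum_of_isPreconnected (𝕜 := ℝ) (g := gp1_D G) (g' := g') hu
      isOpen_Ioo isPreconnected_Ioo hg hg' htI (hsum t htT) htI
    have hs' : Summable fun n => g' n t := by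
      refine Summable.of_norm_bounded hu ?_
      intro n
      exact hg' n t htI
    have e : ∑' n, g' n t = Complex.I • (G t * ∑' n, gp1_D G n t) := by
      rw [hs'.tsum_eq_zero_add]
      show 0 + ∑' n, Complex.I • (G t * gp1_D G n t) = Complex.I • (G t * ∑' n, gp1_D G n t)
      rw [zero_add, ← (hsum t htT).tsum_mul_left (G t), tsum_const_smul'']
    rw [e] at key
    exact key

end Pool.Agent.FFG.GP
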