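import Pool.Agent.FFG.GP.Defs
import Pool.Agent.FFG.Pos

/-!
# The layers
-/

open Finset
open scoped InnerProductSpace

set_option autoImplicit false
set_option linter.unusedSectionVars false
set_option linter.unusedVariables false

namespace Pool.Agent.FFG.GP

section Torus

open Pool.Agent.PEPS953 Pool.Agent.PepsX

variable {d L r : ℕ} [NeZero L]

lemma gp15_mono {R w w' : ℕ} (h : w ≤ w') (x : ZMod L) : al L R w x ⊆ al L R w' x := by
  have h1 := al_sub (R := R) (w := w) (δ := w' - w) x x (by rw [cdist_self']; exact Nat.zero_le _)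
  rwa [Nat.add_sub_cancel' h] at h1

/-- Two sets of two elements in a set of at most two elements agree. -/
lemma gp15_eq {A B C : Finset ℕ} (hA : A ⊆ C) (hB : B ⊆ C) (hC : C.card ≤ 2) (hA2 : A.card = 2)
    (hB2 : B.card = 2) : A = B := by
  have h1 : A = C := Finset.eq_of_subset_of_card_le hA (by omega)
  have h2 : B = C := Finset.eq_of_subset_of_card_le hB (by omega)
  rw [h1, h2]

/-- Two nonempty subsets of a singleton agree. -/
lemma gp15_eq' {A B C : Finset ℕ} (hA : A ⊆ C) (hB : B ⊆ C) (hC : C.card ≤ 1) (hA2 : A.Nonempty)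
    (hB2 : B.Nonempty) : A = B := by
  have h3 := hA2.card_pos
  have h4 := hB2.card_pos
  have h1 : A = C := Finset.eq_of_subset_of_card_le hA (by omega)
  have h2 : B = C := Finset.eq_of_subset_of_card_le hB (by omega)
  rw [h1, h2]

/-- The least index of an interval which meets the window. -/
noncomputable def gp15_mn (R w : ℕ) (x : ZMod L) : ℕ := (al L R w x).min' (al_nonempty x)

lemma gp15_mn_mem (R w : ℕ) (x : ZMod L) : gp15_mn R w x ∈ al L R w x := Finset.min'_mem _ _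

lemma gp15_mn_congr {R w : ℕ} {x y : ZMod L} (h : al L R w x = al L R w y) :
    gp15_mn R w x = gp15_mn R w y := by
  unfold gp15_mn
  congr 1

/-- The condition on one coordinate. -/
def gp15_good (R σ w : ℕ) (x : ZMod L) : Prop :=
  (al L R w x).card = 2 ∨ (al L R (w + 2 * σ) x).card ≤ 1

lemma gp15_agree {R σ w : ℕ} (hR : 2 * (w + 2 * σ) + 1 ≤ R) (hRL : R ≤ L) {x y : ZMod L}
    (hxy : cdist x y ≤ 2 * σ) (hx : gp15_good R σ w x) (hy : gp15_good R σ w y) :
    al L R w x = al L R w y := by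
  have h0 : 0 < R := by omega
  have hyx : cdist y x ≤ 2 * σ := by rw [cdist_comm']; exact hxy
  have e1 : al L R w y ⊆ al L R (w + 2 * σ) x := al_sub x y hxy
  have e2 : al L R w x ⊆ al L R (w + 2 * σ) y := al_sub y x hyx
  have e3 : al L R w x ⊆ al L R (w + 2 * σ) x := gp15_mono (by omega) x
  have e4 : al L R w y ⊆ al L R (w + 2 * σ) y := gp15_mono (by omega) y
  rcases hx with hx | hx
  · rcases hy with hy | hy
    · exact gp15_eq e3 e1 (al_card h0 hRL hR x) hx hy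
    · exact gp15_eq' e2 e4 hy (al_nonempty x) (al_nonempty y)
  · exact gp15_eq' e3 e1 hx (al_nonempty x) (al_nonempty y)

lemma gp15_mem_ball {σ : ℕ} {v u : Site L} : u ∈ LT.ball σ {v} ↔ sdist v u ≤ σ := by
  unfold LT.ball
  rw [mem_filter]
  constructor
  · rintro ⟨_, w, hw, h⟩
    rw [mem_singleton] at hw
    rw [hw] at h
    exact h
  · intro h
    exact ⟨mem_univ _, v, mem_singleton_self v, h⟩

lemma gp15_c1 {u v : Site L} {k : ℕ} (h : sdist u v ≤ k) : cdist u.1 v.1 ≤ k :=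
  (le_max_left _ _).trans h

lemma gp15_c2 {u v : Site L} {k : ℕ} (h : sdist u v ≤ k) : cdist u.2 v.2 ≤ k :=
  (le_max_right _ _).trans h

lemma gp15_asg_mono {R W σ : ℕ} {S T : Finset (Site L)} (h : S ⊆ T) (hT : Asg R W σ T) :
    Asg R W σ S := by
  obtain ⟨a, h1, h2⟩ := hT
  exact ⟨a, fun v hv => h1 v (h hv), fun v hv w hw => h2 v (h hv) w (h hw)⟩

/-- The assignment with the window of radius `w`. -/
lemma gp15_asg {R W σ w : ℕ} (hR : 2 * (w + 2 * σ) + 1 ≤ R) (hRL : R ≤ L) (hW : w + σ ≤ W)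
    {T : Finset (Site L)} (hT : ∀ v ∈ T, gp15_good R σ w v.1 ∧ gp15_good R σ w v.2) :
    Asg R W σ T := by
  have h0 : 0 < R := by omega
  refine ⟨fun v => (⟨gp15_mn R w v.1, al_lt h0 hRL v.1 (gp15_mn_mem R w v.1)⟩,
    ⟨gp15_mn R w v.2, al_lt h0 hRL v.2 (gp15_mn_mem R w v.2)⟩), ?_, ?_⟩
  · intro v _ u hu
    rw [gp15_mem_ball] at hu
    have hu' : sdist u v ≤ σ := by rw [sdist_comm]; exact hu
    unfold hull
    rw [mem_filter]
    refine ⟨mem_univ _, ?_, ?_⟩
    · exact gp15_mono hW _ (al_sub u.1 v.1 (gp15_c1 hu') (gp15_mn_mem R w v.1))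
    · exact gp15_mono hW _ (al_sub u.2 v.2 (gp15_c2 hu') (gp15_mn_mem R w v.2))
  · intro v hv w' hw hne
    rw [Finset.disjoint_left]
    intro u hu1 hu2
    apply hne
    rw [gp15_mem_ball] at hu1 hu2
    have hd : sdist v w' ≤ 2 * σ := by
      have h1 := sdist_triangle v u w'
      have h2 : sdist u w' ≤ σ := by rw [sdist_comm]; exact hu2
      omega
    have e1 := gp15_mn_congr (gp15_agree hR hRL (gp15_c1 hd) (hT v hv).1 (hT w' hw).1)
    have e2 := gp15_mn_congr (gp15_agree hR hRL (gp15_c2 hd) (hT v hv).2 (hT w' hw).2)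
    simp only [e1, e2]

lemma gp15_zero (R : ℕ) (x : ZMod L) : al L R 0 x = {cidx L R x} := by
  unfold al
  simp

/-- The assignment of the interior positions. -/
lemma gp15_asg0 {R W σ : ℕ} (hR : 0 < R) (hRL : R ≤ L) (hW : σ ≤ W)
    {T : Finset (Site L)}
    (hT : ∀ v ∈ T, (al L R σ v.1).card ≤ 1 ∧ (al L R σ v.2).card ≤ 1) :
    Asg R W σ T := by
  have hc : ∀ x : ZMod L, cidx L R x ∈ al L R 0 x := by
    intro x
    rw [gp15_zero]
    exact mem_singleton_self _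
  have key : ∀ x u : ZMod L, cdist x u ≤ σ → (al L R σ x).card ≤ 1 → cidx L R x = cidx L R u := by
    intro x u hxu hx
    have h1 : cidx L R u ∈ al L R σ x := by
      have := al_sub (R := R) (w := 0) x u hxu (hc u)
      rwa [Nat.zero_add] at this
    have h2 : cidx L R x ∈ al L R σ x := gp15_mono (Nat.zero_le _) x (hc x)
    exact Finset.card_le_one.mp hx _ h2 _ h1
  refine ⟨fun v => (⟨cidx L R v.1, al_lt hR hRL v.1 (hc v.1)⟩,
    ⟨cidx L R v.2, al_lt hR hRL v.2 (hc v.2)⟩), ?_, ?_⟩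
  · intro v _ u hu
    rw [gp15_mem_ball] at hu
    have hu' : sdist u v ≤ σ := by rw [sdist_comm]; exact hu
    unfold hull
    rw [mem_filter]
    have e : 0 + σ ≤ W := by omega
    refine ⟨mem_univ _, ?_, ?_⟩
    · exact gp15_mono e _ (al_sub u.1 v.1 (gp15_c1 hu') (hc v.1))
    · exact gp15_mono e _ (al_sub u.2 v.2 (gp15_c2 hu') (hc v.2))
  · intro v hv w' hw hne
    rw [Finset.disjoint_left]
    intro u hu1 hu2
    apply hne
    rw [gp15_mem_ball] at hu1 hu2
    have e1 : cidx L R v.1 = cidx L R w'.1 := by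
      rw [key v.1 u.1 (gp15_c1 hu1) (hT v hv).1, key w'.1 u.1 (gp15_c1 hu2) (hT w' hw).1]
    have e2 : cidx L R v.2 = cidx L R w'.2 := by
      rw [key v.2 u.2 (gp15_c2 hu1) (hT v hv).2, key w'.2 u.2 (gp15_c2 hu2) (hT w' hw).2]
    simp only [e1, e2]

/-- GP15 (the layers). -/
theorem layers {R σ D : ℕ} (hR : 10 * σ + 4 * D + 1 ≤ R) (hRL : R ≤ L) :
    ∃ D₁ B₁ D₂ B₂ : Finset (Site L), D₁ ⊆ B₁ ∧ D₂ ⊆ B₂ ∧ B₂ ⊆ B₁ ∧
      Asg R (4 * σ + 2 * D) σ (univ \ D₁) ∧ Asg R (4 * σ + 2 * D) σ (B₁ \ D₁) ∧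
      Asg R (4 * σ + 2 * D) σ (B₁ \ D₂) ∧ Asg R (4 * σ + 2 * D) σ (B₂ \ D₂) ∧
      Asg R (4 * σ + 2 * D) σ B₂ ∧ (∀ v ∈ D₁, ∀ u, u ∉ B₁ → D < sdist v u) ∧
      ∀ v ∈ D₂, ∀ u ∈ B₁, u ∉ B₂ → D < sdist v u := by
  classical
  have h0 : 0 < R := by omega
  have hc2 : ∀ (w : ℕ) (x : ZMod L), w ≤ 5 * σ + 2 * D → (al L R w x).card ≤ 2 := fun w x hw =>
    al_card h0 hRL (by omega) x
  -- two elements persist in a bigger window
  have up : ∀ (w w' : ℕ) (x y : ZMod L), w' ≤ 5 * σ + 2 * D → (al L R w x).card = 2 →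
      al L R w x ⊆ al L R w' y → (al L R w' y).card = 2 := by
    intro w w' x y hw h2 hs
    have h3 := card_le_card hs
    have h4 := hc2 w' y hw
    omega
  set P1 : ℕ → Site L → Prop := fun w v => (al L R w v.1).card = 2 ∨ (al L R w v.2).card = 2
    with hP1
  set P2 : ℕ → Site L → Prop := fun w v => (al L R w v.1).card = 2 ∧ (al L R w v.2).card = 2
    with hP2
  set D₁ : Finset (Site L) := univ.filter fun v => P1 σ v with hD1
  set B₁ : Finset (Site L) := univ.filter fun v => P1 (σ + D) v with hB1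
  set D₂ : Finset (Site L) := univ.filter fun v =>
    P1 (σ + D) v ∧ P2 (σ + D + 2 * σ) v ∧ ¬ P2 (σ + D) v with hD2
  set B₂ : Finset (Site L) := univ.filter fun v =>
    P1 (σ + D) v ∧ P2 (σ + D + 2 * σ + D) v with hB2
  have m1 : ∀ v, v ∈ D₁ ↔ P1 σ v := fun v => by rw [hD1, mem_filter]; simp
  have m2 : ∀ v, v ∈ B₁ ↔ P1 (σ + D) v := fun v => by rw [hB1, mem_filter]; simp
  have m3 : ∀ v, v ∈ D₂ ↔ P1 (σ + D) v ∧ P2 (σ + D + 2 * σ) v ∧ ¬ P2 (σ + D) v := fun v => by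
    rw [hD2, mem_filter]; simp
  have m4 : ∀ v, v ∈ B₂ ↔ P1 (σ + D) v ∧ P2 (σ + D + 2 * σ + D) v := fun v => by
    rw [hB2, mem_filter]; simp
  have hsub1 : D₁ ⊆ B₁ := by
    intro v hv
    rw [m1] at hv
    rw [m2]
    rcases hv with hv | hv
    · exact Or.inl (up _ _ _ _ (by omega) hv (gp15_mono (by omega) _))
    · exact Or.inr (up _ _ _ _ (by omega) hv (gp15_mono (by omega) _))
  have hsub2 : D₂ ⊆ B₂ := by
    intro v hv
    rw [m3] at hv
    rw [m4]
    exact ⟨hv.1, up _ _ _ _ (by omega) hv.2.1.1 (gp15_mono (by omega) _),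
      up _ _ _ _ (by omega) hv.2.1.2 (gp15_mono (by omega) _)⟩
  have hsub3 : B₂ ⊆ B₁ := by
    intro v hv
    rw [m4] at hv
    rw [m2]
    exact hv.1
  have hA1 : Asg R (4 * σ + 2 * D) σ (univ \ D₁) := by
    refine gp15_asg0 h0 hRL (by omega) ?_
    intro v hv
    rw [mem_sdiff, m1] at hv
    have h1 := hc2 σ v.1 (by omega)
    have h2 := hc2 σ v.2 (by omega)
    have h3 : ¬ ((al L R σ v.1).card = 2 ∨ (al L R σ v.2).card = 2) := hv.2
    constructor <;> omega
  have hA2 : Asg R (4 * σ + 2 * D) σ (B₁ \ D₂) := by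
    refine gp15_asg (w := σ + D) (by omega) hRL (by omega) ?_
    intro v hv
    rw [mem_sdiff, m2, m3] at hv
    obtain ⟨h1, h2⟩ := hv
    have c1 := hc2 (σ + D + 2 * σ) v.1 (by omega)
    have c2 := hc2 (σ + D + 2 * σ) v.2 (by omega)
    by_cases h3 : P2 (σ + D) v
    · exact ⟨Or.inl h3.1, Or.inl h3.2⟩
    · have h4 : ¬ P2 (σ + D + 2 * σ) v := fun h => h2 ⟨h1, h, h3⟩
      rcases h1 with h1 | h1
      · have h5 := up (σ + D) (σ + D + 2 * σ) v.1 v.1 (by omega) h1 (gp15_mono (by omega) _)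
        refine ⟨Or.inl h1, Or.inr ?_⟩
        by_contra h6
        exact h4 ⟨h5, by omega⟩
      · have h5 := up (σ + D) (σ + D + 2 * σ) v.2 v.2 (by omega) h1 (gp15_mono (by omega) _)
        refine ⟨Or.inr ?_, Or.inl h1⟩
        by_contra h6
        exact h4 ⟨by omega, h5⟩
  have hA3 : Asg R (4 * σ + 2 * D) σ B₂ := by
    refine gp15_asg (w := σ + D + 2 * σ + D) (by omega) hRL (by omega) ?_
    intro v hv
    rw [m4] at hv
    exact ⟨Or.inl hv.2.1, Or.inl hv.2.2⟩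
  refine ⟨D₁, B₁, D₂, B₂, hsub1, hsub2, hsub3, hA1,
    gp15_asg_mono (sdiff_subset_sdiff (subset_univ _) (Subset.refl _)) hA1, hA2,
    gp15_asg_mono (sdiff_subset_sdiff hsub3 (Subset.refl _)) hA2, hA3, ?_, ?_⟩
  · intro v hv u hu
    by_contra h
    push Not at h
    apply hu
    rw [m1] at hv
    rw [m2]
    have h' : sdist u v ≤ D := by rw [sdist_comm]; exact h
    rcases hv with hv | hv
    · exact Or.inl (up _ _ _ _ (by omega) hv (al_sub u.1 v.1 (gp15_c1 h')))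
    · exact Or.inr (up _ _ _ _ (by omega) hv (al_sub u.2 v.2 (gp15_c2 h')))
  · intro v hv u hu1 hu2
    by_contra h
    push Not at h
    apply hu2
    rw [m3] at hv
    rw [m2] at hu1
    rw [m4]
    have h' : sdist u v ≤ D := by rw [sdist_comm]; exact h
    exact ⟨hu1, up _ _ _ _ (by omega) hv.2.1.1 (al_sub u.1 v.1 (gp15_c1 h')),
      up _ _ _ _ (by omega) hv.2.1.2 (al_sub u.2 v.2 (gp15_c2 h'))⟩

end Torus

end Pool.Agent.FFG.GP
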