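import Pool.Agent.FFG.GP.Defs
import Pool.Agent.FFG.GP.Exists
import Pool.Agent.FFG.GP.Unitary
import Pool.Agent.FFG.GP.Decouple
import Pool.Agent.FFG.GP.Layers
import Pool.Agent.FFG.GP.AsgPeps
import Pool.Agent.FFG.Pos

/-!
# GP17: the evolution applied to a PEPS
-/

open Finset
open scoped InnerProductSpace

set_option autoImplicit false
set_option linter.unusedSectionVars false
set_option linter.unusedVariables false

namespace Pool.Agent.FFG.GP

section Abstract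

variable {E : Type} [NormedAddCommGroup E] [InnerProductSpace ℂ E] [CompleteSpace E]

private lemma gp17_norm_mul {A X : E →L[ℂ] E} (hA : ‖A‖ ≤ 1) : ‖A * X‖ ≤ ‖X‖ :=
  (norm_mul_le _ _).trans (by nlinarith [norm_nonneg X])

private lemma gp17_norm_unitary {V : E →L[ℂ] E} (hV : star V * V = 1) : ‖V‖ ≤ 1 := by
  have h1 : ‖V‖ * ‖V‖ ≤ 1 := by
    rw [← CStarRing.norm_star_mul_self, hV]
    exact ContinuousLinearMap.norm_id_le
  nlinarith [norm_nonneg V]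

end Abstract

section Torus

open Pool.Agent.PEPS953

variable {d L r : ℕ} [NeZero L]

private lemma gp17_reach {σ : ℕ} (m : ℕ) : ∀ v w : Site L,
    reach (fun v w : Site L => sdist v w ≤ 2 * σ) m v w → sdist v w ≤ 2 * (m * σ) := by
  induction m with
  | zero =>
    intro v w h
    have h' : w = v := h
    rw [h', sdist_self']
    exact Nat.zero_le _
  | succ m ih =>
    intro v w h
    rcases h with h | ⟨u, hu, h⟩
    · have := ih v w h
      calc sdist v w ≤ 2 * (m * σ) := this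
        _ ≤ 2 * ((m + 1) * σ) := by gcongr; omega
    · have h1 := ih u w h
      have h2 := sdist_triangle v u w
      have h3 : 2 * ((m + 1) * σ) = 2 * (m * σ) + 2 * σ := by ring
      have h4 : sdist v u ≤ 2 * σ := hu
      omega

/-- GP17 (the evolution applied to a PEPS). -/
theorem evolve_peps (hd : 0 < d) {R σ n : ℕ} (hR : 10 * σ + 8 * (n * σ) + 1 ≤ R) (hRL : R ≤ L)
    {Z : Site L → ℝ → Hil d L →L[ℂ] Hil d L} {J : ℝ} {g : ℕ} (hJ : 0 ≤ J)
    (hZ : LSys Z (fun v O => LocalOn (LT.ball σ {v}) O) (fun v w => sdist v w ≤ 2 * σ) J g)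
    {U : ℝ → Hil d L →L[ℂ] Hil d L} (hU : Propag (fun t => ∑ v, Z v t) U) {D : ℕ} {Φ : Hil d L}
    (hΦ : IsPEPS D Φ) :
    ∃ Φ' : Hil d L, IsPEPS (D * ((d ^ (2 * (9 * R ^ 2))) ^ 9) ^ 5) Φ' ∧
      ‖Φ' - U 1 Φ‖ ≤ 2 * ((L : ℝ) ^ 4 * (2 * J ^ 2 * ((2 * J * g) ^ n / n.factorial))) * ‖Φ‖ := by
  classical
  obtain ⟨D₁, B₁, D₂, B₂, hDB1, hDB2, hB21, a1, a2, a3, a4, a5, far1, far2⟩ :=
    layers (L := L) (R := R) (σ := σ) (D := 2 * (n * σ)) (by omega) hRL
  have hcont : ∀ S : Finset (Site L), Continuous fun t => ∑ v ∈ S, Z v t := fun S =>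
    continuous_finsetSum _ fun v _ => hZ.cont v
  have hsa : ∀ (S : Finset (Site L)) (t : ℝ), IsSelfAdjoint (∑ v ∈ S, Z v t) := fun S t =>
    isSelfAdjoint_sum _ fun v _ => hZ.sa v t
  obtain ⟨V1, hV1⟩ := exists_propag _ (hcont (univ \ D₁))
  obtain ⟨V2, hV2⟩ := exists_propag _ (hcont (B₁ \ D₁))
  obtain ⟨V3, hV3⟩ := exists_propag _ (hcont B₁)
  obtain ⟨V4, hV4⟩ := exists_propag _ (hcont (B₁ \ D₂))
  obtain ⟨V5, hV5⟩ := exists_propag _ (hcont (B₂ \ D₂))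
  obtain ⟨V6, hV6⟩ := exists_propag _ (hcont B₂)
  have farA : ∀ v ∈ D₁, ∀ u ∈ univ \ B₁, ∀ m < n, ∀ w,
      reach (fun v w : Site L => sdist v w ≤ 2 * σ) m v w → ¬ sdist w u ≤ 2 * σ := by
    intro v hv u hu m hm w hw hwu
    have h1 := far1 v hv u (mem_sdiff.1 hu).2
    have h2 := gp17_reach m v w hw
    have h3 := sdist_triangle v w u
    have h4 : (m + 1) * σ ≤ n * σ := Nat.mul_le_mul_right _ hm
    have h5 : (m + 1) * σ = m * σ + σ := by ring
    omega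
  have farB : ∀ v ∈ D₂, ∀ u ∈ B₁ \ B₂, ∀ m < n, ∀ w,
      reach (fun v w : Site L => sdist v w ≤ 2 * σ) m v w → ¬ sdist w u ≤ 2 * σ := by
    intro v hv u hu m hm w hw hwu
    have h1 := far2 v hv u (mem_sdiff.1 hu).1 (mem_sdiff.1 hu).2
    have h2 := gp17_reach m v w hw
    have h3 := sdist_triangle v w u
    have h4 : (m + 1) * σ ≤ n * σ := Nat.mul_le_mul_right _ hm
    have h5 : (m + 1) * σ = m * σ + σ := by ring
    omega
  have e1 := decouple hJ hZ hDB1 (subset_univ B₁) n farA hU hV1 hV2 hV3 1 zero_le_one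
  have e2 := decouple hJ hZ hDB2 hB21 n farB hV3 hV4 hV5 hV6 1 zero_le_one
  have u1 := hV1.unitary (hcont _) (hsa _) 1
  have u2 := hV2.unitary (hcont _) (hsa _) 1
  have n1 : ‖V1 1‖ ≤ 1 := gp17_norm_unitary u1.1
  have n2 : ‖star (V2 1)‖ ≤ 1 := by
    rw [norm_star]
    exact gp17_norm_unitary u2.1
  set c : ℝ := 2 * J ^ 2 * ((2 * J * g) ^ n / n.factorial) with hc
  have hc0 : 0 ≤ c := by positivity
  have hcard : ∀ S : Finset (Site L), (S.card : ℝ) ≤ (L : ℝ) ^ 2 := by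
    intro S
    have h1 : S.card ≤ L ^ 2 := by
      refine (Finset.card_le_univ S).trans ?_
      rw [Fintype.card_prod, ZMod.card]
      exact (sq L).ge
    exact_mod_cast h1
  have hbd : ∀ S T : Finset (Site L), (S.card : ℝ) * (T.card * (2 * J ^ 2 * (1 : ℝ) ^ 2 *
      ((2 * J * g * 1) ^ n / n.factorial))) ≤ (L : ℝ) ^ 4 * c := by
    intro S T
    have h1 : 2 * J ^ 2 * (1 : ℝ) ^ 2 * ((2 * J * g * 1) ^ n / n.factorial) = c := by
      rw [hc, mul_one, one_pow, mul_one]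
    rw [h1]
    calc (S.card : ℝ) * (T.card * c) ≤ (L : ℝ) ^ 2 * ((L : ℝ) ^ 2 * c) := by
          have h2 := hcard S
          have h3 := hcard T
          gcongr
      _ = (L : ℝ) ^ 4 * c := by ring
  set W : Hil d L →L[ℂ] Hil d L := V1 1 * star (V2 1) * (V4 1 * star (V5 1) * V6 1) with hW
  have hnorm : ‖U 1 - W‖ ≤ 2 * ((L : ℝ) ^ 4 * c) := by
    have h1 : U 1 - W = (U 1 - V1 1 * star (V2 1) * V3 1) +
        V1 1 * (star (V2 1) * (V3 1 - V4 1 * star (V5 1) * V6 1)) := by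
      rw [hW]
      noncomm_ring
    rw [h1]
    calc _ ≤ ‖U 1 - V1 1 * star (V2 1) * V3 1‖ +
          ‖V1 1 * (star (V2 1) * (V3 1 - V4 1 * star (V5 1) * V6 1))‖ := norm_add_le _ _
      _ ≤ (L : ℝ) ^ 4 * c + (L : ℝ) ^ 4 * c := by
          refine add_le_add (e1.trans (hbd _ _)) ?_
          exact (gp17_norm_mul n1).trans ((gp17_norm_mul n2).trans (e2.trans (hbd _ _)))
      _ = 2 * ((L : ℝ) ^ 4 * c) := by ring
  have hR0 : 0 < R := by omega
  have hW1 : 2 * (4 * σ + 2 * (2 * (n * σ))) + 1 ≤ R := by omega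
  have p6 := (asg_peps hd hR0 hRL hW1 hZ.cont hZ.sa hZ.loc a5 hV6 1 hΦ).1
  have p5 := (asg_peps hd hR0 hRL hW1 hZ.cont hZ.sa hZ.loc a4 hV5 1 p6).2
  have p4 := (asg_peps hd hR0 hRL hW1 hZ.cont hZ.sa hZ.loc a3 hV4 1 p5).1
  have p2 := (asg_peps hd hR0 hRL hW1 hZ.cont hZ.sa hZ.loc a2 hV2 1 p4).2
  have p1 := (asg_peps hd hR0 hRL hW1 hZ.cont hZ.sa hZ.loc a1 hV1 1 p2).1
  refine ⟨W Φ, ?_, ?_⟩
  · have h1 : W Φ = V1 1 (star (V2 1) (V4 1 (star (V5 1) (V6 1 Φ)))) := rfl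
    rw [h1]
    convert p1 using 1
    ring
  · have h1 : W Φ - U 1 Φ = -((U 1 - W) Φ) := by
      rw [sub_apply]
      abel
    rw [h1, norm_neg]
    exact ((U 1 - W).le_opNorm Φ).trans (by gcongr)

end Torus

end Pool.Agent.FFG.GP
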