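import Pool.Agent.FFG.GP.Defs

/-!
# Products of states which are approximable by projected entangled pair states
-/

open Finset
open scoped InnerProductSpace

set_option autoImplicit false
set_option linter.unusedSectionVars false

namespace Pool.Agent.FFG.GP

open Pool.Agent.PEPS953

variable {d d' L : ℕ} [NeZero L]

/-- The product of two vectors. -/
noncomputable def stk (x : Hil d L) (y : Hil d' L) : Hil (d * d') L :=
  WithLp.toLp 2 fun s => x (fun u => (finProdFinEquiv.symm (s u)).1) *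
    y (fun u => (finProdFinEquiv.symm (s u)).2)

/-- The slice of a vector over a configuration of the second factor. -/
noncomputable def sl (Φ : Hil (d * d') L) (b : Conf d' L) : Hil d L :=
  WithLp.toLp 2 fun s => Φ (fun u => finProdFinEquiv (s u, b u))

/-- The slice of a vector over a configuration of the first factor. -/
noncomputable def sl' (Φ : Hil (d * d') L) (a : Conf d L) : Hil d' L :=
  WithLp.toLp 2 fun s => Φ (fun u => finProdFinEquiv (a u, s u))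

lemma sl_apply (Φ : Hil (d * d') L) (b : Conf d' L) (s : Conf d L) :
    sl Φ b s = Φ (fun u => finProdFinEquiv (s u, b u)) := rfl

lemma sl'_apply (Φ : Hil (d * d') L) (a : Conf d L) (s : Conf d' L) :
    sl' Φ a s = Φ (fun u => finProdFinEquiv (a u, s u)) := rfl

/-- Configurations of the two factors. -/
def confEquiv (d d' L : ℕ) : Conf d L × Conf d' L ≃ Conf (d * d') L where
  toFun p := fun u => finProdFinEquiv (p.1 u, p.2 u)
  invFun s := (fun u => (finProdFinEquiv.symm (s u)).1, fun u => (finProdFinEquiv.symm (s u)).2)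
  left_inv p := by simp
  right_inv s := by
    funext u
    exact finProdFinEquiv.apply_symm_apply (s u)

lemma sl_peps {D : ℕ} {Φ : Hil (d * d') L} (h : IsPEPS D Φ) (b : Conf d' L) :
    IsPEPS D (sl Φ b) := by
  obtain ⟨A, hA⟩ := h
  refine ⟨fun u σ => A u (finProdFinEquiv (σ, b u)), fun s => ?_⟩
  rw [sl_apply, hA]

lemma sl'_peps {D : ℕ} {Φ : Hil (d * d') L} (h : IsPEPS D Φ) (a : Conf d L) :
    IsPEPS D (sl' Φ a) := by
  obtain ⟨A, hA⟩ := h
  refine ⟨fun u σ => A u (finProdFinEquiv (a u, σ)), fun s => ?_⟩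
  rw [sl'_apply, hA]

lemma sum_sl (Φ : Hil (d * d') L) : ∑ b, ‖sl Φ b‖ ^ 2 = ‖Φ‖ ^ 2 := by
  simp only [EuclideanSpace.norm_sq_eq]
  rw [← (confEquiv d d' L).sum_comp, Fintype.sum_prod_type_right]
  rfl

lemma sum_sl' (Φ : Hil (d * d') L) : ∑ a, ‖sl' Φ a‖ ^ 2 = ‖Φ‖ ^ 2 := by
  simp only [EuclideanSpace.norm_sq_eq]
  rw [← (confEquiv d d' L).sum_comp, Fintype.sum_prod_type]
  rfl

lemma sl_stk (x : Hil d L) (y : Hil d' L) (b : Conf d' L) : sl (stk x y) b = y b • x := by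
  ext s
  rw [sl_apply]
  change x _ * y _ = y b * x s
  simp [mul_comm]

lemma sl'_stk (x : Hil d L) (y : Hil d' L) (a : Conf d L) : sl' (stk x y) a = x a • y := by
  ext s
  rw [sl'_apply]
  change x _ * y _ = x a * y s
  simp

lemma sl_sub (Φ Φ' : Hil (d * d') L) (b : Conf d' L) : sl (Φ - Φ') b = sl Φ b - sl Φ' b := rfl

lemma sl'_sub (Φ Φ' : Hil (d * d') L) (a : Conf d L) : sl' (Φ - Φ') a = sl' Φ a - sl' Φ' a := rfl

lemma norm_stk (x : Hil d L) (y : Hil d' L) : ‖stk x y‖ = ‖x‖ * ‖y‖ := by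
  have e : ‖stk x y‖ ^ 2 = (‖x‖ * ‖y‖) ^ 2 := by
    rw [← sum_sl]
    simp_rw [sl_stk, norm_smul, mul_pow]
    rw [← Finset.sum_mul, ← EuclideanSpace.norm_sq_eq]
    ring
  exact (sq_eq_sq₀ (norm_nonneg _) (by positivity)).mp e

lemma stk_sub (x x' : Hil d L) (y : Hil d' L) : stk (x - x') y = stk x y - stk x' y := by
  ext s
  change (x _ - x' _) * y _ = x _ * y _ - x' _ * y _
  ring

lemma stk_sub' (x : Hil d L) (y y' : Hil d' L) : stk x (y - y') = stk x y - stk x y' := by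
  ext s
  change x _ * (y _ - y' _) = x _ * y _ - x _ * y' _
  ring

/-- Averaging. -/
lemma exists_coeff {ι V : Type} [Fintype ι] [NormedAddCommGroup V] [NormedSpace ℂ V]
    {x : V} {c : ι → ℂ} (hc : ∑ i, ‖c i‖ ^ 2 = 1) {z : ι → V} {ε : ℝ} (hε : 0 ≤ ε)
    (h : ∑ i, ‖z i - c i • x‖ ^ 2 ≤ ε ^ 2) : ∃ i, ‖(c i)⁻¹ • z i - x‖ ≤ ε := by
  by_contra hcon
  push Not at hcon
  have h1 : ∀ i, ε ^ 2 * ‖c i‖ ^ 2 ≤ ‖z i - c i • x‖ ^ 2 := by
    intro i
    by_cases hi : c i = 0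
    · rw [hi]; simp
    · have h2 := (hcon i).le
      have h3 : ‖z i - c i • x‖ = ‖c i‖ * ‖(c i)⁻¹ • z i - x‖ := by
        rw [← norm_smul, smul_sub, smul_smul, mul_inv_cancel₀ hi, one_smul]
      rw [h3, mul_pow, mul_comm]
      gcongr
  obtain ⟨j, hj⟩ : ∃ j, c j ≠ 0 := by
    by_contra hcon2
    push Not at hcon2
    simp [hcon2] at hc
  have h2 : ε ^ 2 * ‖c j‖ ^ 2 < ‖z j - c j • x‖ ^ 2 := by
    have h3 : ‖z j - c j • x‖ = ‖c j‖ * ‖(c j)⁻¹ • z j - x‖ := by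
      rw [← norm_smul, smul_sub, smul_smul, mul_inv_cancel₀ hj, one_smul]
    have h4 : 0 < ‖c j‖ := norm_pos_iff.mpr hj
    rw [h3, mul_pow, mul_comm]
    have h5 := hcon j
    gcongr
  have h3 : ∑ i, ε ^ 2 * ‖c i‖ ^ 2 < ∑ i, ‖z i - c i • x‖ ^ 2 :=
    Finset.sum_lt_sum (fun i _ => h1 i) ⟨j, Finset.mem_univ j, h2⟩
  rw [← Finset.mul_sum, hc] at h3
  linarith

theorem approx_left {x : Hil d L} {y : Hil d' L} (hy : ‖y‖ = 1) {Φ : Hil (d * d') L} {ε : ℝ}
    (h : ‖Φ - stk x y‖ ≤ ε) {D : ℕ} (hΦ : IsPEPS D Φ) :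
    ∃ φ : Hil d L, IsPEPS D φ ∧ ‖φ - x‖ ≤ ε := by
  have hε : 0 ≤ ε := (norm_nonneg _).trans h
  obtain ⟨b, hb⟩ := exists_coeff (x := x) (c := fun b => y b) (z := fun b => sl Φ b) (by
    rw [← EuclideanSpace.norm_sq_eq, hy]; norm_num) hε (by
    have e : ∀ b, ‖sl Φ b - y b • x‖ ^ 2 = ‖sl (Φ - stk x y) b‖ ^ 2 := by
      intro b
      rw [sl_sub, sl_stk]
    simp_rw [e]
    rw [sum_sl]
    gcongr)
  exact ⟨_, (sl_peps hΦ b).smul _, hb⟩

theorem approx_right {x : Hil d L} {y : Hil d' L} (hx : ‖x‖ = 1) {Φ : Hil (d * d') L} {ε : ℝ}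
    (h : ‖Φ - stk x y‖ ≤ ε) {D : ℕ} (hΦ : IsPEPS D Φ) :
    ∃ φ : Hil d' L, IsPEPS D φ ∧ ‖φ - y‖ ≤ ε := by
  have hε : 0 ≤ ε := (norm_nonneg _).trans h
  obtain ⟨b, hb⟩ := exists_coeff (x := y) (c := fun b => x b) (z := fun b => sl' Φ b) (by
    rw [← EuclideanSpace.norm_sq_eq, hx]; norm_num) hε (by
    have e : ∀ b, ‖sl' Φ b - x b • y‖ ^ 2 = ‖sl' (Φ - stk x y) b‖ ^ 2 := by
      intro b
      rw [sl'_sub, sl'_stk]
    simp_rw [e]
    rw [sum_sl']
    gcongr)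
  exact ⟨_, (sl'_peps hΦ b).smul _, hb⟩

/-- The product of two projected entangled pair states. -/
theorem stk_peps {D D' : ℕ} {x : Hil d L} {y : Hil d' L} (hx : IsPEPS D x) (hy : IsPEPS D' y) :
    IsPEPS (D * D') (stk x y) := by
  classical
  obtain ⟨A, hA⟩ := hx
  obtain ⟨B, hB⟩ := hy
  have hcard : Fintype.card (Fin D × Fin D') = D * D' := by
    simp [Fintype.card_prod]
  rw [← hcard]
  apply IsPEPSL.isPEPS
  refine ⟨fun u σ p q p' q' => A u (finProdFinEquiv.symm σ).1 p.1 q.1 p'.1 q'.1 *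
    B u (finProdFinEquiv.symm σ).2 p.2 q.2 p'.2 q'.2, fun s => ?_⟩
  set e := (Equiv.arrowProdEquivProdArrow (Site L) (fun _ => Fin D) (fun _ => Fin D')).symm with he
  change x _ * y _ = _
  rw [hA, hB]
  rw [← e.sum_comp, Fintype.sum_prod_type]
  have h3 : ∀ (a : Site L → Fin D) (α : Site L → Fin D'),
      (∑ b : Site L → Fin D × Fin D', ∏ u : Site L,
        A u (finProdFinEquiv.symm (s u)).1 (e (a, α) u).1 (b u).1 (e (a, α) (u.1 - 1, u.2)).1
          (b (u.1, u.2 - 1)).1 * B u (finProdFinEquiv.symm (s u)).2 (e (a, α) u).2 (b u).2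
          (e (a, α) (u.1 - 1, u.2)).2 (b (u.1, u.2 - 1)).2) =
      ∑ b : Site L → Fin D, ∑ β : Site L → Fin D',
        (∏ u : Site L, A u (finProdFinEquiv.symm (s u)).1 (a u) (b u) (a (u.1 - 1, u.2))
          (b (u.1, u.2 - 1))) *
        ∏ u : Site L, B u (finProdFinEquiv.symm (s u)).2 (α u) (β u) (α (u.1 - 1, u.2))
          (β (u.1, u.2 - 1)) := by
    intro a α
    rw [← e.sum_comp, Fintype.sum_prod_type]
    refine Finset.sum_congr rfl fun b _ => Finset.sum_congr rfl fun β _ => ?_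
    rw [← Finset.prod_mul_distrib]
    rfl
  simp_rw [h3]
  rw [Finset.sum_mul_sum]
  refine Finset.sum_congr rfl fun a _ => Finset.sum_congr rfl fun α _ => ?_
  rw [Finset.sum_mul_sum]

omit [NeZero L]

/-- The class of approximable families is closed under products and tensor factors. -/
theorem polyAcc_stk_iff {Ψ : ∀ (L : ℕ) [NeZero L], Hil d L} {Ψ' : ∀ (L : ℕ) [NeZero L], Hil d' L}
    {L₁ : ℕ} (hΨ : ∀ (L : ℕ) [NeZero L], L₁ ≤ L → ‖Ψ L‖ = 1)
    (hΨ' : ∀ (L : ℕ) [NeZero L], L₁ ≤ L → ‖Ψ' L‖ = 1) :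
    (PolyAcc fun (L : ℕ) [NeZero L] => stk (Ψ L) (Ψ' L)) ↔ PolyAcc Ψ ∧ PolyAcc Ψ' := by
  constructor
  · intro H
    constructor
    · intro c hc
      obtain ⟨k, C, L₀, hL₀⟩ := H c hc
      refine ⟨k, C, max L₀ L₁, fun L _ hL => ?_⟩
      obtain ⟨D, Φ, h1, h2, h3⟩ := hL₀ L ((le_max_left _ _).trans hL)
      obtain ⟨φ, h4, h5⟩ := approx_left (hΨ' L ((le_max_right _ _).trans hL)) h3 h1
      exact ⟨D, φ, h4, h2, h5⟩
    · intro c hc
      obtain ⟨k, C, L₀, hL₀⟩ := H c hc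
      refine ⟨k, C, max L₀ L₁, fun L _ hL => ?_⟩
      obtain ⟨D, Φ, h1, h2, h3⟩ := hL₀ L ((le_max_left _ _).trans hL)
      obtain ⟨φ, h4, h5⟩ := approx_right (hΨ L ((le_max_right _ _).trans hL)) h3 h1
      exact ⟨D, φ, h4, h2, h5⟩
  · rintro ⟨H, H'⟩ c hc
    obtain ⟨k, C, L₀, hL₀⟩ := H (c + 1) (by linarith)
    obtain ⟨k', C', L₀', hL₀'⟩ := H' (c + 1) (by linarith)
    refine ⟨k + k', |C| + |C'|, max (max L₀ L₀') (max 3 L₁), fun L _ hL => ?_⟩
    rw [max_le_iff, max_le_iff, max_le_iff] at hL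
    obtain ⟨⟨hL0, hL0'⟩, hL3, hL1⟩ := hL
    obtain ⟨D, Φ, h1, h2, h3⟩ := hL₀ L hL0
    obtain ⟨D', Φ', h1', h2', h3'⟩ := hL₀' L hL0'
    have h5 := one_le_log (L := L) hL3
    have hL3' : (3 : ℝ) ≤ L := by exact_mod_cast hL3
    refine ⟨D * D', stk Φ Φ', stk_peps h1 h1', ?_, ?_⟩
    · rw [Nat.cast_mul]
      calc (D : ℝ) * D' ≤ Real.exp (C * (Real.log L) ^ k) * Real.exp (C' * (Real.log L) ^ k') :=
            mul_le_mul h2 h2' (Nat.cast_nonneg _) (Real.exp_pos _).le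
        _ = Real.exp (C * (Real.log L) ^ k + C' * (Real.log L) ^ k') := by rw [Real.exp_add]
        _ ≤ _ := by
            refine Real.exp_le_exp.mpr ?_
            have e1 : C * (Real.log L) ^ k ≤ |C| * (Real.log L) ^ (k + k') :=
              mul_le_mul (le_abs_self _) (pow_le_pow_right₀ h5 (by omega)) (by positivity)
                (abs_nonneg _)
            have e2 : C' * (Real.log L) ^ k' ≤ |C'| * (Real.log L) ^ (k + k') :=
              mul_le_mul (le_abs_self _) (pow_le_pow_right₀ h5 (by omega)) (by positivity)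
                (abs_nonneg _)
            linarith
    · set δ : ℝ := (L : ℝ) ^ (-(c + 1)) with hδ
      have hL0p : (0 : ℝ) < L := by linarith
      have hδ0 : 0 < δ := Real.rpow_pos_of_pos hL0p _
      have hδ1 : δ ≤ 1 := Real.rpow_le_one_of_one_le_of_nonpos (by linarith) (by linarith)
      have e0 : stk Φ Φ' - stk (Ψ L) (Ψ' L) = stk (Φ - Ψ L) Φ' + stk (Ψ L) (Φ' - Ψ' L) := by
        rw [stk_sub, stk_sub']; abel
      have e1 : ‖Φ'‖ ≤ 2 := by
        calc ‖Φ'‖ = ‖(Φ' - Ψ' L) + Ψ' L‖ := by rw [sub_add_cancel]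
          _ ≤ ‖Φ' - Ψ' L‖ + ‖Ψ' L‖ := norm_add_le _ _
          _ ≤ 2 := by rw [hΨ' L hL1]; linarith
      have e2 : ‖stk Φ Φ' - stk (Ψ L) (Ψ' L)‖ ≤ 3 * δ := by
        rw [e0]
        refine (norm_add_le _ _).trans ?_
        rw [norm_stk, norm_stk, hΨ L hL1, one_mul]
        have e3 : ‖Φ - Ψ L‖ * ‖Φ'‖ ≤ δ * 2 := mul_le_mul h3 e1 (norm_nonneg _) hδ0.le
        linarith
      refine e2.trans ?_
      have e4 : (L : ℝ) ^ (-c) = L * δ := by
        rw [hδ]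
        conv_rhs => rw [← Real.rpow_one (L : ℝ), ← Real.rpow_mul hL0p.le, one_mul,
          ← Real.rpow_add hL0p]
        congr 1
        ring
      rw [e4]
      exact mul_le_mul_of_nonneg_right hL3' hδ0.le

end Pool.Agent.FFG.GP
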