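import Mathlib

/-!
# GP7: the filter function
-/

set_option autoImplicit false

namespace Pool.Agent.FFG.GP

open Complex MeasureTheory Set

private lemma gp07_base {τ : ℝ} (hτ : 0 < τ) {ω : ℝ} (hω : ω ≠ 0) :
    (∫ t in (0 : ℝ)..τ, ((1 - t / τ : ℝ) : ℂ) * exp (I * ω * t)) + 1 / (I * ω) =
      (exp (I * ω * τ) - 1) / (τ * (I * ω) ^ 2) := by
  have hωc : (ω : ℂ) ≠ 0 := by exact_mod_cast hω
  have hI : (I : ℂ) ≠ 0 := I_ne_zero
  have hω' : (I * ω : ℂ) ≠ 0 := mul_ne_zero I_ne_zero hωc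
  have hτ' : (τ : ℂ) ≠ 0 := by exact_mod_cast hτ.ne'
  have hd : ∀ t : ℝ, HasDerivAt (fun t : ℝ => ((1 - t / τ : ℝ) : ℂ) * exp (I * ω * t) / (I * ω) +
      exp (I * ω * t) / (τ * (I * ω) ^ 2)) (((1 - t / τ : ℝ) : ℂ) * exp (I * ω * t)) t := by
    intro t
    have h1 : HasDerivAt (fun t : ℝ => ((1 - t / τ : ℝ) : ℂ)) (((-(1 / τ) : ℝ)) : ℂ) t := by
      refine HasDerivAt.ofReal_comp ?_
      have := ((hasDerivAt_id t).div_const τ).const_sub 1
      simpa using this
    have h2 : HasDerivAt (fun t : ℝ => exp (I * ω * t)) (exp (I * ω * t) * (I * ω)) t := by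
      have h3 : HasDerivAt (fun t : ℝ => I * ω * (t : ℂ)) (I * ω * 1) t :=
        (hasDerivAt_id t).ofReal_comp.const_mul (I * (ω : ℂ))
      simpa using h3.cexp
    have h4 := ((h1.mul h2).div_const (I * (ω : ℂ))).add (h2.div_const (τ * (I * ω) ^ 2))
    refine h4.congr_deriv ?_
    push_cast
    field_simp
    ring
  rw [intervalIntegral.integral_eq_sub_of_hasDerivAt (fun t _ => hd t)
    (Continuous.intervalIntegrable (by fun_prop) _ _)]
  have h0 : (1 - τ / τ : ℝ) = 0 := by rw [div_self hτ.ne']; ring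
  simp only [h0]
  simp
  field_simp
  ring

private lemma gp07_step {τ : ℝ} (hτ : 0 < τ) {T : ℝ} {w v : ℝ → ℝ}
    (hw : Continuous w) (hw1 : ∀ t, t ≤ 0 → w t = 1) (hw0 : ∀ t, T ≤ t → w t = 0)
    (hv : ∀ t, HasDerivAt v ((w t - w (t - τ)) / τ) t) (hv1 : v 0 = 1) (hv0 : v (T + τ) = 0)
    {ω : ℝ} (hω : ω ≠ 0) :
    (∫ t in (0 : ℝ)..(T + τ), (v t : ℂ) * exp (I * ω * t)) + 1 / (I * ω) =
      (exp (I * ω * τ) - 1) / (τ * (I * ω)) *
        ((∫ t in (0 : ℝ)..T, (w t : ℂ) * exp (I * ω * t)) + 1 / (I * ω)) := by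
  have hωc : (ω : ℂ) ≠ 0 := by exact_mod_cast hω
  have hI : (I : ℂ) ≠ 0 := I_ne_zero
  have hω' : (I * ω : ℂ) ≠ 0 := mul_ne_zero I_ne_zero hωc
  have hτ' : (τ : ℂ) ≠ 0 := by exact_mod_cast hτ.ne'
  have hexp : ∀ t : ℝ, HasDerivAt (fun t : ℝ => exp (I * ω * t)) (exp (I * ω * t) * (I * ω)) t := by
    intro t
    have h3 : HasDerivAt (fun t : ℝ => I * ω * (t : ℂ)) (I * ω * 1) t :=
      (hasDerivAt_id t).ofReal_comp.const_mul (I * (ω : ℂ))
    simpa using h3.cexp
  have hwτ : Continuous fun t : ℝ => w (t - τ) := hw.comp (by fun_prop)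
  have hd : ∀ t : ℝ, HasDerivAt (fun t : ℝ => (v t : ℂ) * exp (I * ω * t) / (I * ω))
      ((((w t - w (t - τ)) / τ : ℝ) : ℂ) * exp (I * ω * t) / (I * ω) +
        (v t : ℂ) * exp (I * ω * t)) t := by
    intro t
    refine (((hv t).ofReal_comp.mul (hexp t)).div_const (I * (ω : ℂ))).congr_deriv ?_
    field_simp
  have hvc : Continuous v := continuous_iff_continuousAt.mpr fun t => (hv t).continuousAt
  have hA : Continuous fun t : ℝ => (((w t - w (t - τ)) / τ : ℝ) : ℂ) * exp (I * ω * t) /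
      (I * ω) := by fun_prop
  have hB : Continuous fun t : ℝ => (v t : ℂ) * exp (I * ω * t) := by fun_prop
  have h1 := intervalIntegral.integral_eq_sub_of_hasDerivAt (a := (0 : ℝ)) (b := T + τ)
    (fun t _ => hd t) ((hA.add hB).intervalIntegrable _ _)
  rw [intervalIntegral.integral_add (hA.intervalIntegrable _ _) (hB.intervalIntegrable _ _)] at h1
  simp only [hv1, hv0] at h1
  -- the first integral
  have hC : Continuous fun t : ℝ => (w t : ℂ) * exp (I * ω * t) := by fun_prop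
  have hD : Continuous fun t : ℝ => (w (t - τ) : ℂ) * exp (I * ω * t) := by fun_prop
  have h2 : (∫ t in (0 : ℝ)..(T + τ), (((w t - w (t - τ)) / τ : ℝ) : ℂ) * exp (I * ω * t) /
      (I * ω)) = (τ * (I * ω))⁻¹ * ((∫ t in (0 : ℝ)..(T + τ), (w t : ℂ) * exp (I * ω * t)) -
        ∫ t in (0 : ℝ)..(T + τ), (w (t - τ) : ℂ) * exp (I * ω * t)) := by
    rw [← intervalIntegral.integral_sub (hC.intervalIntegrable _ _) (hD.intervalIntegrable _ _),
      ← intervalIntegral.integral_const_mul]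
    refine intervalIntegral.integral_congr fun t _ => ?_
    push_cast
    field_simp
  have h3 : (∫ t in (0 : ℝ)..(T + τ), (w t : ℂ) * exp (I * ω * t)) =
      ∫ t in (0 : ℝ)..T, (w t : ℂ) * exp (I * ω * t) := by
    rw [← intervalIntegral.integral_add_adjacent_intervals (hC.intervalIntegrable 0 T)
      (hC.intervalIntegrable T (T + τ))]
    have : (∫ t in T..(T + τ), (w t : ℂ) * exp (I * ω * t)) = 0 := by
      rw [intervalIntegral.integral_congr (g := fun _ => (0 : ℂ))]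
      · simp
      · intro t ht
        rw [uIcc_of_le (by linarith)] at ht
        simp [hw0 t ht.1]
    rw [this, add_zero]
  have h4 : (∫ t in (0 : ℝ)..(T + τ), (w (t - τ) : ℂ) * exp (I * ω * t)) =
      exp (I * ω * τ) * ((1 - exp (-(I * ω * τ))) / (I * ω) +
        ∫ t in (0 : ℝ)..T, (w t : ℂ) * exp (I * ω * t)) := by
    have h5 : (∫ t in (0 : ℝ)..(T + τ), (w (t - τ) : ℂ) * exp (I * ω * t)) =
        ∫ t in (0 : ℝ)..(T + τ), (fun u : ℝ => exp (I * ω * τ) * ((w u : ℂ) * exp (I * ω * u)))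
          (t - τ) := by
      refine intervalIntegral.integral_congr fun t _ => ?_
      simp only
      rw [mul_left_comm, ← Complex.exp_add]
      congr 2
      push_cast
      ring
    rw [h5, intervalIntegral.integral_comp_sub_right
      (fun u : ℝ => exp (I * ω * τ) * ((w u : ℂ) * exp (I * ω * u))) τ,
      intervalIntegral.integral_const_mul]
    congr 1
    have e1 : (0 : ℝ) - τ = -τ := by ring
    have e2 : T + τ - τ = T := by ring
    rw [e1, e2, ← intervalIntegral.integral_add_adjacent_intervals (hC.intervalIntegrable (-τ) 0)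
      (hC.intervalIntegrable 0 T)]
    congr 1
    rw [intervalIntegral.integral_congr (g := fun t : ℝ => exp (I * ω * t))]
    · rw [intervalIntegral.integral_eq_sub_of_hasDerivAt
        (f := fun t : ℝ => exp (I * ω * t) / (I * ω))
        (fun t _ => ((hexp t).div_const (I * (ω : ℂ))).congr_deriv (by field_simp))
        (Continuous.intervalIntegrable (by fun_prop) _ _)]
      have e3 : I * (ω : ℂ) * ((-τ : ℝ) : ℂ) = -(I * ω * τ) := by push_cast; ring
      have e4 : I * (ω : ℂ) * ((0 : ℝ) : ℂ) = 0 := by push_cast; ring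
      rw [e3, e4, Complex.exp_zero]
      rw [sub_div]
    · intro t ht
      rw [uIcc_of_le (by linarith)] at ht
      simp [hw1 t ht.2]
  rw [h2, h3, h4] at h1
  have h6 : exp (I * ω * τ) * exp (-(I * ω * τ)) = 1 := by
    rw [← Complex.exp_add]; simp
  set G := ∫ t in (0 : ℝ)..T, (w t : ℂ) * exp (I * ω * t)
  set H := ∫ t in (0 : ℝ)..(T + τ), (v t : ℂ) * exp (I * ω * t)
  have h7 : H = (((0 : ℝ) : ℂ) * exp (I * ω * ((T + τ : ℝ) : ℂ)) / (I * ω) -
      ((1 : ℝ) : ℂ) * exp (I * ω * ((0 : ℝ) : ℂ)) / (I * ω)) - (τ * (I * ω))⁻¹ * (G -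
        exp (I * ω * τ) * ((1 - exp (-(I * ω * τ))) / (I * ω) + G)) := by
    rw [← h1]; ring
  rw [h7]
  have h8 : exp (I * ω * τ) * ((1 - exp (-(I * ω * τ))) / (I * ω) + G) =
      (exp (I * ω * τ) - 1) / (I * ω) + exp (I * ω * τ) * G := by
    have : exp (I * ω * τ) * ((1 - exp (-(I * ω * τ))) / (I * ω) + G) =
      (exp (I * ω * τ) - exp (I * ω * τ) * exp (-(I * ω * τ))) / (I * ω) +
        exp (I * ω * τ) * G := by ring
    rw [this, h6]
  rw [h8]
  have h9 : exp (I * (ω : ℂ) * ((0 : ℝ) : ℂ)) = 1 := by simp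
  rw [h9]
  generalize exp (I * (ω : ℂ) * (τ : ℂ)) = E
  push_cast
  field_simp
  ring_nf
  try simp only [Complex.I_sq]
  try ring

private lemma gp07_exists {τ : ℝ} (hτ : 0 < τ) (n : ℕ) : ∃ w : ℝ → ℝ, Continuous w ∧
    (∀ t, 0 ≤ w t ∧ w t ≤ 1) ∧ (∀ t, t ≤ 0 → w t = 1) ∧ (∀ t, (n + 1) * τ ≤ t → w t = 0) ∧
    ∀ ω : ℝ, ω ≠ 0 → ‖(∫ t in (0 : ℝ)..((n + 1) * τ), (w t : ℂ) * exp (I * ω * t)) +
      1 / (I * ω)‖ ≤ (2 / (τ * |ω|)) ^ (n + 1) / |ω| := by
  have hnorm : ∀ ω : ℝ, ‖exp (I * ω * τ) - 1‖ ≤ 2 := by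
    intro ω
    calc ‖exp (I * ω * τ) - 1‖ ≤ ‖exp (I * ω * τ)‖ + ‖(1 : ℂ)‖ := norm_sub_le _ _
      _ = 2 := by
        rw [show I * ω * τ = ((ω * τ : ℝ) : ℂ) * I by push_cast; ring, Complex.norm_exp_ofReal_mul_I]
        norm_num
  induction n with
  | zero =>
    refine ⟨fun t => max 0 (min 1 (1 - t / τ)), by fun_prop, fun t => ⟨le_max_left _ _, ?_⟩, ?_,
      ?_, ?_⟩
    · exact max_le zero_le_one (min_le_left _ _)
    · intro t ht
      have : t / τ ≤ 0 := div_nonpos_of_nonpos_of_nonneg ht hτ.le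
      simp only
      rw [min_eq_left (by linarith), max_eq_right zero_le_one]
    · intro t ht
      have : 1 ≤ t / τ := by rw [le_div_iff₀ hτ]; simpa using ht
      simp only
      rw [max_eq_left]
      exact (min_le_right _ _).trans (by linarith)
    · intro ω hω
      have h1 : (∫ t in (0 : ℝ)..(((0 : ℕ) + 1) * τ), ((max 0 (min 1 (1 - t / τ)) : ℝ) : ℂ) *
          exp (I * ω * t)) = ∫ t in (0 : ℝ)..τ, ((1 - t / τ : ℝ) : ℂ) * exp (I * ω * t) := by
        have e : ((((0 : ℕ) : ℝ) + 1) * τ) = τ := by push_cast; ring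
        rw [e]
        refine intervalIntegral.integral_congr fun t ht => ?_
        rw [uIcc_of_le hτ.le] at ht
        have h2 : 0 ≤ t / τ := div_nonneg ht.1 hτ.le
        have h3 : t / τ ≤ 1 := by rw [div_le_iff₀ hτ]; linarith [ht.2]
        rw [min_eq_right (by linarith), max_eq_right (by linarith)]
      simp only
      rw [h1, gp07_base hτ hω, norm_div]
      have h4 : ‖(τ : ℂ) * (I * ω) ^ 2‖ = τ * |ω| ^ 2 := by
        rw [norm_mul, norm_pow, norm_mul, Complex.norm_I, one_mul, Complex.norm_real,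
          Complex.norm_real, Real.norm_eq_abs, Real.norm_eq_abs, abs_of_pos hτ]
      rw [h4]
      have hω2 : 0 < |ω| := abs_pos.mpr hω
      calc ‖exp (I * ω * τ) - 1‖ / (τ * |ω| ^ 2) ≤ 2 / (τ * |ω| ^ 2) := by
            gcongr; exact hnorm ω
        _ = (2 / (τ * |ω|)) ^ (0 + 1) / |ω| := by rw [zero_add, pow_one]; field_simp
  | succ n ih =>
    obtain ⟨w, hw, hw01, hw1, hw0, hwω⟩ := ih
    have hF : ∀ t, HasDerivAt (fun t => ∫ u in (0 : ℝ)..t, w u) (w t) t := fun t =>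
      (hw.integral_hasStrictDerivAt 0 t).hasDerivAt
    set v : ℝ → ℝ := fun t => ((∫ u in (0 : ℝ)..t, w u) - ∫ u in (0 : ℝ)..(t - τ), w u) / τ with hv
    have hvd : ∀ t, HasDerivAt v ((w t - w (t - τ)) / τ) t := by
      intro t
      have h2 : HasDerivAt (fun t => ∫ u in (0 : ℝ)..(t - τ), w u) (w (t - τ)) t := by
        have := HasDerivAt.comp t (hF (t - τ)) ((hasDerivAt_id t).sub_const τ)
        rw [mul_one] at this
        exact this
      exact ((hF t).sub h2).div_const τ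
    have hveq : ∀ t, v t = (∫ u in (t - τ)..t, w u) / τ := by
      intro t
      simp only [hv]
      rw [intervalIntegral.integral_interval_sub_left (hw.intervalIntegrable _ _)
        (hw.intervalIntegrable _ _)]
    have hT : ((n + 1 : ℕ) + 1 : ℝ) * τ = (n + 1) * τ + τ := by push_cast; ring
    have hn : (0 : ℝ) ≤ (n + 1) * τ := by positivity
    have hv1 : ∀ t, t ≤ 0 → v t = 1 := by
      intro t ht
      rw [hveq, intervalIntegral.integral_congr (g := fun _ => (1 : ℝ))]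
      · simp [hτ.ne']
      · intro u hu
        rw [uIcc_of_le (by linarith)] at hu
        exact hw1 u (hu.2.trans ht)
    have hv0 : ∀ t, ((n + 1 : ℕ) + 1 : ℝ) * τ ≤ t → v t = 0 := by
      intro t ht
      rw [hT] at ht
      rw [hveq, intervalIntegral.integral_congr (g := fun _ => (0 : ℝ))]
      · simp
      · intro u hu
        rw [uIcc_of_le (by linarith)] at hu
        exact hw0 u (by linarith [hu.1])
    refine ⟨v, continuous_iff_continuousAt.mpr fun t => (hvd t).continuousAt, fun t => ⟨?_, ?_⟩,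
      hv1, hv0, ?_⟩
    · rw [hveq]
      exact div_nonneg (intervalIntegral.integral_nonneg (by linarith) fun u _ => (hw01 u).1) hτ.le
    · rw [hveq, div_le_one hτ]
      calc (∫ u in (t - τ)..t, w u) ≤ ∫ _ in (t - τ)..t, (1 : ℝ) :=
            intervalIntegral.integral_mono_on (by linarith) (hw.intervalIntegrable _ _)
              (by simp) fun u _ => (hw01 u).2
        _ = τ := by simp
    · intro ω hω
      have h1 := gp07_step hτ hw hw1 hw0 hvd (hv1 0 le_rfl) (hv0 _ (by rw [hT])) hω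
      rw [hT, h1, norm_mul, norm_div]
      have hω2 : 0 < |ω| := abs_pos.mpr hω
      have h4 : ‖(τ : ℂ) * (I * ω)‖ = τ * |ω| := by
        rw [norm_mul, norm_mul, Complex.norm_I, one_mul, Complex.norm_real,
          Complex.norm_real, Real.norm_eq_abs, Real.norm_eq_abs, abs_of_pos hτ]
      rw [h4]
      calc ‖exp (I * ω * τ) - 1‖ / (τ * |ω|) * ‖(∫ t in (0 : ℝ)..((n + 1) * τ), (w t : ℂ) *
            exp (I * ω * t)) + 1 / (I * ω)‖
          ≤ 2 / (τ * |ω|) * ((2 / (τ * |ω|)) ^ (n + 1) / |ω|) := by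
            gcongr
            · exact hnorm ω
            · exact hwω ω hω
        _ = (2 / (τ * |ω|)) ^ (n + 1 + 1) / |ω| := by rw [pow_succ]; ring

/-- GP7 (the filter function). -/
theorem exists_filter {Δ : ℝ} (hΔ : 0 < Δ) (n : ℕ) : ∃ (T : ℝ) (w : ℝ → ℝ), 0 < T ∧
    T ≤ 4 * (n + 1) / Δ ∧ Continuous w ∧ (∀ t, 0 ≤ w t ∧ w t ≤ 1) ∧ ∀ ω : ℝ, Δ ≤ |ω| →
      |(∫ t in (0 : ℝ)..T, w t * Real.sin (ω * t)) - 1 / ω| ≤ (1 / 2) ^ n / Δ := by
  have hτ : 0 < 4 / Δ := by positivity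
  obtain ⟨w, hw, hw01, -, -, hwω⟩ := gp07_exists hτ n
  refine ⟨(n + 1) * (4 / Δ), w, by positivity, le_of_eq (by ring), hw, hw01, ?_⟩
  intro ω hω
  have hω0 : ω ≠ 0 := fun h => by rw [h, abs_zero] at hω; linarith
  have hω2 : 0 < |ω| := abs_pos.mpr hω0
  have h1 := hwω ω hω0
  have hC : Continuous fun t : ℝ => (w t : ℂ) * exp (I * ω * t) := by fun_prop
  have h2 : ((∫ t in (0 : ℝ)..((n + 1) * (4 / Δ)), (w t : ℂ) * exp (I * ω * t)) +
      1 / (I * ω)).im = (∫ t in (0 : ℝ)..((n + 1) * (4 / Δ)), w t * Real.sin (ω * t)) - 1 / ω := by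
    have h3 : (∫ t in (0 : ℝ)..((n + 1) * (4 / Δ)), (w t : ℂ) * exp (I * ω * t)).im =
        ∫ t in (0 : ℝ)..((n + 1) * (4 / Δ)), w t * Real.sin (ω * t) := by
      have h4 := Complex.imCLM.intervalIntegral_comp_comm (hC.intervalIntegrable 0
        ((n + 1) * (4 / Δ)) (μ := volume))
      simp only [Complex.imCLM_apply] at h4
      rw [← h4]
      refine intervalIntegral.integral_congr fun t _ => ?_
      have h5 : exp (I * ω * t) = exp (((ω * t : ℝ) : ℂ) * I) := by
        congr 1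
        push_cast
        ring
      rw [h5, Complex.im_ofReal_mul, Complex.exp_ofReal_mul_I_im]
    have h6 : (1 / (I * (ω : ℂ))).im = -(1 / ω) := by
      have h7 : (1 / (I * (ω : ℂ))) = ((-(1 / ω) : ℝ) : ℂ) * I := by
        have hωc : (ω : ℂ) ≠ 0 := by exact_mod_cast hω0
        have hI : (I : ℂ) ≠ 0 := I_ne_zero
        push_cast
        field_simp
        rw [Complex.I_sq]
        ring
      rw [h7, Complex.im_ofReal_mul, Complex.I_im, mul_one]
    rw [Complex.add_im, h3, h6]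
    ring
  rw [← h2]
  refine (Complex.abs_im_le_norm _).trans (h1.trans ?_)
  have h8 : 2 / (4 / Δ * |ω|) ≤ 1 / 2 := by
    rw [div_le_div_iff₀ (by positivity) (by norm_num)]
    have : (4 : ℝ) ≤ 4 / Δ * |ω| := by
      rw [div_mul_eq_mul_div, le_div_iff₀ hΔ]
      linarith
    linarith
  calc (2 / (4 / Δ * |ω|)) ^ (n + 1) / |ω| ≤ (1 / 2) ^ (n + 1) / Δ := by
        gcongr
    _ ≤ (1 / 2) ^ n / Δ := by
        gcongr ?_ / Δ
        exact pow_le_pow_of_le_one (by norm_num) (by norm_num) (Nat.le_succ n)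

end Pool.Agent.FFG.GP
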