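import Pool.Agent.FFG.GP.Exists
import Pool.Agent.FFG.GP.Unitary

/-!
# The commutator term does not change the norm
-/

open Finset
open scoped InnerProductSpace

set_option autoImplicit false

namespace Pool.Agent.FFG.GP

variable {E : Type} [NormedAddCommGroup E] [InnerProductSpace ℂ E] [CompleteSpace E]

/-- GP3 (the commutator term does not change the norm); assume GP1, GP2. -/
theorem norm_le_of_flow {a R f : ℝ → E →L[ℂ] E} (ha : Continuous a)
    (hsa : ∀ t, IsSelfAdjoint (a t)) {T : ℝ}
    (hf : ∀ t ∈ Set.Icc (0 : ℝ) T,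
      HasDerivAt f (Complex.I • (f t * a t - a t * f t) + R t) t)
    {B b : ℝ → ℝ} (hB : ∀ t, HasDerivAt B (b t) t) (hR : ∀ t ∈ Set.Icc (0 : ℝ) T, ‖R t‖ ≤ b t)
    (h0 : ‖f 0‖ ≤ B 0) : ∀ t ∈ Set.Icc (0 : ℝ) T, ‖f t‖ ≤ B t := by
  have ha' : Continuous fun t => -(a t) := ha.neg
  have hsa' : ∀ t, IsSelfAdjoint (-(a t)) := fun t => (hsa t).neg
  obtain ⟨V, hV⟩ := exists_propag (fun t => -(a t)) ha'
  have hV1 : ∀ t, HasDerivAt V (-(Complex.I • (a t * V t))) t := by
    intro t
    have h := hV.deriv t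
    rw [neg_mul, smul_neg] at h
    exact h
  have hV2 : ∀ t, HasDerivAt (fun t => star (V t)) (Complex.I • (star (V t) * a t)) t := by
    intro t
    have h := gp2_star_deriv hsa' hV t
    rw [mul_neg, smul_neg, neg_neg] at h
    exact h
  have hu := fun t => hV.unitary ha' hsa' t
  -- the transformed function
  have hF : ∀ t ∈ Set.Icc (0 : ℝ) T, HasDerivAt (fun t => star (V t) * f t * V t)
      (star (V t) * R t * V t) t := by
    intro t ht
    have h := ((hV2 t).mul (hf t ht)).mul (hV1 t)
    have e : (Complex.I • (star (V t) * a t) * f t +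
        star (V t) * (Complex.I • (f t * a t - a t * f t) + R t)) * V t +
        (star (V t) * f t) * -(Complex.I • (a t * V t)) = star (V t) * R t * V t := by
      simp only [smul_mul_assoc, mul_add, mul_smul_comm, add_mul, mul_neg, mul_sub, smul_sub,
        sub_mul, mul_assoc]
      abel
    rw [← e]
    exact h
  intro t ht
  have hT : 0 ≤ T := ht.1.trans ht.2
  have key := image_norm_le_of_norm_deriv_right_le_deriv_boundary
    (f := fun t => star (V t) * f t * V t) (f' := fun t => star (V t) * R t * V t)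
    (a := 0) (b := T) (B := B) (B' := b)
    (fun x hx => (hF x hx).continuousAt.continuousWithinAt)
    (fun x hx => (hF x ⟨hx.1, hx.2.le⟩).hasDerivWithinAt)
    (by simpa [hV.zero] using h0) hB
    (fun x hx => by
      refine le_trans ?_ (hR x ⟨hx.1, hx.2.le⟩)
      calc ‖star (V x) * R x * V x‖ ≤ ‖star (V x) * R x‖ * ‖V x‖ := norm_mul_le _ _
        _ ≤ (‖star (V x)‖ * ‖R x‖) * ‖V x‖ :=
          mul_le_mul_of_nonneg_right (norm_mul_le _ _) (norm_nonneg _)
        _ ≤ (1 * ‖R x‖) * 1 :=
          mul_le_mul (mul_le_mul_of_nonneg_right (gp2_norm_star_le ha' hsa' hV x) (norm_nonneg _))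
            (gp2_norm_le ha' hsa' hV x) (norm_nonneg _) (by positivity)
        _ = ‖R x‖ := by ring)
  have h1 := key ht
  have h2 : f t = V t * (star (V t) * f t * V t) * star (V t) := by
    have e : V t * (star (V t) * f t * V t) * star (V t) =
        (V t * star (V t)) * f t * (V t * star (V t)) := by simp only [mul_assoc]
    rw [e, (hu t).2, one_mul, mul_one]
  calc ‖f t‖ = ‖V t * (star (V t) * f t * V t) * star (V t)‖ := by rw [← h2]
    _ ≤ ‖V t * (star (V t) * f t * V t)‖ * ‖star (V t)‖ := norm_mul_le _ _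
    _ ≤ (‖V t‖ * ‖star (V t) * f t * V t‖) * ‖star (V t)‖ :=
      mul_le_mul_of_nonneg_right (norm_mul_le _ _) (norm_nonneg _)
    _ ≤ (1 * ‖star (V t) * f t * V t‖) * 1 :=
      mul_le_mul (mul_le_mul_of_nonneg_right (gp2_norm_le ha' hsa' hV t) (norm_nonneg _))
        (gp2_norm_star_le ha' hsa' hV t) (norm_nonneg _) (by positivity)
    _ = ‖star (V t) * f t * V t‖ := by ring
    _ ≤ B t := h1

end Pool.Agent.FFG.GP
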