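import Pool.Agent.PEPS953.Transfer

/-!
# Insertion of rows and columns of sites
-/

open Finset

set_option autoImplicit false
set_option linter.unusedSectionVars false

namespace Pool.Agent.FFG.GPlain

open Pool.Agent.PEPS953.Plain

/-- The site of the torus of side `L` at which the site `u` of the torus of side `L'` is placed. -/
def place {L' : ℕ} (L : ℕ) (f g : ℕ → ℕ) (u : Site L') : Site L := (f u.1.val, g u.2.val)

open scoped Classical in
/-- The vector `x`, placed on the sites `place L f g u`, times the one-site vectors `φ w` at the
other sites `w`. -/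
noncomputable def insertAt {d L' : ℕ} (L : ℕ) [NeZero L] (f g : ℕ → ℕ) (φ : Site L → Fin d → ℂ)
    (x : Vec d L') : Vec d L := fun s =>
  x (fun u => s (place L f g u)) *
    ∏ w ∈ univ.filter (fun w => ∀ u : Site L', place L f g u ≠ w), φ w (s w)

/-- `y` is obtained from the vector `x` on the torus of side `L'` by the insertion of rows and
columns of sites in product states. -/
def Inserted {d L' L : ℕ} [NeZero L] (x : Vec d L') (y : Vec d L) : Prop :=
  ∃ (f g : ℕ → ℕ) (φ : Site L → Fin d → ℂ), StrictMono f ∧ StrictMono g ∧
    (∀ i < L', f i < L ∧ g i < L) ∧ y = insertAt L f g φ x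

end Pool.Agent.FFG.GPlain
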