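import Pool.Agent.FFG.GP.KVLocal
import Pool.Agent.FFG.GP.KVNorm
import Pool.Agent.FFG.Exotic
import Pool.Agent.FFG.Pos

/-!
# The truncated filtered terms form a system of local terms
-/

open Finset
open scoped InnerProductSpace

set_option autoImplicit false
set_option linter.unusedSectionVars false
set_option linter.unusedVariables false

namespace Pool.Agent.FFG.GP

open Pool.Agent.PEPS953

variable {d L r : ℕ} [NeZero L]

private theorem gp14_disjoint {σ : ℕ} {v w : Site L} (h : ¬ sdist v w ≤ 2 * σ) :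
    Disjoint (LT.ball σ {v}) (LT.ball σ {w}) := by
  rw [Finset.disjoint_left]
  intro u hu hu'
  unfold LT.ball at hu hu'
  rw [mem_filter] at hu hu'
  obtain ⟨-, v', hv', h1⟩ := hu
  obtain ⟨-, w', hw', h2⟩ := hu'
  rw [mem_singleton] at hv' hw'
  subst hv' hw'
  have h3 := sdist_triangle v' u w'
  rw [sdist_comm u w'] at h3
  omega

private theorem gp14_card (σ : ℕ) (v : Site L) :
    {w : Site L | sdist v w ≤ 2 * σ}.ncard ≤ (4 * σ + 1) ^ 2 := by
  have h1 := nbhd_card (2 * σ) ({v} : Finset (Site L))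
  rw [card_singleton, mul_one] at h1
  have h2 : {w : Site L | sdist v w ≤ 2 * σ} = ((nbhd (2 * σ) {v} : Finset (Site L)) :
      Set (Site L)) := by
    ext w
    unfold nbhd
    simp only [Set.mem_ofPred_eq, coe_filter, mem_univ, true_and, mem_singleton, exists_eq_left]
    rw [sdist_comm]
  rw [h2, Set.ncard_coe_finset]
  refine h1.trans (le_of_eq ?_)
  ring

/-- GP14 (the truncated filtered terms form a system of local terms). -/
theorem kv_lsys (hrL : r ≤ L) {h h' : Site L → ℝ → Matrix (LConf d r) (LConf d r) ℂ}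
    (hh : ∀ v, Continuous (h v)) (hh' : ∀ v, Continuous (h' v))
    (hherm : ∀ v s, (h v s).IsHermitian) (hherm' : ∀ v s, (h' v s).IsHermitian) {J' : ℝ}
    (hJ' : ∀ v s, entNorm (h' v s) ≤ J') {w : ℝ → ℝ} (hw : Continuous w)
    (hw1 : ∀ t, 0 ≤ w t ∧ w t ≤ 1) {T : ℝ} (hT : 0 ≤ T) (ρ : ℕ) :
    LSys (fun (v : Site L) (s : ℝ) =>
        KV (fun u => h u s) (fun u => h' u s) w T (LT.ball ρ {v}) v)
      (fun v O => LocalOn (LT.ball (ρ + r) {v}) O) (fun v w => sdist v w ≤ 2 * (ρ + r)) (T * J')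
      ((4 * (ρ + r) + 1) ^ 2) where
  cont v := KV_cont hh hh' hw T (LT.ball ρ {v}) v
  sa v s := KV_sa hrL (fun u => hherm u s) (fun u => hherm' u s) hw T (LT.ball ρ {v}) v
  norm v s := (KV_norm hrL (fun u => hherm u s) hw hw1 hT (LT.ball ρ {v}) v).trans
    (mul_le_mul_of_nonneg_left (hJ' v s) hT)
  loc v s := KV_local hrL (fun u => h u s) (fun u => h' u s) hw T ρ v
  comm v u s O hO hvu := LocalOn.commute (gp14_disjoint hvu) hO
    (KV_local hrL (fun u => h u s) (fun u => h' u s) hw T ρ u)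
  deg v := gp14_card (ρ + r) v

end Pool.Agent.FFG.GP
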