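import Pool.Agent.FFG.GP.Flow

/-!
# The Lieb-Robinson bound for the commutator
-/

open Finset
open scoped InnerProductSpace

set_option autoImplicit false
set_option linter.unusedSectionVars false
set_option linter.unusedVariables false

namespace Pool.Agent.FFG.GP

variable {E : Type} [NormedAddCommGroup E] [InnerProductSpace ℂ E] [CompleteSpace E]

theorem gp4_norm_comm_le (a b : E →L[ℂ] E) : ‖a * b - b * a‖ ≤ 2 * ‖a‖ * ‖b‖ := by
  calc ‖a * b - b * a‖ ≤ ‖a * b‖ + ‖b * a‖ := norm_sub_le _ _
    _ ≤ ‖a‖ * ‖b‖ + ‖b‖ * ‖a‖ := add_le_add (norm_mul_le _ _) (norm_mul_le _ _)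
    _ = 2 * ‖a‖ * ‖b‖ := by ring

theorem gp4_norm_conj_le {V : E →L[ℂ] E} (h1 : ‖V‖ ≤ 1) (O : E →L[ℂ] E) :
    ‖star V * O * V‖ ≤ ‖O‖ := by
  have h2 : ‖star V‖ ≤ 1 := by rwa [norm_star]
  calc ‖star V * O * V‖ ≤ ‖star V * O‖ * ‖V‖ := norm_mul_le _ _
    _ ≤ (‖star V‖ * ‖O‖) * ‖V‖ := mul_le_mul_of_nonneg_right (norm_mul_le _ _) (norm_nonneg _)
    _ ≤ (1 * ‖O‖) * 1 :=
      mul_le_mul (mul_le_mul_of_nonneg_right h2 (norm_nonneg _)) h1 (norm_nonneg _) (by positivity)
    _ = ‖O‖ := by ring

theorem gp4_cont {G U : ℝ → E →L[ℂ] E} (hU : Propag G U) : Continuous U :=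
  continuous_iff_continuousAt.mpr fun t => (hU.deriv t).continuousAt

/-- GP4 (Lieb–Robinson bound for the commutator); assume GP1–GP3. -/
theorem lr_comm {ι : Type} [Finite ι] {Z : ι → ℝ → E →L[ℂ] E} {Loc : ι → (E →L[ℂ] E) → Prop}
    {nc : ι → ι → Prop} {J : ℝ} {g : ℕ} (hJ : 0 ≤ J) (hZ : LSys Z Loc nc J g) (𝒮 : Finset ι)
    {U : ℝ → E →L[ℂ] E} (hU : Propag (fun t => ∑ v ∈ 𝒮, Z v t) U) (B : E →L[ℂ] E) (n : ℕ) (v : ι)
    (hB : ∀ m < n, ∀ w, reach nc m v w → ∀ O, Loc w O → B * O = O * B) (O : E →L[ℂ] E)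
    (hO : Loc v O) (t : ℝ) (ht : 0 ≤ t) :
    ‖B * (star (U t) * O * U t) - (star (U t) * O * U t) * B‖ ≤
      2 * ‖B‖ * ‖O‖ * ((2 * J * g * t) ^ n / n.factorial) := by
  classical
  have hG : Continuous fun t => ∑ v ∈ 𝒮, Z v t :=
    continuous_finsetSum _ fun v _ => hZ.cont v
  have hsa : ∀ t, IsSelfAdjoint (∑ v ∈ 𝒮, Z v t) := by
    intro t
    rw [IsSelfAdjoint, star_sum]
    exact Finset.sum_congr rfl fun v _ => (hZ.sa v t).star_eq
  have hUc : Continuous U := gp4_cont hU
  induction n generalizing v O t with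
  | zero =>
    have h1 := gp4_norm_comm_le B (star (U t) * O * U t)
    have h2 := gp4_norm_conj_le (gp2_norm_le hG hsa hU t) O
    have h3 : 2 * ‖B‖ * ‖star (U t) * O * U t‖ ≤ 2 * ‖B‖ * ‖O‖ :=
      mul_le_mul_of_nonneg_left h2 (by positivity)
    simpa using h1.trans h3
  | succ n ih =>
    -- the terms which do not commute with `O`
    set N : Finset ι := 𝒮.filter (fun w => nc v w) with hN
    have hNcard : (N.card : ℝ) ≤ g := by
      have h1 : N.card ≤ {w | nc v w}.ncard := by
        rw [← Set.ncard_coe_finset N]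
        refine Set.ncard_le_ncard ?_ (Set.toFinite _)
        intro w hw
        simp only [hN, Finset.coe_filter, Set.mem_setOf_eq] at hw
        exact hw.2
      exact_mod_cast h1.trans (hZ.deg v)
    set al : (E →L[ℂ] E) → ℝ → (E →L[ℂ] E) := fun X t => star (U t) * X * U t with hal
    set a : ℝ → E →L[ℂ] E := fun t => ∑ w ∈ N, al (Z w t) t with ha
    have hacont : Continuous a := by
      rw [ha]
      refine continuous_finsetSum _ fun w _ => ?_
      exact (hUc.star.mul (hZ.cont w)).mul hUc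
    have hasa : ∀ t, IsSelfAdjoint (a t) := by
      intro t
      rw [IsSelfAdjoint, ha, star_sum]
      refine Finset.sum_congr rfl fun w _ => ?_
      rw [hal]
      simp only [star_mul, star_star, (hZ.sa w t).star_eq, mul_assoc]
    -- derivative of `al O`
    have halderiv : ∀ s, HasDerivAt (al O) (Complex.I • (al O s * a s - a s * al O s)) s := by
      intro s
      have h := ((gp2_star_deriv hsa hU s).mul_const O).mul (hU.deriv s)
      have hcomm : O * (∑ w ∈ 𝒮, Z w s) - (∑ w ∈ 𝒮, Z w s) * O =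
          O * (∑ w ∈ N, Z w s) - (∑ w ∈ N, Z w s) * O := by
        have h1 : ∑ w ∈ 𝒮, Z w s = ∑ w ∈ N, Z w s + ∑ w ∈ 𝒮.filter (fun w => ¬ nc v w), Z w s :=
          (Finset.sum_filter_add_sum_filter_not 𝒮 (fun w => nc v w) (fun w => Z w s)).symm
        have h2 : O * (∑ w ∈ 𝒮.filter (fun w => ¬ nc v w), Z w s) =
            (∑ w ∈ 𝒮.filter (fun w => ¬ nc v w), Z w s) * O := by
          rw [Finset.mul_sum, Finset.sum_mul]
          refine Finset.sum_congr rfl fun w hw => ?_
          exact hZ.comm v w s O hO (Finset.mem_filter.mp hw).2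
        rw [h1, mul_add, add_mul, h2]
        abel
      have hau : a s = star (U s) * (∑ w ∈ N, Z w s) * U s := by
        rw [ha, Finset.mul_sum, Finset.sum_mul]
      have huu := (hU.unitary hG hsa s).2
      have e : -(Complex.I • (star (U s) * ∑ w ∈ 𝒮, Z w s)) * O * U s +
          star (U s) * O * (Complex.I • ((∑ w ∈ 𝒮, Z w s) * U s)) =
          Complex.I • (al O s * a s - a s * al O s) := by
        have e1 : -(Complex.I • (star (U s) * ∑ w ∈ 𝒮, Z w s)) * O * U s +
            star (U s) * O * (Complex.I • ((∑ w ∈ 𝒮, Z w s) * U s)) =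
            Complex.I • (star (U s) * (O * (∑ w ∈ 𝒮, Z w s) - (∑ w ∈ 𝒮, Z w s) * O) * U s) := by
          simp only [neg_mul, smul_mul_assoc, mul_smul_comm, mul_sub, sub_mul, smul_sub,
            mul_assoc]
          abel
        have e2 : al O s * a s = star (U s) * (O * ∑ w ∈ N, Z w s) * U s := by
          rw [hau, hal]
          calc star (U s) * O * U s * (star (U s) * (∑ w ∈ N, Z w s) * U s) =
              star (U s) * O * (U s * star (U s)) * (∑ w ∈ N, Z w s) * U s := by
                simp only [mul_assoc]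
            _ = star (U s) * (O * ∑ w ∈ N, Z w s) * U s := by
                rw [huu, mul_one]; simp only [mul_assoc]
        have e3 : a s * al O s = star (U s) * ((∑ w ∈ N, Z w s) * O) * U s := by
          rw [hau, hal]
          calc star (U s) * (∑ w ∈ N, Z w s) * U s * (star (U s) * O * U s) =
              star (U s) * (∑ w ∈ N, Z w s) * (U s * star (U s)) * O * U s := by
                simp only [mul_assoc]
            _ = star (U s) * ((∑ w ∈ N, Z w s) * O) * U s := by
                rw [huu, mul_one]; simp only [mul_assoc]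
        rw [e1, hcomm, e2, e3, mul_sub, sub_mul]
      rw [← e]
      exact h
    -- the commutator with `B`
    set f : ℝ → E →L[ℂ] E := fun t => B * al O t - al O t * B with hf
    set c : ℝ → E →L[ℂ] E := fun t => B * a t - a t * B with hc
    set R : ℝ → E →L[ℂ] E := fun t => Complex.I • (al O t * c t - c t * al O t) with hR
    have hfderiv : ∀ s, HasDerivAt f (Complex.I • (f s * a s - a s * f s) + R s) s := by
      intro s
      have h := ((halderiv s).const_mul B).sub ((halderiv s).mul_const B)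
      have e : B * Complex.I • (al O s * a s - a s * al O s) -
          Complex.I • (al O s * a s - a s * al O s) * B =
          Complex.I • (f s * a s - a s * f s) + R s := by
        rw [hR, hf, hc]
        simp only [smul_mul_assoc, mul_smul_comm, mul_sub, sub_mul, smul_sub, mul_assoc]
        abel
      rw [← e]
      exact h
    have hf0 : f 0 = 0 := by
      rw [hf, hal]
      simp only [hU.zero, star_one, one_mul, mul_one]
      rw [hB 0 (by omega) v rfl O hO, sub_self]
    -- the bound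
    set b : ℝ → ℝ := fun s => 2 * ‖B‖ * ‖O‖ * ((2 * J * g) * ((2 * J * g * s) ^ n / n.factorial))
      with hb
    have hBd : ∀ s, HasDerivAt
        (fun s : ℝ => 2 * ‖B‖ * ‖O‖ * ((2 * J * g * s) ^ (n + 1) / (n + 1).factorial)) (b s) s := by
      intro s
      have h1 : HasDerivAt (fun y : ℝ => (2 * J * g * y) ^ (n + 1))
          (((n + 1 : ℕ) : ℝ) * (2 * J * g * s) ^ n * (2 * J * g * 1)) s :=
        ((hasDerivAt_id s).const_mul (2 * J * g)).pow (n + 1)
      have h2 := (h1.div_const ((n + 1).factorial : ℝ)).const_mul (2 * ‖B‖ * ‖O‖)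
      have h3 : ((n + 1).factorial : ℝ) = ((n + 1 : ℕ) : ℝ) * (n.factorial : ℝ) := by
        rw [Nat.factorial_succ]; push_cast; ring
      have h4 : (n.factorial : ℝ) ≠ 0 := by positivity
      have h5 : ((n + 1 : ℕ) : ℝ) ≠ 0 := by positivity
      have e : 2 * ‖B‖ * ‖O‖ * (((n + 1 : ℕ) : ℝ) * (2 * J * g * s) ^ n * (2 * J * g * 1) /
          ((n + 1).factorial : ℝ)) = b s := by
        rw [hb, h3]
        field_simp
      rw [e] at h2
      exact h2
    have hRle : ∀ s ∈ Set.Icc (0 : ℝ) t, ‖R s‖ ≤ b s := by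
      intro s hs
      have h1 : ‖al O s‖ ≤ ‖O‖ := gp4_norm_conj_le (gp2_norm_le hG hsa hU s) O
      have h2 : ‖c s‖ ≤ g * (2 * ‖B‖ * J * ((2 * J * g * s) ^ n / n.factorial)) := by
        have e : c s = ∑ w ∈ N, (B * al (Z w s) s - al (Z w s) s * B) := by
          rw [hc, ha]
          simp only [Finset.mul_sum, Finset.sum_mul, Finset.sum_sub_distrib]
        rw [e]
        have hpow : 0 ≤ (2 * J * g * s) ^ n / (n.factorial : ℝ) := by
          have : 0 ≤ 2 * J * g * s := mul_nonneg (by positivity) hs.1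
          positivity
        calc ‖∑ w ∈ N, (B * al (Z w s) s - al (Z w s) s * B)‖
            ≤ ∑ w ∈ N, ‖B * al (Z w s) s - al (Z w s) s * B‖ := norm_sum_le _ _
          _ ≤ ∑ w ∈ N, 2 * ‖B‖ * J * ((2 * J * g * s) ^ n / n.factorial) := by
            refine Finset.sum_le_sum fun w hw => ?_
            have hnc : nc v w := (Finset.mem_filter.mp hw).2
            have h3 := ih w (fun m hm w' hw' => hB (m + 1) (by omega) w'
              (Or.inr ⟨w, hnc, hw'⟩)) (Z w s) (hZ.loc w s) s hs.1
            refine h3.trans ?_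
            refine mul_le_mul_of_nonneg_right ?_ hpow
            exact mul_le_mul_of_nonneg_left (hZ.norm w s) (by positivity)
          _ = N.card * (2 * ‖B‖ * J * ((2 * J * g * s) ^ n / n.factorial)) := by
            rw [Finset.sum_const, nsmul_eq_mul]
          _ ≤ g * (2 * ‖B‖ * J * ((2 * J * g * s) ^ n / n.factorial)) :=
            mul_le_mul_of_nonneg_right hNcard (by positivity)
      have h4 : ‖R s‖ ≤ 2 * ‖al O s‖ * ‖c s‖ := by
        show ‖Complex.I • (al O s * c s - c s * al O s)‖ ≤ _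
        rw [norm_smul, Complex.norm_I, one_mul]
        exact gp4_norm_comm_le _ _
      calc ‖R s‖ ≤ 2 * ‖al O s‖ * ‖c s‖ := h4
        _ ≤ 2 * ‖O‖ * (g * (2 * ‖B‖ * J * ((2 * J * g * s) ^ n / n.factorial))) :=
          mul_le_mul (mul_le_mul_of_nonneg_left h1 (by norm_num)) h2 (norm_nonneg _)
            (by positivity)
        _ = b s := by rw [hb]; ring
    have key := norm_le_of_flow hacont hasa (T := t) (fun s _ => hfderiv s) hBd hRle
      (by rw [hf0]; simp) t ⟨ht, le_refl t⟩
    exact key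

end Pool.Agent.FFG.GP
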