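import Pool.Agent.FFG.GP.Exists
import Pool.Agent.FFG.GP.Filter
import Pool.Agent.FFG.GP.KVSys
import Pool.Agent.FFG.GP.Evolve
import Pool.Agent.FFG.GP.Adiabatic

/-!
# GP19: the final statement
-/

open Finset
open scoped InnerProductSpace

set_option autoImplicit false
set_option linter.unusedSectionVars false
set_option linter.unusedVariables false

namespace Pool.Agent.FFG.GP

/-! ### Estimates -/

lemma gp19_exp_le : Real.exp 1 * Real.exp 1 ≤ 8 := by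
  have h := Real.exp_one_lt_d9
  nlinarith [Real.exp_pos 1]

/-- `x ^ n / n! ≤ e ^ (- n)` for `n = 8 M`, `x ≤ M`. -/
lemma gp19_fact (M : ℕ) {x : ℝ} (hx : 0 ≤ x) (hxM : x ≤ M) :
    x ^ (8 * M) / (8 * M).factorial ≤ Real.exp (-(M : ℝ)) := by
  rcases Nat.eq_zero_or_pos M with rfl | hM
  · simp
  have hM' : (0 : ℝ) < M := by exact_mod_cast hM
  set n := 8 * M with hn
  have hn' : (n : ℝ) = 8 * M := by rw [hn]; push_cast; ring
  have hn0 : (0 : ℝ) < n := by rw [hn']; positivity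
  -- n! ≥ (n/e)^n
  have h1 : (n : ℝ) ^ n / n.factorial ≤ Real.exp n := by
    have := Real.pow_div_factorial_le_exp (n : ℝ) hn0.le n
    exact this
  have hf : (0 : ℝ) < n.factorial := by exact_mod_cast Nat.factorial_pos n
  have h2 : x ^ n ≤ ((n : ℝ) / 8) ^ n := by
    apply pow_le_pow_left₀ hx
    rw [hn']; linarith
  have h3 : x ^ n / n.factorial ≤ (1 / 8) ^ n * Real.exp n := by
    calc x ^ n / n.factorial ≤ ((n : ℝ) / 8) ^ n / n.factorial := by gcongr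
      _ = (1 / 8) ^ n * ((n : ℝ) ^ n / n.factorial) := by
        rw [div_pow, div_pow, one_pow]; ring
      _ ≤ _ := by gcongr
  refine h3.trans ?_
  have h4 : Real.exp (n : ℝ) = Real.exp 1 ^ n := by
    rw [← Real.exp_nat_mul, mul_one]
  rw [h4, ← mul_pow]
  have h5 : (1 / 8 : ℝ) * Real.exp 1 ≤ Real.exp (-1) := by
    rw [Real.exp_neg]
    have := gp19_exp_le
    have h0 := Real.exp_pos 1
    rw [← one_div, le_div_iff₀ h0]
    linarith
  calc (1 / 8 * Real.exp 1) ^ n ≤ (Real.exp (-1)) ^ n :=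
        pow_le_pow_left₀ (by positivity) h5 n
    _ = Real.exp (-(n : ℝ)) := by rw [← Real.exp_nat_mul]; congr 1; ring
    _ ≤ Real.exp (-(M : ℝ)) := by
        apply Real.exp_le_exp.mpr
        rw [hn']; linarith

/-- `(1/2) ^ (2 M) ≤ e ^ (- M)`. -/
lemma gp19_half (M : ℕ) : (1 / 2 : ℝ) ^ (2 * M) ≤ Real.exp (-(M : ℝ)) := by
  rw [pow_mul]
  have h : ((1 / 2 : ℝ) ^ 2) ≤ Real.exp (-1) := by
    rw [Real.exp_neg, ← one_div, le_div_iff₀ (Real.exp_pos 1)]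
    have := Real.exp_one_lt_d9
    nlinarith
  calc ((1 / 2 : ℝ) ^ 2) ^ M ≤ (Real.exp (-1)) ^ M := pow_le_pow_left₀ (by positivity) h M
    _ = _ := by rw [← Real.exp_nat_mul]; congr 1; ring

/-! ### Paths of matrices -/

section Paths

variable {m : Type} [Fintype m]

/-- The clamping to `[0, 1]`. -/
noncomputable def gp19_cl (s : ℝ) : ℝ := max 0 (min 1 s)

lemma gp19_cl_mem (s : ℝ) : gp19_cl s ∈ Set.Icc (0 : ℝ) 1 :=
  ⟨le_max_left _ _, max_le zero_le_one (min_le_left _ _)⟩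

lemma gp19_cl_eq {s : ℝ} (hs : s ∈ Set.Icc (0 : ℝ) 1) : gp19_cl s = s := by
  unfold gp19_cl
  rw [min_eq_right hs.2, max_eq_right hs.1]

lemma gp19_cl_cont : Continuous gp19_cl := by
  unfold gp19_cl
  fun_prop

lemma gp19_clamp_cont {F : Type} [TopologicalSpace F] {f : ℝ → F}
    (hf : ContinuousOn f (Set.Icc 0 1)) : Continuous fun s => f (gp19_cl s) := by
  rw [← continuousOn_univ]
  exact hf.comp gp19_cl_cont.continuousOn fun s _ => gp19_cl_mem s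

end Paths

section Torus

open Pool.Agent.PEPS953

variable {d L r : ℕ}

lemma gp19_herm {h : ℝ → Matrix (LConf d r) (LConf d r) ℂ}
    {h' : Matrix (LConf d r) (LConf d r) ℂ}
    (hherm : ∀ s ∈ Set.Icc (0 : ℝ) 1, (h s).IsHermitian) {s : ℝ} (hs : s ∈ Set.Icc (0 : ℝ) 1)
    (hd : HasDerivWithinAt h h' (Set.Icc 0 1) s) : h'.IsHermitian := by
  ext i j
  rw [Matrix.conjTranspose_apply]
  have h1 := gp18_entry hd i j
  have h2 := (gp18_entry hd j i).star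
  have h3 : HasDerivWithinAt (fun t => h t i j) (star (h' j i)) (Set.Icc 0 1) s := by
    refine h2.congr (fun t ht => ?_) ?_
    · have := hherm t ht
      exact (this.apply i j).symm
    · exact ((hherm s hs).apply i j).symm
  have hu : UniqueDiffWithinAt ℝ (Set.Icc (0 : ℝ) 1) s := uniqueDiffOn_Icc zero_lt_one s hs
  exact (hu.eq_deriv _ h3 h1)

lemma gp19_ofEntry {h : ℝ → Matrix (LConf d r) (LConf d r) ℂ}
    {h' : Matrix (LConf d r) (LConf d r) ℂ} {S : Set ℝ} {s : ℝ}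
    (H : ∀ i j, HasDerivWithinAt (fun t => h t i j) (h' i j) S s) : HasDerivWithinAt h h' S s :=
  hasDerivWithinAt_pi.mpr fun i => hasDerivWithinAt_pi.mpr fun j => H i j

/-- Numerical estimate of the errors. -/
lemma gp19_err {c Δ : ℝ} {a B J J' L N : ℕ} (hΔ : 0 < Δ) (ha : c + 7 ≤ a) (hL1 : 1 ≤ L)
    (hNL : N ≤ L) (hlog : Real.log L ≤ N) {T e1 e2 e3 φ : ℝ} (hT0 : 0 ≤ T) (hT : T ≤ B * N)
    (hφ : 0 ≤ φ) (hφ2 : φ ≤ 2)
    (h1 : e1 ≤ Real.exp (-((a * N : ℕ) : ℝ)) / Δ) (h2 : e2 ≤ Real.exp (-((a * N : ℕ) : ℝ)))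
    (h3 : e3 ≤ Real.exp (-((a * N : ℕ) : ℝ)))
    (hLK : (4 * J' / Δ + 8 * J * J' * B ^ 2 + 8 * (B * J') ^ 2 + 1 : ℝ) ≤ L) :
    2 * (((L : ℝ) ^ 4 * (2 * (T * J') ^ 2 * e3))) * φ + (L : ℝ) ^ (-(c + 1)) +
      2 * (2 * e1 * ((L : ℝ) ^ 2 * J') + 2 * ((L : ℝ) ^ 2 * (T * ((L : ℝ) ^ 2 *
        (2 * J * J' * T * e2))))) ≤ (L : ℝ) ^ (-c) := by
  have hL0 : (0 : ℝ) < L := by exact_mod_cast hL1
  have hL1' : (1 : ℝ) ≤ L := by exact_mod_cast hL1
  set x : ℝ := Real.exp (-((a * N : ℕ) : ℝ)) with hx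
  have hx0 : 0 < x := Real.exp_pos _
  have ha0 : (0 : ℝ) ≤ a := Nat.cast_nonneg a
  have hlog0 : 0 ≤ Real.log L := Real.log_nonneg hL1'
  have hxL : x ≤ (L : ℝ) ^ (-(c + 1) - 6) := by
    rw [hx, Real.rpow_def_of_pos hL0]
    apply Real.exp_le_exp.mpr
    push_cast
    have : Real.log L * (c + 7) ≤ a * N := by
      calc Real.log L * (c + 7) ≤ Real.log L * a := by gcongr
        _ ≤ N * a := by gcongr
        _ = a * N := by ring
    linarith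
  have hNL' : (N : ℝ) ≤ L := by exact_mod_cast hNL
  have hTL : T ≤ B * L := hT.trans (by gcongr)
  have hpos : (0 : ℝ) < (L : ℝ) ^ (-(c + 1) - 6) := Real.rpow_pos_of_pos hL0 _
  have hL6 : (L : ℝ) ^ (-(c + 1)) = (L : ℝ) ^ 6 * (L : ℝ) ^ (-(c + 1) - 6) := by
    rw [← Real.rpow_natCast, ← Real.rpow_add hL0]
    congr 1
    push_cast
    ring
  have hLc : (L : ℝ) ^ (-c) = L * (L : ℝ) ^ (-(c + 1)) := by
    conv_rhs => rw [← Real.rpow_one (L : ℝ), Real.rpow_one (L : ℝ)]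
    nth_rewrite 2 [← Real.rpow_one (L : ℝ)]
    rw [← Real.rpow_add hL0]
    congr 1
    ring
  set y : ℝ := (L : ℝ) ^ (-(c + 1) - 6) with hy
  -- first error
  have hE3 : 2 * (((L : ℝ) ^ 4 * (2 * (T * J') ^ 2 * e3))) * φ ≤ 8 * (B * J') ^ 2 * (L ^ 6 * y) := by
    calc 2 * (((L : ℝ) ^ 4 * (2 * (T * J') ^ 2 * e3))) * φ
        ≤ 2 * (((L : ℝ) ^ 4 * (2 * (B * L * J') ^ 2 * y))) * 2 := by
          have : e3 ≤ y := h3.trans hxL
          have h4 : (T * J') ^ 2 ≤ (B * L * J') ^ 2 := by gcongr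
          have h5 : 2 * (T * J') ^ 2 * e3 ≤ 2 * (B * L * J') ^ 2 * y := by
            calc 2 * (T * J') ^ 2 * e3 ≤ 2 * (T * J') ^ 2 * y := by gcongr
              _ ≤ _ := by gcongr
          have h6 : 0 ≤ 2 * (B * L * J') ^ 2 * y := by positivity
          calc 2 * (((L : ℝ) ^ 4 * (2 * (T * J') ^ 2 * e3))) * φ
              ≤ 2 * (((L : ℝ) ^ 4 * (2 * (B * L * J') ^ 2 * y))) * φ := by gcongr
            _ ≤ _ := by gcongr
      _ = _ := by ring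
  have hE1 : 2 * (2 * e1 * ((L : ℝ) ^ 2 * J')) ≤ 4 * J' / Δ * (L ^ 6 * y) := by
    have h4 : e1 ≤ y / Δ := h1.trans (by gcongr)
    calc 2 * (2 * e1 * ((L : ℝ) ^ 2 * J')) ≤ 2 * (2 * (y / Δ) * ((L : ℝ) ^ 2 * J')) := by gcongr
      _ = 4 * J' / Δ * (L ^ 2 * y) := by ring
      _ ≤ _ := by
        have : (L : ℝ) ^ 2 ≤ (L : ℝ) ^ 6 := pow_le_pow_right₀ hL1' (by norm_num)
        gcongr
  have hE2 : 2 * (2 * ((L : ℝ) ^ 2 * (T * ((L : ℝ) ^ 2 * (2 * J * J' * T * e2))))) ≤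
      8 * J * J' * B ^ 2 * (L ^ 6 * y) := by
    have h4 : e2 ≤ y := h2.trans hxL
    have h5 : 2 * J * J' * T * e2 ≤ 2 * J * J' * (B * L) * y := by
      calc 2 * J * J' * T * e2 ≤ 2 * J * J' * T * y := by gcongr
        _ ≤ _ := by gcongr
    have h6 : 0 ≤ 2 * J * J' * (B * L) * y := by positivity
    calc 2 * (2 * ((L : ℝ) ^ 2 * (T * ((L : ℝ) ^ 2 * (2 * J * J' * T * e2)))))
        ≤ 2 * (2 * ((L : ℝ) ^ 2 * (T * ((L : ℝ) ^ 2 * (2 * J * J' * (B * L) * y))))) := by gcongr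
      _ ≤ 2 * (2 * ((L : ℝ) ^ 2 * (B * L * ((L : ℝ) ^ 2 * (2 * J * J' * (B * L) * y))))) := by
        gcongr
      _ = _ := by ring
  rw [hLc, hL6]
  have h9 : 0 ≤ (L : ℝ) ^ 6 * y := by positivity
  nlinarith [mul_le_mul_of_nonneg_right hLK h9]

theorem gapped_path {d r : ℕ} (hd : 2 ≤ d) (hr : 0 < r) {J Δ : ℝ} (hΔ : 0 < Δ)
    (Ψ₀ Ψ₁ : ∀ (L : ℕ) [NeZero L], Hil d L) (L₁ : ℕ)
    (hgap : ∀ (L : ℕ) [NeZero L], L₁ ≤ L → GPath L d r J Δ (Ψ₀ L) (Ψ₁ L))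
    (h0 : PolyAcc Ψ₀) : PolyAcc Ψ₁ := by
  intro c hc
  obtain ⟨J₁, hJ₁⟩ := exists_nat_ge J
  obtain ⟨k₀, C₀, L₀, hL₀⟩ := h0 (c + 1) (by linarith)
  -- the constants
  obtain ⟨a, ha⟩ := exists_nat_ge (c + 7)
  have ha1 : 1 ≤ a := by
    have : (1 : ℝ) ≤ a := by linarith
    exact_mod_cast this
  obtain ⟨B, hB⟩ := exists_nat_ge (4 * (2 * a + 1) / Δ)
  set X : ℕ := 2 * J₁ * (4 * r ^ 2) * B + a with hX
  set S : ℕ := (8 * X + 2) * r with hS
  set X' : ℕ := 2 * (B * J₁) * (4 * S + 1) ^ 2 + a with hX'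
  set Y : ℕ := 10 * S + 8 * (8 * X' * S) + 1 with hY
  have hY0 : (0 : ℝ) < Y := by
    have : 0 < Y := by omega
    exact_mod_cast this
  -- largeness of L
  have hlarge : ∃ L₂ : ℕ, ∀ L : ℕ, L₂ ≤ L → 1 ≤ Real.log L ∧
      (Y * 16 : ℝ) * (Real.log L) ^ 4 ≤ L := by
    have hlo := (Real.isLittleO_pow_log_id_atTop (n := 4)).bound
      (c := 1 / (Y * 16)) (by positivity)
    have hl1 := Real.tendsto_log_atTop.eventually_ge_atTop 1
    have hev := (hlo.and (hl1.and (Filter.eventually_ge_atTop (0 : ℝ))))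
    obtain ⟨x₀, hx₀⟩ := Filter.eventually_atTop.mp hev
    refine ⟨⌈x₀⌉₊, fun L hL => ?_⟩
    obtain ⟨h1, h2, h3⟩ := hx₀ L ((Nat.le_ceil _).trans (by exact_mod_cast hL))
    refine ⟨h2, ?_⟩
    rw [Real.norm_of_nonneg (by positivity), id, Real.norm_of_nonneg h3] at h1
    calc (Y * 16 : ℝ) * (Real.log L) ^ 4 ≤ (Y * 16 : ℝ) * (1 / (Y * 16) * L) := by gcongr
      _ = L := by field_simp
  obtain ⟨L₂, hL₂⟩ := hlarge
  obtain ⟨L₃, hL₃⟩ := exists_nat_ge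
    (4 * J₁ / Δ + 8 * J₁ * J₁ * B ^ 2 + 8 * (B * J₁) ^ 2 + 1 : ℝ)
  refine ⟨k₀ + 8, |C₀| + 810 * Real.log d * (Y * 16) ^ 2,
    max (max L₀ L₁) (max L₂ (max L₃ (max r 1))), fun L _ hL => ?_⟩
  have hLa : L₀ ≤ L := le_trans (by simp) hL
  have hLb : L₁ ≤ L := le_trans (by simp) hL
  have hLc : L₂ ≤ L := le_trans (by simp) hL
  have hLd : L₃ ≤ L := le_trans (by simp) hL
  have hrL : r ≤ L := le_trans (by simp) hL
  have hL1 : 1 ≤ L := le_trans (by simp) hL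
  obtain ⟨hl1, hl4⟩ := hL₂ L hLc
  set l : ℝ := Real.log L with hl
  have hL0 : (0 : ℝ) < L := by exact_mod_cast hL1
  set N : ℕ := ⌈l⌉₊ with hN
  have hlN : l ≤ N := Nat.le_ceil l
  have hN1' : (1 : ℝ) ≤ N := hl1.trans hlN
  have hN1 : 1 ≤ N := by exact_mod_cast hN1'
  have hNl : (N : ℝ) ≤ 2 * l := by
    have := (Nat.ceil_lt_add_one (by linarith : 0 ≤ l)).le
    rw [← hN] at this
    linarith
  have hNL : N ≤ L := by
    have h1 := Real.log_le_sub_one_of_pos hL0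
    have h2 := Nat.ceil_lt_add_one (by linarith : 0 ≤ l)
    rw [← hN] at h2
    have h3 : (N : ℝ) < L + 0 := by rw [← hl] at h1; linarith
    have h4 : (N : ℝ) < L := by linarith
    exact_mod_cast h4.le
  obtain ⟨D, Φ, hΦ, hD, hΦΨ⟩ := hL₀ L hLa
  -- the filter
  obtain ⟨T, w, hT0, hTle, hwc, hw1, hwε⟩ := exists_filter hΔ (2 * (a * N))
  have hTB : T ≤ B * N := by
    refine hTle.trans ?_
    have h1 : 4 * ((2 * (a * N) : ℕ) + 1 : ℝ) / Δ ≤ 4 * (2 * a + 1) / Δ * N := by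
      rw [div_mul_eq_mul_div]
      gcongr ?_ / Δ
      push_cast
      nlinarith
    refine h1.trans ?_
    gcongr
  -- the Lieb-Robinson parameters
  set n₂ : ℕ := 8 * (X * N) with hn₂
  set ρ : ℕ := (n₂ + 1) * r with hρ
  set σ : ℕ := ρ + r with hσ
  have hσS : σ ≤ S * N := by
    rw [hσ, hρ, hn₂, hS]
    nlinarith [Nat.mul_le_mul_left (2 * r) hN1]
  set g : ℕ := (4 * (ρ + r) + 1) ^ 2 with hg
  have hgS : g ≤ (4 * S + 1) ^ 2 * N ^ 2 := by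
    rw [hg, ← mul_pow]
    apply Nat.pow_le_pow_left
    have : 4 * σ ≤ 4 * (S * N) := by omega
    rw [hσ] at this
    nlinarith
  set n₃ : ℕ := 8 * (X' * N ^ 3) with hn₃
  set R : ℕ := 10 * σ + 8 * (n₃ * σ) + 1 with hR
  have hRY : R ≤ Y * N ^ 4 := by
    have h1 : n₃ * σ ≤ n₃ * (S * N) := Nat.mul_le_mul_left _ hσS
    have h2 : S * N ≤ S * N ^ 4 := Nat.mul_le_mul_left _ (by
      calc N = N ^ 1 := (pow_one N).symm
        _ ≤ N ^ 4 := Nat.pow_le_pow_right hN1 (by norm_num))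
    have h3 : 1 ≤ N ^ 4 := Nat.one_le_pow _ _ hN1
    calc R ≤ 10 * (S * N ^ 4) + 8 * (n₃ * (S * N)) + N ^ 4 := by
          rw [hR]; omega
      _ = Y * N ^ 4 := by rw [hn₃, hY]; ring
  have hRl : (R : ℝ) ≤ Y * 16 * l ^ 4 := by
    calc (R : ℝ) ≤ Y * (N : ℝ) ^ 4 := by exact_mod_cast hRY
      _ ≤ Y * (2 * l) ^ 4 := by gcongr
      _ = _ := by ring
  have hRL : R ≤ L := by
    have : (R : ℝ) ≤ L := hRl.trans hl4
    exact_mod_cast this
  -- the clamped path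
  obtain ⟨h, h', E₀, Ψ, hherm, hderiv, hcont, hbd, hgs, hΨ0', hΨ1'⟩ := (hgap L hLb).ex
  have hhc : ∀ v, ContinuousOn (h v) (Set.Icc 0 1) := fun v =>
    continuousOn_pi.mpr fun i => continuousOn_pi.mpr fun j s hs =>
      (gp18_entry (hderiv v s hs) i j).continuousWithinAt
  set hc' : Site L → ℝ → Matrix (LConf d r) (LConf d r) ℂ := fun v s => h v (gp19_cl s) with hhc'
  set hd' : Site L → ℝ → Matrix (LConf d r) (LConf d r) ℂ := fun v s => h' v (gp19_cl s) with hhd'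
  have c1 : ∀ v, Continuous (hc' v) := fun v => gp19_clamp_cont (hhc v)
  have c2 : ∀ v, Continuous (hd' v) := fun v => gp19_clamp_cont (hcont v)
  have c3 : ∀ v s, (hc' v s).IsHermitian := fun v s => hherm v _ (gp19_cl_mem s)
  have c4 : ∀ v s, (hd' v s).IsHermitian := fun v s =>
    gp19_herm (hherm v) (gp19_cl_mem s) (hderiv v _ (gp19_cl_mem s))
  have c5 : ∀ v, ∀ s ∈ Set.Icc (0 : ℝ) 1, HasDerivWithinAt (hc' v) (hd' v s) (Set.Icc 0 1) s := by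
    intro v s hs
    have h1 := hderiv v s hs
    have h2 : hd' v s = h' v s := by rw [hhd']; simp only [gp19_cl_eq hs]
    rw [h2]
    refine gp19_ofEntry fun i j => (gp18_entry h1 i j).congr (fun t ht => ?_) ?_
    · rw [hhc']; simp only [gp19_cl_eq ht]
    · rw [hhc']; simp only [gp19_cl_eq hs]
  have c6 : ∀ s ∈ Set.Icc (0 : ℝ) 1,
      IsGappedGS (hamS (fun v => hc' v s) univ) (E₀ s) Δ (Ψ s) := by
    intro s hs
    have h2 : (fun v => hc' v s) = fun v => h v s := by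
      funext v
      rw [hhc']; simp only [gp19_cl_eq hs]
    rw [h2]
    exact hgs s hs
  have hJ : ∀ v s, entNorm (hc' v s) ≤ J₁ := fun v s => ((hbd v _ (gp19_cl_mem s)).1).trans hJ₁
  have hJ' : ∀ v s, entNorm (hd' v s) ≤ J₁ := fun v s => ((hbd v _ (gp19_cl_mem s)).2).trans hJ₁
  -- the system
  have hsys := kv_lsys (L := L) hrL c1 c2 c3 c4 (J' := J₁) hJ' hwc hw1 hT0.le ρ
  obtain ⟨U, hU⟩ := exists_propag
    (fun s => ∑ v : Site L, KV (fun u => hc' u s) (fun u => hd' u s) w T (LT.ball ρ {v}) v)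
    (continuous_finsetSum _ fun v _ => KV_cont c1 c2 hwc T _ v)
  obtain ⟨θ, hθ, hΨ1⟩ := adiabatic hr hrL c1 c2 c3 c4 c5 (J := J₁) (J' := J₁) hJ hJ' hΔ c6 hwc
    hw1 hT0.le hwε n₂ ρ le_rfl hU
  rw [hΨ0', hΨ1'] at hΨ1
  obtain ⟨Φ', hΦ', hΦ'U⟩ := evolve_peps (L := L) (R := R) (σ := ρ + r) (n := n₃) (by omega)
    (by rw [hR]) hRL (J := T * J₁) (by positivity) hsys hU hΦ
  refine ⟨D * ((d ^ (2 * (9 * R ^ 2))) ^ 9) ^ 5, θ • Φ', hΦ'.smul θ, ?_, ?_⟩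
  · -- the bond dimension
    have hd0 : (0 : ℝ) < d := by
      have : 0 < d := by omega
      exact_mod_cast this
    have hdlog : 0 ≤ Real.log d := Real.log_nonneg (by exact_mod_cast (by omega : 1 ≤ d))
    have e1 : (((d : ℝ) ^ (2 * (9 * R ^ 2))) ^ 9) ^ 5 = Real.exp (810 * Real.log d * (R : ℝ) ^ 2) := by
      rw [← pow_mul, ← pow_mul, ← Real.exp_log hd0, ← Real.exp_nat_mul, Real.log_exp]
      congr 1
      push_cast
      ring
    push_cast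
    rw [e1]
    calc (D : ℝ) * Real.exp (810 * Real.log d * (R : ℝ) ^ 2)
        ≤ Real.exp (C₀ * l ^ k₀) * Real.exp (810 * Real.log d * (R : ℝ) ^ 2) := by gcongr
      _ = Real.exp (C₀ * l ^ k₀ + 810 * Real.log d * (R : ℝ) ^ 2) := (Real.exp_add _ _).symm
      _ ≤ _ := by
        apply Real.exp_le_exp.mpr
        have h1 : C₀ * l ^ k₀ ≤ |C₀| * l ^ (k₀ + 8) := by
          calc C₀ * l ^ k₀ ≤ |C₀| * l ^ k₀ := by gcongr; exact le_abs_self _
            _ ≤ _ := by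
              gcongr
              omega
        have h2 : (R : ℝ) ^ 2 ≤ (Y * 16) ^ 2 * l ^ (k₀ + 8) := by
          calc (R : ℝ) ^ 2 ≤ (Y * 16 * l ^ 4) ^ 2 := by gcongr
            _ = (Y * 16) ^ 2 * l ^ 8 := by ring
            _ ≤ _ := by
              gcongr
              omega
        calc C₀ * l ^ k₀ + 810 * Real.log d * (R : ℝ) ^ 2
            ≤ |C₀| * l ^ (k₀ + 8) + 810 * Real.log d * ((Y * 16) ^ 2 * l ^ (k₀ + 8)) := by gcongr
          _ = _ := by ring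
  · -- the error
    have hUu := hU.unitary (continuous_finsetSum _ fun v _ => KV_cont c1 c2 hwc T _ v)
      (fun s => gp18_sum_sa _ fun v _ => hsys.sa v s) 1
    have hUn : ∀ x : Hil d L, ‖U 1 x‖ = ‖x‖ := by
      intro x
      have h4 : ⟪U 1 x, U 1 x⟫_ℂ = ⟪x, x⟫_ℂ := by
        rw [← ContinuousLinearMap.adjoint_inner_right, ← ContinuousLinearMap.star_eq_adjoint,
          ← mul_apply_eq_comp, hUu.1, one_apply_eq_self]
      rw [inner_self_eq_norm_sq_to_K, inner_self_eq_norm_sq_to_K] at h4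
      have h5 : ‖U 1 x‖ ^ 2 = ‖x‖ ^ 2 := by exact_mod_cast h4
      exact (pow_left_inj₀ (norm_nonneg _) (norm_nonneg _) two_ne_zero).mp h5
    have h0m : (0 : ℝ) ∈ Set.Icc (0 : ℝ) 1 := ⟨le_rfl, zero_le_one⟩
    have hΨ0 : ‖Ψ₀ L‖ = 1 := by rw [← hΨ0']; exact (c6 0 h0m).norm_eq
    have hLc1 : (L : ℝ) ^ (-(c + 1)) ≤ 1 :=
      Real.rpow_le_one_of_one_le_of_nonpos (by exact_mod_cast hL1) (by linarith)
    have hΦ2 : ‖Φ‖ ≤ 2 := by
      calc ‖Φ‖ = ‖(Φ - Ψ₀ L) + Ψ₀ L‖ := by rw [sub_add_cancel]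
        _ ≤ ‖Φ - Ψ₀ L‖ + ‖Ψ₀ L‖ := norm_add_le _ _
        _ ≤ 2 := by rw [hΨ0]; linarith
    have hsplit : θ • Φ' - Ψ₁ L = θ • (Φ' - U 1 Φ) + θ • (U 1 (Φ - Ψ₀ L)) -
        (Ψ₁ L - θ • U 1 (Ψ₀ L)) := by
      rw [map_sub]
      simp only [smul_sub]
      abel
    have hn : ‖θ • Φ' - Ψ₁ L‖ ≤ ‖Φ' - U 1 Φ‖ + ‖Φ - Ψ₀ L‖ + ‖Ψ₁ L - θ • U 1 (Ψ₀ L)‖ := by
      rw [hsplit]
      refine (norm_sub_le _ _).trans (add_le_add_left ((norm_add_le _ _).trans ?_) _)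
      rw [norm_smul, norm_smul, hθ, one_mul, one_mul, hUn]
    refine hn.trans ((add_le_add (add_le_add hΦ'U hΦΨ) hΨ1).trans ?_)
    -- the three exponentially small numbers
    have hx2 : 2 * (J₁ : ℝ) * ((4 * r ^ 2 : ℕ) : ℝ) * T ≤ ((X * N : ℕ) : ℝ) := by
      calc 2 * (J₁ : ℝ) * ((4 * r ^ 2 : ℕ) : ℝ) * T ≤ 2 * (J₁ : ℝ) * ((4 * r ^ 2 : ℕ) : ℝ) * (B * N) := by
            gcongr
        _ = ((2 * J₁ * (4 * r ^ 2) * B : ℕ) : ℝ) * N := by push_cast; ring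
        _ ≤ (X : ℝ) * N := by
          gcongr
          rw [hX]; omega
        _ = _ := by push_cast; ring
    have hx3 : 2 * (T * J₁) * (g : ℝ) ≤ ((X' * N ^ 3 : ℕ) : ℝ) := by
      calc 2 * (T * J₁) * (g : ℝ) ≤ 2 * (B * N * J₁) * (((4 * S + 1) ^ 2 * N ^ 2 : ℕ) : ℝ) := by
            gcongr
        _ = ((2 * (B * J₁) * (4 * S + 1) ^ 2 : ℕ) : ℝ) * N ^ 3 := by push_cast; ring
        _ ≤ (X' : ℝ) * N ^ 3 := by
          gcongr
          rw [hX']; omega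
        _ = _ := by push_cast; ring
    have haX : a * N ≤ X * N := Nat.mul_le_mul_right _ (by rw [hX]; omega)
    have haX' : a * N ≤ X' * N ^ 3 := by
      calc a * N ≤ X' * N := Nat.mul_le_mul_right _ (by rw [hX']; omega)
        _ ≤ X' * N ^ 3 := Nat.mul_le_mul_left _ (by
          calc N = N ^ 1 := (pow_one N).symm
            _ ≤ N ^ 3 := Nat.pow_le_pow_right hN1 (by norm_num))
    have hδ2 := gp19_fact (X * N) (by positivity) hx2
    have hδ3 := gp19_fact (X' * N ^ 3) (by positivity) hx3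
    have hδ2' := hδ2.trans (Real.exp_le_exp.mpr (neg_le_neg (Nat.cast_le (α := ℝ).mpr haX)))
    have hδ3' := hδ3.trans (Real.exp_le_exp.mpr (neg_le_neg (Nat.cast_le (α := ℝ).mpr haX')))
    exact gp19_err hΔ ha hL1 hNL hlN hT0.le hTB (norm_nonneg Φ) hΦ2
      (div_le_div_of_nonneg_right (gp19_half (a * N)) hΔ.le) hδ2' hδ3'
      (hL₃.trans (by exact_mod_cast hLd))

end Torus

end Pool.Agent.FFG.GP
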