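import Pool.Agent.FFG.GP.Path
import Pool.Agent.FFG.GP.KVDiff

/-!
# GP20: gapped paths with bounds that may grow like powers of `log L`
-/

open Finset
open scoped InnerProductSpace

set_option autoImplicit false
set_option linter.unusedSectionVars false
set_option linter.unusedVariables false

namespace Pool.Agent.FFG.GP

section Torus

open Pool.Agent.PEPS953

variable {d L r : ℕ} [NeZero L]

/-! ### The estimates of the filtered terms in terms of operator norms -/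

/-- GP14 with operator norms. -/
theorem gp20_kv_lsys (hrL : r ≤ L) {h h' : Site L → ℝ → Matrix (LConf d r) (LConf d r) ℂ}
    (hh : ∀ v, Continuous (h v)) (hh' : ∀ v, Continuous (h' v))
    (hherm : ∀ v s, (h v s).IsHermitian) (hherm' : ∀ v s, (h' v s).IsHermitian) {J' : ℝ}
    (hJ' : ∀ v s, ‖locOp L (h' v s) v‖ ≤ J') {w : ℝ → ℝ} (hw : Continuous w)
    (hw1 : ∀ t, 0 ≤ w t ∧ w t ≤ 1) {T : ℝ} (hT : 0 ≤ T) (ρ : ℕ) :
    LSys (fun (v : Site L) (s : ℝ) =>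
        KV (fun u => h u s) (fun u => h' u s) w T (LT.ball ρ {v}) v)
      (fun v O => LocalOn (LT.ball (ρ + r) {v}) O) (fun v w => sdist v w ≤ 2 * (ρ + r)) (T * J')
      ((4 * (ρ + r) + 1) ^ 2) := by
  -- the other fields do not depend on the bound
  obtain ⟨J₂, hJ₂⟩ : ∃ J₂ : ℝ, ∀ v, entNorm (h' v 0) ≤ J₂ :=
    ⟨∑ v, entNorm (h' v 0), fun v =>
      Finset.single_le_sum (f := fun v => entNorm (h' v 0)) (fun v _ => entNorm_nonneg _)
        (Finset.mem_univ v)⟩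
  have hs := kv_lsys (L := L) hrL (h := fun v _ => h v 0) (h' := fun v _ => h' v 0)
    (fun v => continuous_const) (fun v => continuous_const) (fun v s => hherm v 0)
    (fun v s => hherm' v 0) (J' := J₂) (fun v s => hJ₂ v) hw hw1 hT ρ
  exact
    { cont := fun v => KV_cont hh hh' hw T (LT.ball ρ {v}) v
      sa := fun v s => KV_sa hrL (fun u => hherm u s) (fun u => hherm' u s) hw T (LT.ball ρ {v}) v
      norm := fun v s => (gp12_KK_norm (gp12_hamS_sa (fun u => hherm u s) _) _ hw1 hT).trans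
        (mul_le_mul_of_nonneg_left (hJ' v s) hT)
      loc := fun v s => KV_local hrL (fun u => h u s) (fun u => h' u s) hw T ρ v
      comm := fun v u s O hO hvu => by
        -- the locality structure is the same: use the commutation of local operators
        have hdis : Disjoint (LT.ball (ρ + r) {v}) (LT.ball (ρ + r) {u}) := by
          rw [Finset.disjoint_left]
          intro x hx hx'
          unfold LT.ball at hx hx'
          rw [mem_filter] at hx hx'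
          obtain ⟨-, v', hv', h1⟩ := hx
          obtain ⟨-, w', hw', h2⟩ := hx'
          rw [mem_singleton] at hv' hw'
          subst hv' hw'
          have h3 := sdist_triangle v' x w'
          rw [sdist_comm x w'] at h3
          omega
        exact LocalOn.commute hdis hO
          (KV_local hrL (fun u => h u s) (fun u => h' u s) hw T ρ u)
      deg := hs.deg }

theorem gp20_norm_hamS {h : Site L → Matrix (LConf d r) (LConf d r) ℂ} {J : ℝ}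
    (hJ : ∀ v, ‖locOp L (h v) v‖ ≤ J) : ‖hamS h univ‖ ≤ (L : ℝ) ^ 2 * J := by
  unfold hamS
  refine (norm_sum_le _ _).trans ((Finset.sum_le_sum fun v _ => hJ v).trans ?_)
  rw [Finset.sum_const, Finset.card_univ, Fintype.card_prod, ZMod.card, nsmul_eq_mul,
    Nat.cast_mul, ← pow_two]

/-- GP18 with operator norms. -/
theorem gp20_adiabatic (hr : 0 < r) (hrL : r ≤ L)
    {h h' : Site L → ℝ → Matrix (LConf d r) (LConf d r) ℂ}
    (hh : ∀ v, Continuous (h v)) (hh' : ∀ v, Continuous (h' v))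
    (hherm : ∀ v s, (h v s).IsHermitian) (hherm' : ∀ v s, (h' v s).IsHermitian)
    (hderiv : ∀ v, ∀ s ∈ Set.Icc (0 : ℝ) 1,
      HasDerivWithinAt (h v) (h' v s) (Set.Icc 0 1) s) {J J' : ℝ}
    (hJ : ∀ v s, ‖locOp L (h v s) v‖ ≤ J) (hJ' : ∀ v s, ‖locOp L (h' v s) v‖ ≤ J') {Δ : ℝ}
    (hΔ : 0 < Δ)
    {E₀ : ℝ → ℝ} {Ψ : ℝ → Hil d L}
    (hgap : ∀ s ∈ Set.Icc (0 : ℝ) 1,
      IsGappedGS (hamS (fun v => h v s) univ) (E₀ s) Δ (Ψ s)) {w : ℝ → ℝ}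
    (hw : Continuous w) (hw1 : ∀ t, 0 ≤ w t ∧ w t ≤ 1) {T ε : ℝ} (hT : 0 ≤ T)
    (hε : ∀ ω : ℝ, Δ ≤ |ω| → |(∫ t in (0 : ℝ)..T, w t * Real.sin (ω * t)) - 1 / ω| ≤ ε) (n ρ : ℕ)
    (hρ : (n + 1) * r ≤ ρ) {U : ℝ → Hil d L →L[ℂ] Hil d L}
    (hU : Propag (fun s => ∑ v, KV (fun u => h u s) (fun u => h' u s) w T (LT.ball ρ {v}) v) U) :
    ∃ θ : ℂ, ‖θ‖ = 1 ∧ ‖Ψ 1 - θ • U 1 (Ψ 0)‖ ≤ 2 * (2 * ε * ((L : ℝ) ^ 2 * J') +
      2 * ((L : ℝ) ^ 2 * (T * ((L : ℝ) ^ 2 *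
        (2 * J * J' * T * ((2 * J * (4 * r ^ 2 : ℕ) * T) ^ n / n.factorial)))))) := by
  have hsa : ∀ s, IsSelfAdjoint (hamS (fun v => h v s) univ) := fun s =>
    gp18_sum_sa _ fun v _ => gp18_locOp_sa (hherm v s) v
  have hsa' : ∀ s, IsSelfAdjoint (hamS (fun v => h' v s) univ) := fun s =>
    gp18_sum_sa _ fun v _ => gp18_locOp_sa (hherm' v s) v
  have hGc : Continuous fun s => ∑ v : Site L,
      KV (fun u => h u s) (fun u => h' u s) w T (LT.ball ρ {v}) v :=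
    continuous_finsetSum _ fun v _ => KV_cont hh hh' hw T _ v
  have hGsa : ∀ s, IsSelfAdjoint (∑ v : Site L,
      KV (fun u => h u s) (fun u => h' u s) w T (LT.ball ρ {v}) v) := fun s =>
    gp18_sum_sa _ fun v _ => KV_sa hrL (fun v => hherm v s) (fun v => hherm' v s) hw T _ v
  have hn1 : ∀ s ∈ Set.Icc (0 : ℝ) 1, ‖Ψ s‖ = 1 := fun s hs => (hgap s hs).norm_eq
  -- the derivative of the projection
  choose! y hy0 hy1 hy2 using fun (s : ℝ) (hs : s ∈ Set.Icc (0 : ℝ) 1) =>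
    proj_deriv (H := fun t => hamS (fun v => h v t) univ) (fun t _ => hsa t) hΔ hgap hs
      (gp18_hasDeriv fun v => hderiv v s hs)
  set c : ℝ := (2 * J * J' * T * ((2 * J * (4 * r ^ 2 : ℕ) * T) ^ n / n.factorial)) with hc
  have hε0 : 0 ≤ ε := (abs_nonneg _).trans (hε Δ (le_abs_self Δ))
  have hcmp := compare (P := fun t => kb (Ψ t) (Ψ t))
    (P' := fun s => -(kb (y s) (Ψ s) + kb (Ψ s) (y s)))
    (G := fun s => ∑ v, KV (fun u => h u s) (fun u => h' u s) w T (LT.ball ρ {v}) v) (U := U)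
    (ε := 2 * ε * ((L : ℝ) ^ 2 * J') + 2 * ((L : ℝ) ^ 2 * (T * ((L : ℝ) ^ 2 * c))))
    hy2 hGc hGsa hU (by
      intro s hs
      have h1 := filter_ground (hsa s) (hsa' s) hΔ (hgap s hs) hT hw hε (hy0 s hs) (hy1 s hs)
      set G : Hil d L →L[ℂ] Hil d L :=
        ∑ v, KV (fun u => h u s) (fun u => h' u s) w T (LT.ball ρ {v}) v with hG
      set K : Hil d L →L[ℂ] Hil d L :=
        KK (hamS (fun v => h v s) univ) w T (hamS (fun v => h' v s) univ) with hK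
      set P : Hil d L →L[ℂ] Hil d L := kb (Ψ s) (Ψ s) with hP
      have hP1 : ‖P‖ ≤ 1 := by
        rw [hP, gp18_norm_kb, hn1 s hs, one_mul]
      have hKG : ‖K - G‖ ≤ (L : ℝ) ^ 2 * (T * ((L : ℝ) ^ 2 * c)) := by
        rw [hK, ← KV_sum (fun v => h v s) (fun v => h' v s) hw T, hG, ← Finset.sum_sub_distrib]
        refine (norm_sum_le _ _).trans ((Finset.sum_le_sum fun v _ =>
          KV_diff2 hr hrL (fun v => hherm v s) (fun v => hJ v s) (fun v => hJ' v s) hw hw1 hT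
            n ρ hρ v).trans ?_)
        rw [Finset.sum_const, Finset.card_univ, Fintype.card_prod, ZMod.card, nsmul_eq_mul]
        rw [Nat.cast_mul, ← pow_two]
      have h2 : ‖hamS (fun v => h' v s) univ‖ ≤ (L : ℝ) ^ 2 * J' :=
        gp20_norm_hamS fun v => hJ' v s
      have h3 : -(kb (y s) (Ψ s) + kb (Ψ s) (y s)) - Complex.I • (G * P - P * G) =
          (-(kb (y s) (Ψ s) + kb (Ψ s) (y s)) - Complex.I • (K * P - P * K)) +
            Complex.I • ((K - G) * P - P * (K - G)) := by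
        simp only [sub_mul, mul_sub, smul_sub]
        abel
      change ‖-(kb (y s) (Ψ s) + kb (Ψ s) (y s)) - Complex.I • (G * P - P * G)‖ ≤ _
      rw [h3]
      refine (norm_add_le _ _).trans (add_le_add (h1.trans ?_) ?_)
      · gcongr
      · rw [norm_smul, Complex.norm_I, one_mul]
        calc ‖(K - G) * P - P * (K - G)‖ ≤ ‖(K - G) * P‖ + ‖P * (K - G)‖ := norm_sub_le _ _
          _ ≤ ‖K - G‖ * ‖P‖ + ‖P‖ * ‖K - G‖ := add_le_add (norm_mul_le _ _) (norm_mul_le _ _)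
          _ ≤ ‖K - G‖ * 1 + 1 * ‖K - G‖ := by gcongr
          _ = 2 * ‖K - G‖ := by ring
          _ ≤ _ := by gcongr)
  have h0m : (0 : ℝ) ∈ Set.Icc (0 : ℝ) 1 := ⟨le_rfl, zero_le_one⟩
  have h1m : (1 : ℝ) ∈ Set.Icc (0 : ℝ) 1 := ⟨zero_le_one, le_rfl⟩
  have hUu := hU.unitary hGc hGsa 1
  have hUn : ‖U 1 (Ψ 0)‖ = 1 := by
    have h4 : ⟪U 1 (Ψ 0), U 1 (Ψ 0)⟫_ℂ = ⟪Ψ 0, Ψ 0⟫_ℂ := by
      rw [← ContinuousLinearMap.adjoint_inner_right, ← ContinuousLinearMap.star_eq_adjoint,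
        ← mul_apply_eq_comp, hUu.1, one_apply_eq_self]
    rw [inner_self_eq_norm_sq_to_K, inner_self_eq_norm_sq_to_K, hn1 0 h0m] at h4
    have h5 : ‖U 1 (Ψ 0)‖ ^ 2 = 1 := by
      have := congrArg Complex.re h4
      simpa [← Complex.ofReal_pow] using this
    exact (pow_eq_one_iff_of_nonneg (norm_nonneg _) two_ne_zero).mp h5
  rw [gp18_mul_kb] at hcmp
  exact exists_phase (hn1 1 h1m) hUn hcmp

end Torus

/-! ### Polynomially bounded functions -/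

/-- Polynomially bounded functions. -/
def PB (f : ℕ → ℕ) : Prop := ∃ Y E : ℕ, ∀ N, 1 ≤ N → f N ≤ Y * N ^ E

lemma PB.const (c : ℕ) : PB fun _ => c := ⟨c, 0, fun N _ => by simp⟩

lemma PB.id : PB fun N => N := ⟨1, 1, fun N _ => by simp⟩

lemma PB.add {f g : ℕ → ℕ} (hf : PB f) (hg : PB g) : PB fun N => f N + g N := by
  obtain ⟨Y, E, h⟩ := hf
  obtain ⟨Z, F, k⟩ := hg
  refine ⟨Y + Z, E + F, fun N hN => ?_⟩
  have h1 : N ^ E ≤ N ^ (E + F) := Nat.pow_le_pow_right hN (by omega)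
  have h2 : N ^ F ≤ N ^ (E + F) := Nat.pow_le_pow_right hN (by omega)
  calc f N + g N ≤ Y * N ^ E + Z * N ^ F := add_le_add (h N hN) (k N hN)
    _ ≤ Y * N ^ (E + F) + Z * N ^ (E + F) :=
      add_le_add (Nat.mul_le_mul_left _ h1) (Nat.mul_le_mul_left _ h2)
    _ = _ := by ring

lemma PB.mul {f g : ℕ → ℕ} (hf : PB f) (hg : PB g) : PB fun N => f N * g N := by
  obtain ⟨Y, E, h⟩ := hf
  obtain ⟨Z, F, k⟩ := hg
  refine ⟨Y * Z, E + F, fun N hN => ?_⟩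
  calc f N * g N ≤ (Y * N ^ E) * (Z * N ^ F) := Nat.mul_le_mul (h N hN) (k N hN)
    _ = _ := by ring

lemma PB.pow {f : ℕ → ℕ} (hf : PB f) (n : ℕ) : PB fun N => f N ^ n := by
  induction n with
  | zero => simpa using PB.const 1
  | succ n ih => simpa [pow_succ] using ih.mul hf

lemma PB.eventually {f : ℕ → ℕ} (hf : PB f) : ∃ L₂ : ℕ, ∀ L : ℕ, L₂ ≤ L →
    1 ≤ Real.log L ∧ f ⌈Real.log L⌉₊ ≤ L := by
  obtain ⟨Y, E, h⟩ := hf
  have hpos : (0 : ℝ) < (Y + 1) * 2 ^ E := by positivity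
  have hlo := (Real.isLittleO_pow_log_id_atTop (n := E)).bound
    (c := 1 / ((Y + 1) * 2 ^ E)) (by positivity)
  have hl1 := Real.tendsto_log_atTop.eventually_ge_atTop 1
  have hev := (hlo.and (hl1.and (Filter.eventually_ge_atTop (0 : ℝ))))
  obtain ⟨x₀, hx₀⟩ := Filter.eventually_atTop.mp hev
  refine ⟨⌈x₀⌉₊, fun L hL => ?_⟩
  obtain ⟨h1, h2, h3⟩ := hx₀ L ((Nat.le_ceil _).trans (by exact_mod_cast hL))
  refine ⟨h2, ?_⟩
  rw [Real.norm_of_nonneg (by positivity), _root_.id, Real.norm_of_nonneg h3] at h1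
  set l : ℝ := Real.log L with hl
  set N : ℕ := ⌈l⌉₊ with hN
  have hlN : l ≤ N := Nat.le_ceil l
  have hN1 : 1 ≤ N := by
    have : (1 : ℝ) ≤ N := h2.trans hlN
    exact_mod_cast this
  have hNl : (N : ℝ) ≤ 2 * l := by
    have := (Nat.ceil_lt_add_one (by linarith : 0 ≤ l)).le
    rw [← hN] at this
    linarith
  have h4 : (f N : ℝ) ≤ L := by
    calc (f N : ℝ) ≤ Y * (N : ℝ) ^ E := by exact_mod_cast h N hN1
      _ ≤ (Y + 1) * (2 * l) ^ E := by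
        gcongr
        linarith
      _ = ((Y + 1) * 2 ^ E) * l ^ E := by rw [mul_pow]; ring
      _ ≤ ((Y + 1) * 2 ^ E) * (1 / ((Y + 1) * 2 ^ E) * L) := by gcongr
      _ = L := by field_simp
  exact_mod_cast h4

/-! ### The parameters -/

/-- Bound for the time of the filter. -/
def tn (A Q N : ℕ) : ℕ := 4 * (2 * A + 1) * N * Q

/-- The first Lieb-Robinson order. -/
def m2 (A Q N : ℕ) : ℕ := 8 * Q ^ 3 * tn A Q N + A * N

/-- Bound for the range of the truncated terms. -/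
def sn (A Q N : ℕ) : ℕ := (8 * m2 A Q N + 2) * Q

/-- The second Lieb-Robinson order. -/
def m3 (A Q N : ℕ) : ℕ := 2 * tn A Q N * Q * (4 * sn A Q N + 1) ^ 2 + A * N

/-- Bound for the size of the cells. -/
def rn (A Q N : ℕ) : ℕ := 10 * sn A Q N + 8 * (8 * m3 A Q N * sn A Q N) + 1

lemma gp20_PB {q : ℕ → ℕ} (hq : PB q) (A : ℕ) :
    PB (fun N => rn A (q N) N + (tn A (q N) N + (q N + 21))) := by
  have ht : PB (fun N => tn A (q N) N) :=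
    (((PB.const (4 * (2 * A + 1))).mul PB.id).mul hq)
  have h2 : PB (fun N => m2 A (q N) N) :=
    (((PB.const 8).mul (hq.pow 3)).mul ht).add ((PB.const A).mul PB.id)
  have hs : PB (fun N => sn A (q N) N) :=
    (((PB.const 8).mul h2).add (PB.const 2)).mul hq
  have h3 : PB (fun N => m3 A (q N) N) :=
    ((((PB.const 2).mul ht).mul hq).mul ((((PB.const 4).mul hs).add (PB.const 1)).pow 2)).add
      ((PB.const A).mul PB.id)
  have hr : PB (fun N => rn A (q N) N) :=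
    (((PB.const 10).mul hs).add ((PB.const 8).mul (((PB.const 8).mul h3).mul hs))).add
      (PB.const 1)
  exact hr.add (ht.add (hq.add (PB.const 21)))

/-- Numerical estimate of the errors. -/
lemma gp20_err {c Δ T J e1 e2 e3 φ : ℝ} {A Q L N : ℕ} (hc : 0 < c) (hΔ : 0 < Δ)
    (hA : c + 9 ≤ A) (hlog : Real.log L ≤ N) (hT0 : 0 ≤ T) (hTL : T ≤ L) (hJ0 : 0 ≤ J)
    (hJL : J ≤ L) (hΔL : 1 / Δ ≤ L) (hL21 : 21 ≤ L)
    (hφ : 0 ≤ φ) (hφ2 : φ ≤ 2)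
    (h1 : e1 ≤ Real.exp (-((A * N : ℕ) : ℝ)) / Δ) (h2 : e2 ≤ Real.exp (-((A * N : ℕ) : ℝ)))
    (h3 : e3 ≤ Real.exp (-((A * N : ℕ) : ℝ))) :
    2 * (((L : ℝ) ^ 4 * (2 * (T * J) ^ 2 * e3))) * φ + (L : ℝ) ^ (-(c + 1)) +
      2 * (2 * e1 * ((L : ℝ) ^ 2 * J) + 2 * ((L : ℝ) ^ 2 * (T * ((L : ℝ) ^ 2 *
        (2 * J * J * T * e2))))) ≤ (L : ℝ) ^ (-c) := by
  have hL21' : (21 : ℝ) ≤ L := by exact_mod_cast hL21
  have hL0 : (0 : ℝ) < L := by linarith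
  have hL1' : (1 : ℝ) ≤ L := by linarith
  set x : ℝ := Real.exp (-((A * N : ℕ) : ℝ)) with hx
  have hx0 : 0 < x := Real.exp_pos _
  have hA0 : (0 : ℝ) ≤ A := Nat.cast_nonneg A
  have hlog0 : 0 ≤ Real.log L := Real.log_nonneg hL1'
  have hxL : x ≤ (L : ℝ) ^ (-(c + 1) - 8) := by
    rw [hx, Real.rpow_def_of_pos hL0]
    apply Real.exp_le_exp.mpr
    push_cast
    have : Real.log L * (c + 9) ≤ A * N := by
      calc Real.log L * (c + 9) ≤ Real.log L * A := by gcongr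
        _ ≤ N * A := by gcongr
        _ = A * N := by ring
    linarith
  set y : ℝ := (L : ℝ) ^ (-(c + 1) - 8) with hy
  have hy0 : 0 < y := Real.rpow_pos_of_pos hL0 _
  have hL6 : (L : ℝ) ^ (-(c + 1)) = (L : ℝ) ^ 8 * y := by
    rw [hy, ← Real.rpow_natCast, ← Real.rpow_add hL0]
    congr 1
    push_cast
    ring
  have hLc : (L : ℝ) ^ (-c) = L * (L : ℝ) ^ (-(c + 1)) := by
    nth_rewrite 2 [← Real.rpow_one (L : ℝ)]
    rw [← Real.rpow_add hL0]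
    congr 1
    ring
  have hE3 : 2 * (((L : ℝ) ^ 4 * (2 * (T * J) ^ 2 * e3))) * φ ≤ 8 * ((L : ℝ) ^ 8 * y) := by
    have h4 : (T * J) ^ 2 ≤ ((L : ℝ) * L) ^ 2 := by gcongr
    have h5 : 2 * (T * J) ^ 2 * e3 ≤ 2 * ((L : ℝ) * L) ^ 2 * y := by
      calc 2 * (T * J) ^ 2 * e3 ≤ 2 * (T * J) ^ 2 * y := by
            have := h3.trans hxL
            gcongr
        _ ≤ _ := by gcongr
    have h6 : 0 ≤ 2 * ((L : ℝ) * L) ^ 2 * y := by positivity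
    calc 2 * (((L : ℝ) ^ 4 * (2 * (T * J) ^ 2 * e3))) * φ
        ≤ 2 * (((L : ℝ) ^ 4 * (2 * ((L : ℝ) * L) ^ 2 * y))) * φ := by gcongr
      _ ≤ 2 * (((L : ℝ) ^ 4 * (2 * ((L : ℝ) * L) ^ 2 * y))) * 2 := by gcongr
      _ = _ := by ring
  have hE1 : 2 * (2 * e1 * ((L : ℝ) ^ 2 * J)) ≤ 4 * ((L : ℝ) ^ 8 * y) := by
    have h4 : e1 ≤ y * L := by
      calc e1 ≤ x / Δ := h1
        _ = x * (1 / Δ) := by ring
        _ ≤ y * L := by gcongr
    calc 2 * (2 * e1 * ((L : ℝ) ^ 2 * J)) ≤ 2 * (2 * (y * L) * ((L : ℝ) ^ 2 * L)) := by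
          have h7 : e1 * ((L : ℝ) ^ 2 * J) ≤ (y * L) * ((L : ℝ) ^ 2 * L) := by
            calc e1 * ((L : ℝ) ^ 2 * J) ≤ (y * L) * ((L : ℝ) ^ 2 * J) := by gcongr
              _ ≤ _ := by gcongr
          linarith
      _ = 4 * ((L : ℝ) ^ 4 * y) := by ring
      _ ≤ _ := by
        have : (L : ℝ) ^ 4 ≤ (L : ℝ) ^ 8 := pow_le_pow_right₀ hL1' (by norm_num)
        gcongr
  have hE2 : 2 * (2 * ((L : ℝ) ^ 2 * (T * ((L : ℝ) ^ 2 * (2 * J * J * T * e2))))) ≤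
      8 * ((L : ℝ) ^ 8 * y) := by
    have h4 : e2 ≤ y := h2.trans hxL
    have h5 : 2 * J * J * T * e2 ≤ 2 * L * L * L * y := by
      calc 2 * J * J * T * e2 ≤ 2 * J * J * T * y := by gcongr
        _ ≤ _ := by gcongr
    have h6 : 0 ≤ 2 * (L : ℝ) * L * L * y := by positivity
    calc 2 * (2 * ((L : ℝ) ^ 2 * (T * ((L : ℝ) ^ 2 * (2 * J * J * T * e2)))))
        ≤ 2 * (2 * ((L : ℝ) ^ 2 * (T * ((L : ℝ) ^ 2 * (2 * L * L * L * y))))) := by gcongr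
      _ ≤ 2 * (2 * ((L : ℝ) ^ 2 * (L * ((L : ℝ) ^ 2 * (2 * L * L * L * y))))) := by
        gcongr
      _ = _ := by ring
  rw [hLc, hL6]
  have h9 : 0 ≤ (L : ℝ) ^ 8 * y := by positivity
  nlinarith [mul_le_mul_of_nonneg_right hL21' h9]

section Final

open Pool.Agent.PEPS953

/-- As `GPath`, with bounds for the operator norms of the terms. -/
def GPath2 (L : ℕ) [NeZero L] (d r : ℕ) (J Δ : ℝ) (Ψ₀ Ψ₁ : Hil d L) : Prop :=
  ∃ (h h' : Site L → ℝ → Matrix (LConf d r) (LConf d r) ℂ) (E₀ : ℝ → ℝ) (Ψ : ℝ → Hil d L),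
    (∀ v, ∀ s ∈ Set.Icc (0 : ℝ) 1, (h v s).IsHermitian) ∧
    (∀ v, ∀ s ∈ Set.Icc (0 : ℝ) 1, HasDerivWithinAt (h v) (h' v s) (Set.Icc 0 1) s) ∧
    (∀ v, ContinuousOn (h' v) (Set.Icc 0 1)) ∧
    (∀ v, ∀ s ∈ Set.Icc (0 : ℝ) 1, ‖locOp L (h v s) v‖ ≤ J ∧ ‖locOp L (h' v s) v‖ ≤ J) ∧
    (∀ s ∈ Set.Icc (0 : ℝ) 1, IsGappedGS (hamS (fun v => h v s) univ) (E₀ s) Δ (Ψ s)) ∧
    Ψ 0 = Ψ₀ ∧ Ψ 1 = Ψ₁

/-- One torus: from a PEPS near `Ψ₀` to a PEPS near `Ψ₁`. -/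
theorem gp20_step {d L r : ℕ} [NeZero L] (hd : 2 ≤ d) (hr : 0 < r) {J Δ c : ℝ} (hc : 0 < c)
    (hΔ : 0 < Δ) {Ψ₀ Ψ₁ : Hil d L} (hpath : GPath2 L d r J Δ Ψ₀ Ψ₁) {A Q N : ℕ}
    (hA : c + 9 ≤ A) (hrQ : r ≤ Q) (hJQ : J ≤ Q) (hΔQ : 1 / Δ ≤ Q) (hN1 : 1 ≤ N)
    (hlog : Real.log L ≤ N) (hL : rn A Q N + (tn A Q N + (Q + 21)) ≤ L)
    {D : ℕ} {Φ : Hil d L} (hΦ : IsPEPS D Φ) (hΦΨ : ‖Φ - Ψ₀‖ ≤ (L : ℝ) ^ (-(c + 1))) :
    ∃ Φ' : Hil d L, IsPEPS (D * ((d ^ (2 * (9 * (rn A Q N) ^ 2))) ^ 9) ^ 5) Φ' ∧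
      ‖Φ' - Ψ₁‖ ≤ (L : ℝ) ^ (-c) := by
  have hQ1 : 1 ≤ Q := by omega
  have hrL : r ≤ L := by omega
  have hL1 : 1 ≤ L := by omega
  -- the filter
  obtain ⟨T, w, hT0, hTle, hwc, hw1, hwε⟩ := exists_filter hΔ (2 * (A * N))
  have hTB : T ≤ (tn A Q N : ℕ) := by
    refine hTle.trans ?_
    calc 4 * ((2 * (A * N) : ℕ) + 1 : ℝ) / Δ = 4 * ((2 * (A * N) : ℕ) + 1 : ℝ) * (1 / Δ) := by ring
      _ ≤ 4 * ((2 * A + 1 : ℕ) * N : ℝ) * Q := by
        gcongr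
        have : 2 * (A * N) + 1 ≤ (2 * A + 1) * N := by nlinarith
        exact_mod_cast this
      _ = _ := by unfold tn; push_cast; ring
  -- the Lieb-Robinson parameters
  set n₂ : ℕ := 8 * m2 A Q N with hn₂
  set ρ : ℕ := (n₂ + 1) * r with hρ
  set σ : ℕ := ρ + r with hσ
  have hσS : σ ≤ sn A Q N := by
    have h1 : σ = (n₂ + 2) * r := by rw [hσ, hρ]; ring
    rw [h1, hn₂]
    exact Nat.mul_le_mul_left _ hrQ
  set g : ℕ := (4 * (ρ + r) + 1) ^ 2 with hg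
  have hgS : g ≤ (4 * sn A Q N + 1) ^ 2 := by
    rw [hg]
    exact Nat.pow_le_pow_left (by omega) 2
  set n₃ : ℕ := 8 * m3 A Q N with hn₃
  set R : ℕ := rn A Q N with hR
  have hRb : 10 * σ + 8 * (n₃ * σ) + 1 ≤ R := by
    have h1 : n₃ * σ ≤ n₃ * sn A Q N := Nat.mul_le_mul_left _ hσS
    rw [hR]
    unfold rn
    rw [← hn₃]
    omega
  have hRL : R ≤ L := by omega
  -- the clamped path
  obtain ⟨h, h', E₀, Ψ, hherm, hderiv, hcont, hbd, hgs, hΨ0', hΨ1'⟩ := hpath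
  have hJ0 : 0 ≤ J :=
    (norm_nonneg _).trans ((hbd (0, 0) 0 ⟨le_rfl, zero_le_one⟩).1)
  have hhc : ∀ v, ContinuousOn (h v) (Set.Icc 0 1) := fun v =>
    continuousOn_pi.mpr fun i => continuousOn_pi.mpr fun j s hs =>
      (gp18_entry (hderiv v s hs) i j).continuousWithinAt
  set hc' : Site L → ℝ → Matrix (LConf d r) (LConf d r) ℂ := fun v s => h v (gp19_cl s) with hhc'
  set hd' : Site L → ℝ → Matrix (LConf d r) (LConf d r) ℂ := fun v s => h' v (gp19_cl s) with hhd'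
  have c1 : ∀ v, Continuous (hc' v) := fun v => gp19_clamp_cont (hhc v)
  have c2 : ∀ v, Continuous (hd' v) := fun v => gp19_clamp_cont (hcont v)
  have c3 : ∀ v s, (hc' v s).IsHermitian := fun v s => hherm v _ (gp19_cl_mem s)
  have c4 : ∀ v s, (hd' v s).IsHermitian := fun v s =>
    gp19_herm (hherm v) (gp19_cl_mem s) (hderiv v _ (gp19_cl_mem s))
  have c5 : ∀ v, ∀ s ∈ Set.Icc (0 : ℝ) 1, HasDerivWithinAt (hc' v) (hd' v s) (Set.Icc 0 1) s := by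
    intro v s hs
    have h1 := hderiv v s hs
    have h2 : hd' v s = h' v s := by rw [hhd']; simp only [gp19_cl_eq hs]
    rw [h2]
    refine gp19_ofEntry fun i j => (gp18_entry h1 i j).congr (fun t ht => ?_) ?_
    · rw [hhc']; simp only [gp19_cl_eq ht]
    · rw [hhc']; simp only [gp19_cl_eq hs]
  have c6 : ∀ s ∈ Set.Icc (0 : ℝ) 1,
      IsGappedGS (hamS (fun v => hc' v s) univ) (E₀ s) Δ (Ψ s) := by
    intro s hs
    have h2 : (fun v => hc' v s) = fun v => h v s := by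
      funext v
      rw [hhc']; simp only [gp19_cl_eq hs]
    rw [h2]
    exact hgs s hs
  have hJ : ∀ v s, ‖locOp L (hc' v s) v‖ ≤ J := fun v s => (hbd v _ (gp19_cl_mem s)).1
  have hJ' : ∀ v s, ‖locOp L (hd' v s) v‖ ≤ J := fun v s => (hbd v _ (gp19_cl_mem s)).2
  -- the system
  have hsys := gp20_kv_lsys (L := L) hrL c1 c2 c3 c4 (J' := J) hJ' hwc hw1 hT0.le ρ
  obtain ⟨U, hU⟩ := exists_propag
    (fun s => ∑ v : Site L, KV (fun u => hc' u s) (fun u => hd' u s) w T (LT.ball ρ {v}) v)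
    (continuous_finsetSum _ fun v _ => KV_cont c1 c2 hwc T _ v)
  obtain ⟨θ, hθ, hΨ1⟩ := gp20_adiabatic hr hrL c1 c2 c3 c4 c5 (J := J) (J' := J) hJ hJ' hΔ c6 hwc
    hw1 hT0.le hwε n₂ ρ le_rfl hU
  rw [hΨ0', hΨ1'] at hΨ1
  obtain ⟨Φ', hΦ', hΦ'U⟩ := evolve_peps (L := L) (R := R) (σ := ρ + r) (n := n₃) (by omega)
    hRb hRL (J := T * J) (by positivity) hsys hU hΦ
  refine ⟨θ • Φ', hΦ'.smul θ, ?_⟩
  have hUu := hU.unitary (continuous_finsetSum _ fun v _ => KV_cont c1 c2 hwc T _ v)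
    (fun s => gp18_sum_sa _ fun v _ => hsys.sa v s) 1
  have hUn : ∀ x : Hil d L, ‖U 1 x‖ = ‖x‖ := by
    intro x
    have h4 : ⟪U 1 x, U 1 x⟫_ℂ = ⟪x, x⟫_ℂ := by
      rw [← ContinuousLinearMap.adjoint_inner_right, ← ContinuousLinearMap.star_eq_adjoint,
        ← mul_apply_eq_comp, hUu.1, one_apply_eq_self]
    rw [inner_self_eq_norm_sq_to_K, inner_self_eq_norm_sq_to_K] at h4
    have h5 : ‖U 1 x‖ ^ 2 = ‖x‖ ^ 2 := by exact_mod_cast h4
    exact (pow_left_inj₀ (norm_nonneg _) (norm_nonneg _) two_ne_zero).mp h5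
  have h0m : (0 : ℝ) ∈ Set.Icc (0 : ℝ) 1 := ⟨le_rfl, zero_le_one⟩
  have hΨ0 : ‖Ψ₀‖ = 1 := by rw [← hΨ0']; exact (c6 0 h0m).norm_eq
  have hLc1 : (L : ℝ) ^ (-(c + 1)) ≤ 1 :=
    Real.rpow_le_one_of_one_le_of_nonpos (by exact_mod_cast hL1) (by linarith)
  have hΦ2 : ‖Φ‖ ≤ 2 := by
    calc ‖Φ‖ = ‖(Φ - Ψ₀) + Ψ₀‖ := by rw [sub_add_cancel]
      _ ≤ ‖Φ - Ψ₀‖ + ‖Ψ₀‖ := norm_add_le _ _
      _ ≤ 2 := by rw [hΨ0]; linarith
  have hsplit : θ • Φ' - Ψ₁ = θ • (Φ' - U 1 Φ) + θ • (U 1 (Φ - Ψ₀)) -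
      (Ψ₁ - θ • U 1 Ψ₀) := by
    rw [map_sub]
    simp only [smul_sub]
    abel
  have hn : ‖θ • Φ' - Ψ₁‖ ≤ ‖Φ' - U 1 Φ‖ + ‖Φ - Ψ₀‖ + ‖Ψ₁ - θ • U 1 Ψ₀‖ := by
    rw [hsplit]
    refine (norm_sub_le _ _).trans (add_le_add_left ((norm_add_le _ _).trans ?_) _)
    rw [norm_smul, norm_smul, hθ, one_mul, one_mul, hUn]
  refine hn.trans ((add_le_add (add_le_add hΦ'U hΦΨ) hΨ1).trans ?_)
  -- the three exponentially small numbers
  have hx2 : 2 * J * ((4 * r ^ 2 : ℕ) : ℝ) * T ≤ ((m2 A Q N : ℕ) : ℝ) := by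
    calc 2 * J * ((4 * r ^ 2 : ℕ) : ℝ) * T
        ≤ 2 * (Q : ℝ) * ((4 * Q ^ 2 : ℕ) : ℝ) * (tn A Q N : ℕ) := by
          gcongr
      _ = ((8 * Q ^ 3 * tn A Q N : ℕ) : ℝ) := by push_cast; ring
      _ ≤ _ := by
        unfold m2
        exact_mod_cast Nat.le_add_right _ _
  have hx3 : 2 * (T * J) * (g : ℝ) ≤ ((m3 A Q N : ℕ) : ℝ) := by
    calc 2 * (T * J) * (g : ℝ) ≤ 2 * ((tn A Q N : ℕ) * (Q : ℝ)) * (((4 * sn A Q N + 1) ^ 2 : ℕ) : ℝ) := by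
          gcongr
      _ = ((2 * tn A Q N * Q * (4 * sn A Q N + 1) ^ 2 : ℕ) : ℝ) := by push_cast; ring
      _ ≤ _ := by
        unfold m3
        exact_mod_cast Nat.le_add_right _ _
  have haX : A * N ≤ m2 A Q N := by unfold m2; omega
  have haX' : A * N ≤ m3 A Q N := by unfold m3; omega
  have hδ2 := gp19_fact (m2 A Q N) (by positivity) hx2
  have hδ3 := gp19_fact (m3 A Q N) (by positivity) hx3
  have hδ2' := hδ2.trans (Real.exp_le_exp.mpr (neg_le_neg (Nat.cast_le (α := ℝ).mpr haX)))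
  have hδ3' := hδ3.trans (Real.exp_le_exp.mpr (neg_le_neg (Nat.cast_le (α := ℝ).mpr haX')))
  have hQL : (Q : ℝ) ≤ L := by exact_mod_cast (by omega : Q ≤ L)
  have htL : ((tn A Q N : ℕ) : ℝ) ≤ L := by exact_mod_cast (by omega : tn A Q N ≤ L)
  exact gp20_err (Q := Q) hc hΔ hA hlog hT0.le (hTB.trans htL) hJ0 (hJQ.trans hQL)
    (hΔQ.trans hQL) (by omega) (norm_nonneg Φ) hΦ2
    (div_le_div_of_nonneg_right (gp19_half (A * N)) hΔ.le) hδ2' hδ3'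

/-- GP20: the range, the norms of the terms and the inverse of the gap may grow like powers of
`log L`. -/
theorem gapped_path2 {d : ℕ} (hd : 2 ≤ d) (a : ℕ) (C₀ : ℝ)
    (Ψ₀ Ψ₁ : ∀ (L : ℕ) [NeZero L], Hil d L) (L₁ : ℕ)
    (hgap : ∀ (L : ℕ) [NeZero L], L₁ ≤ L → ∃ (r : ℕ) (J Δ : ℝ), 0 < r ∧
      (r : ℝ) ≤ C₀ * (Real.log L) ^ a ∧ J ≤ C₀ * (Real.log L) ^ a ∧ 0 < Δ ∧
      1 / Δ ≤ C₀ * (Real.log L) ^ a ∧ GPath2 L d r J Δ (Ψ₀ L) (Ψ₁ L))
    (h0 : PolyAcc Ψ₀) : PolyAcc Ψ₁ := by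
  intro c hc
  obtain ⟨k₀, C₁, L₀, hL₀⟩ := h0 (c + 1) (by linarith)
  obtain ⟨K, hK⟩ := exists_nat_ge C₀
  obtain ⟨A, hA⟩ := exists_nat_ge (c + 9)
  have hq : PB (fun N => K * N ^ a) := (PB.const K).mul (PB.id.pow a)
  obtain ⟨L₂, hL₂⟩ := (gp20_PB hq A).eventually
  -- a bound for the size of the cells
  have hrn : PB (fun N => rn A (K * N ^ a) N) := by
    obtain ⟨Y, E, hYE⟩ := gp20_PB hq A
    exact ⟨Y, E, fun N hN => le_trans (Nat.le_add_right _ _) (hYE N hN)⟩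
  obtain ⟨Y, E, hYE⟩ := hrn
  refine ⟨k₀ + 2 * E, |C₁| + 810 * Real.log d * (Y * 2 ^ E) ^ 2,
    max (max L₀ L₁) L₂, fun L _ hL => ?_⟩
  have hLa : L₀ ≤ L := le_trans (by simp) hL
  have hLb : L₁ ≤ L := le_trans (by simp) hL
  have hLc : L₂ ≤ L := le_trans (by simp) hL
  obtain ⟨hl1, hl4⟩ := hL₂ L hLc
  set l : ℝ := Real.log L with hl
  set N : ℕ := ⌈l⌉₊ with hN
  have hlN : l ≤ N := Nat.le_ceil l
  have hN1' : (1 : ℝ) ≤ N := hl1.trans hlN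
  have hN1 : 1 ≤ N := by exact_mod_cast hN1'
  have hNl : (N : ℝ) ≤ 2 * l := by
    have := (Nat.ceil_lt_add_one (by linarith : 0 ≤ l)).le
    rw [← hN] at this
    linarith
  set Q : ℕ := K * N ^ a with hQ
  have hbig : C₀ * l ^ a ≤ (Q : ℕ) := by
    rw [hQ]
    push_cast
    calc C₀ * l ^ a ≤ K * l ^ a := by gcongr
      _ ≤ K * (N : ℝ) ^ a := by gcongr
  obtain ⟨r, J, Δ, hr, hrC, hJC, hΔ, hΔC, hpath⟩ := hgap L hLb
  obtain ⟨D, Φ, hΦ, hD, hΦΨ⟩ := hL₀ L hLa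
  obtain ⟨Φ', hΦ', herr⟩ := gp20_step (A := A) (Q := Q) (N := N) hd hr hc hΔ hpath hA
    (by exact_mod_cast hrC.trans hbig) (hJC.trans hbig) (hΔC.trans hbig) hN1 hlN hl4 hΦ hΦΨ
  refine ⟨_, Φ', hΦ', ?_, herr⟩
  -- the bond dimension
  set R : ℕ := rn A Q N with hR
  have hRY : R ≤ Y * N ^ E := hYE N hN1
  have hRl : (R : ℝ) ≤ Y * 2 ^ E * l ^ E := by
    calc (R : ℝ) ≤ Y * (N : ℝ) ^ E := by exact_mod_cast hRY
      _ ≤ Y * (2 * l) ^ E := by gcongr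
      _ = _ := by rw [mul_pow]; ring
  have hd0 : (0 : ℝ) < d := by
    have : 0 < d := by omega
    exact_mod_cast this
  have hdlog : 0 ≤ Real.log d := Real.log_nonneg (by exact_mod_cast (by omega : 1 ≤ d))
  have e1 : (((d : ℝ) ^ (2 * (9 * R ^ 2))) ^ 9) ^ 5 = Real.exp (810 * Real.log d * (R : ℝ) ^ 2) := by
    rw [← pow_mul, ← pow_mul, ← Real.exp_log hd0, ← Real.exp_nat_mul, Real.log_exp]
    congr 1
    push_cast
    ring
  push_cast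
  rw [e1]
  calc (D : ℝ) * Real.exp (810 * Real.log d * (R : ℝ) ^ 2)
      ≤ Real.exp (C₁ * l ^ k₀) * Real.exp (810 * Real.log d * (R : ℝ) ^ 2) := by gcongr
    _ = Real.exp (C₁ * l ^ k₀ + 810 * Real.log d * (R : ℝ) ^ 2) := (Real.exp_add _ _).symm
    _ ≤ _ := by
      apply Real.exp_le_exp.mpr
      have h1 : C₁ * l ^ k₀ ≤ |C₁| * l ^ (k₀ + 2 * E) := by
        calc C₁ * l ^ k₀ ≤ |C₁| * l ^ k₀ := by gcongr; exact le_abs_self _
          _ ≤ _ := by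
            gcongr
            omega
      have h2 : (R : ℝ) ^ 2 ≤ (Y * 2 ^ E) ^ 2 * l ^ (k₀ + 2 * E) := by
        calc (R : ℝ) ^ 2 ≤ (Y * 2 ^ E * l ^ E) ^ 2 := by gcongr
          _ = (Y * 2 ^ E) ^ 2 * l ^ (2 * E) := by ring
          _ ≤ _ := by
            gcongr
            omega
      calc C₁ * l ^ k₀ + 810 * Real.log d * (R : ℝ) ^ 2
          ≤ |C₁| * l ^ (k₀ + 2 * E) + 810 * Real.log d * ((Y * 2 ^ E) ^ 2 * l ^ (k₀ + 2 * E)) := by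
            gcongr
        _ = _ := by ring

end Final

end Pool.Agent.FFG.GP
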