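import Pool.Agent.FFG.GP.Factor
import Pool.Agent.FFG.GP.Defs
import Pool.Agent.FFG.GP.Insert
import Pool.Agent.PEPS953.Transfer

/-!
# Gapped paths and products in plain terms
-/

open Finset
open scoped InnerProductSpace

set_option autoImplicit false
set_option linter.unusedSectionVars false

namespace Pool.Agent.FFG.GPlain

open Pool.Agent.PEPS953.Plain

/-- The product `x ⊗ y`, where the pairs in `Fin d × Fin d'` are numbered by `Fin (d * d')`. -/
def stack {d d' L : ℕ} (x : Vec d L) (y : Vec d' L) : Vec (d * d') L := fun s =>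
  x (fun u => (finProdFinEquiv.symm (s u)).1) * y (fun u => (finProdFinEquiv.symm (s u)).2)

/-- `x` is a product of one-site vectors. -/
def IsProd {d L : ℕ} [NeZero L] (x : Vec d L) : Prop :=
  ∃ f : Site L → Fin d → ℂ, ∀ s, x s = ∏ u, f u (s u)

/-- The operator norm of `O` is at most `J`. -/
def OpLe {d L : ℕ} [NeZero L] (O : Matrix (Conf d L) (Conf d L) ℂ) (J : ℝ) : Prop :=
  ∀ x : Vec d L, nrm (O.mulVec x) ≤ J * nrm x

/-- The sum of the terms `h v`, acting on the boxes at `v`. -/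
noncomputable def hamOf {d r : ℕ} (L : ℕ) [NeZero L]
    (h : Site L → Matrix (LConf d r) (LConf d r) ℂ) : Matrix (Conf d L) (Conf d L) ℂ :=
  ∑ v, translate L (h v) v

/-- The unit vectors `x` and `y` are joined by a gapped path: there are Hermitian terms `h v s` on
the boxes of side `r` at the sites `v`, continuously differentiable in `s`, `0 ≤ s ≤ 1`, such that
the terms and their derivatives have norm at most `J` as operators on the torus, the Hamiltonian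
`H(s)`, the sum of the terms, has a simple lowest eigenvalue with the unit eigenvector `Ψ s`,
separated by at least `Δ` from the rest of the spectrum, and `Ψ 0 = x`, `Ψ 1 = y`. -/
def GappedPath (L : ℕ) [NeZero L] {d : ℕ} (r : ℕ) (J Δ : ℝ) (x y : Vec d L) : Prop :=
  ∃ (h h' : Site L → ℝ → Matrix (LConf d r) (LConf d r) ℂ) (E : ℝ → ℝ) (Ψ : ℝ → Vec d L),
    (∀ v, ∀ s ∈ Set.Icc (0 : ℝ) 1, (h v s).IsHermitian) ∧
    (∀ v, ∀ s ∈ Set.Icc (0 : ℝ) 1, ∀ a b,
      HasDerivWithinAt (fun t => h v t a b) (h' v s a b) (Set.Icc 0 1) s) ∧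
    (∀ v a b, ContinuousOn (fun t => h' v t a b) (Set.Icc 0 1)) ∧
    (∀ v, ∀ s ∈ Set.Icc (0 : ℝ) 1,
      OpLe (translate L (h v s) v) J ∧ OpLe (translate L (h' v s) v) J) ∧
    (∀ s ∈ Set.Icc (0 : ℝ) 1, IsGapped (hamOf L fun v => h v s) (E s) Δ (Ψ s)) ∧
    Ψ 0 = x ∧ Ψ 1 = y

/-- The vectors are joined by a gapped path whose range, norms and inverse gap are at most
`C₀ (log L) ^ a`. -/
def Joined (a : ℕ) (C₀ : ℝ) (L : ℕ) [NeZero L] {d : ℕ} (x y : Vec d L) : Prop :=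
  ∃ (r : ℕ) (J Δ : ℝ), 0 < r ∧ (r : ℝ) ≤ C₀ * (Real.log L) ^ a ∧ J ≤ C₀ * (Real.log L) ^ a ∧
    0 < Δ ∧ 1 / Δ ≤ C₀ * (Real.log L) ^ a ∧ GappedPath L r J Δ x y

/-- The vector `x` is a PEPS of bond dimension at most `exp (C₀ (log L) ^ a)`, or it is obtained
from a vector of the family `Ξ` on a torus of side `L' ≤ L / 2` by the insertion of rows and columns
of sites in product states. -/
def Simple (a : ℕ) (C₀ : ℝ) (L : ℕ) [NeZero L] {d : ℕ} (Ξ : ∀ (L : ℕ) [NeZero L], Vec d L)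
    (x : Vec d L) : Prop :=
  (∃ D : ℕ, IsPEPS D x ∧ (D : ℝ) ≤ Real.exp (C₀ * (Real.log L) ^ a)) ∨
    ∃ (L' : ℕ) (_ : NeZero L'), 2 * L' ≤ L ∧ Inserted (Ξ L') x

/-! ### Transfer -/

open Pool.Agent.PEPS953 (up up_ofLp up_sub nrm_eq ip_eq up_smul up_ne_zero Hil locOp)

variable {d d' r L : ℕ} [NeZero L]

lemma up_stack (x : Vec d L) (y : Vec d' L) : up (stack x y) = GP.stk (up x) (up y) := rfl

lemma up_hamOf (h : Site L → Matrix (LConf d r) (LConf d r) ℂ) (x : Vec d L) :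
    up ((hamOf L h).mulVec x) = GP.hamS h univ (up x) := by
  have h1 : (GP.hamS h univ : Hil d L →L[ℂ] Hil d L) =
      Matrix.toEuclideanCLM (𝕜 := ℂ) (n := Conf d L) (hamOf L h) := by
    unfold GP.hamS hamOf Pool.Agent.PEPS953.locOp
    rw [map_sum]
    rfl
  rw [h1]
  rfl

lemma norm_le_of_opLe {m : Matrix (LConf d r) (LConf d r) ℂ} {v : Site L} {J : ℝ} (hJ : 0 ≤ J)
    (H : OpLe (translate L m v) J) : ‖locOp L m v‖ ≤ J := by
  refine ContinuousLinearMap.opNorm_le_bound _ hJ fun x => ?_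
  have h1 := H x.ofLp
  rw [nrm_eq, nrm_eq, up_ofLp] at h1
  exact h1

lemma nonneg_of_opLe {O : Matrix (Conf d L) (Conf d L) ℂ} {J : ℝ} (H : OpLe O J)
    {x : Vec d L} (hx : nrm x = 1) : 0 ≤ J := by
  have h1 := H x
  rw [hx, mul_one] at h1
  refine le_trans ?_ h1
  rw [nrm_eq]
  exact norm_nonneg _

lemma isGapped_of {h : Site L → Matrix (LConf d r) (LConf d r) ℂ} {E Δ : ℝ} {Ψ : Vec d L}
    (H : IsGapped (hamOf L h) E Δ Ψ) :
    Pool.Agent.PEPS953.IsGappedGS (GP.hamS h univ : Hil d L →L[ℂ] Hil d L) E Δ (up Ψ) := by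
  have key : ∀ (E' : ℝ) (φ : Vec d L), (hamOf L h).mulVec φ = (E' : ℂ) • φ ↔
      GP.hamS h univ (up φ) = (E' : ℂ) • up φ := by
    intro E' φ
    rw [← up_hamOf, ← up_smul]
    exact ⟨fun hh => congrArg up hh, fun hh => congrArg WithLp.ofLp hh⟩
  obtain ⟨h1, h2, h3⟩ := H
  refine ⟨by rw [← nrm_eq]; exact h1, (key E Ψ).mp h2, fun E' φ hφ hE' => ?_⟩
  rcases h3 E' φ.ofLp ((up_ne_zero _).mp hφ) ((key E' _).mpr hE') with ⟨h4, c, h5⟩ | h4
  · exact Or.inl ⟨h4, c, by rw [← up_smul, ← h5, up_ofLp]⟩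
  · exact Or.inr h4

lemma isPEPS_prod {x : Vec d L} (hx : IsProd x) : IsPEPS 1 x := by
  obtain ⟨f, hf⟩ := hx
  refine ⟨fun u σ _ _ _ _ => f u σ, fun s => ?_⟩
  rw [hf]
  simp

omit [NeZero L] in
lemma polyAcc_prod {Ψ : ∀ (L : ℕ) [NeZero L], Vec d L} {L₁ : ℕ}
    (h : ∀ (L : ℕ) [NeZero L], L₁ ≤ L → IsProd (Ψ L)) : PolyAcc Ψ := by
  intro c hc
  refine ⟨0, 1, L₁, fun L _ hL => ⟨1, Ψ L, isPEPS_prod (h L hL), ?_, ?_⟩⟩
  · rw [pow_zero, mul_one, Nat.cast_one]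
    exact Real.one_le_exp zero_le_one
  · change nrm (Ψ L - Ψ L) ≤ (L : ℝ) ^ (-c)
    rw [nrm_eq, sub_self]
    have h1 : (up (0 : Vec d L)) = 0 := rfl
    rw [h1, norm_zero]
    positivity

end Pool.Agent.FFG.GPlain
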